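import Pool.Agent.CTR.Defs

/-!
# CTR: statements

THEOREM (MP_c67a3f_ag). Let `k` be algebraically closed, `A`, `B` matrices over `k` of size `n` such that for some `a, b`
all eigenspaces of `a A + b B` have dimension at most two. Then the local ring of the commuting scheme of `gl_n` at
`(A, B)` is reduced. The same for `sl_n` over the complex numbers.

PLAN. (1) Near such a point, with `x` in the place of `a A + b B`, there are two vectors `e_1`, `e_2` and numbers
`p ≥ q`, `p + q = n`, such that `x^i e_1` (`i < p`) and `x^i e_2` (`i < q`) are a basis; there the commuting scheme is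
isomorphic to an open part of (affine space) times `W`, where `W` is the scheme of `(d, P, T)`, `d` a monic polynomial
of degree `q`, `P`, `T` in `(k[t]/d)^3`, with `P ∧ T = 0` (NFA, NFB, Spl, Uni). (2) `W` is reduced, even integral after
adjoining the roots of `d`: the fibre of `W` at `d = t^q` degenerates to the scheme of jets of the monomial scheme
`P_1 T_0 = P_2 T_0 = P_2 T_1 = 0`, for which a recursion gives a set of monomials which spans its ring, of the size
of a basis in the general fibre (Rec, J0, J2, J1, Lif, WA, TH, Prm).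
-/

set_option autoImplicit false
set_option linter.unusedVariables false

noncomputable section

namespace Pool.Agent.CTR

open Matrix

/-! ### the normal form -/

/-- **NFB.** The matrices of the normal form commute.

Proof. Write `x = nfx`, `a = d m + P_0`, `b = P_1`, `c = P_2`, `γ = T_2`, `κa = (P_1 T_2 - P_2 T_1) / d`,
`κb = (P_0 T_2 - P_2 T_0) / d`, `κc = (P_0 T_1 - P_1 T_0) / d` (exact divisions, `d` monic), `β = m T_1 + κc`,
`ε = -T_0 - κa`. `a`, `d` are monic of degrees `p`, `q` (`deg P_0 < q ≤ p`). By the definition of `cx`, `x^j e_1 = e_(1,j)`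
(`j < p`), `x^j e_2 = e_(2,j)` (`j < q`) and (R) `a(x) e_1 + c(x) e_2 = 0`, `b(x) e_1 + d(x) e_2 = 0`.
Let `y_1 = u(x) e_1 + γ(x) e_2`, `y_2 = β(x) e_1 + (u + ε)(x) e_2`, so `y e_(1,j) = x^j y_1`, `y e_(2,j) = x^j y_2`.
Hence `y x e_(1,j) = x y e_(1,j)` for `j + 1 < p`; for `j = p - 1` this says `a(x) y_1 + c(x) y_2 = 0`, and similarly
`b(x) y_1 + d(x) y_2 = 0` for the second block. Modulo (R) it is enough that `(c β, a γ + c ε)` and
`(d β, b γ + d ε)` are combinations of `(a, c)` and `(b, d)` with polynomial coefficients: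
`(d β, b γ + d ε) = T_1 (a, c) - T_0 (b, d)` and `(c β, a γ + c ε) = -κa (a, c) + (κb + m T_2) (b, d)`. These are
identities of polynomials which follow from `d κa = ..`, `d κb = ..`, `d κc = ..` and `P_0 κa - P_1 κb + P_2 κc = 0`
(multiply by `d`, which is not a zero divisor). -/
def St_NFB : Prop := ∀ (S : Type) [CommRing S] (p q : ℕ) [NeZero p] [NeZero q], q ≤ p →
  ∀ (d m u : Polynomial S) (P T : Fin 3 → Polynomial S), NF p q d m u P T →
  nfx p q d m P * nfy p q d m u P T = nfy p q d m u P T * nfx p q d m P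

/-- **NFA.** Every commuting pair over a ring for which `x^j e_1`, `x^j e_2` are a basis has a normal form.

Proof. `r(x) v` is `pv x r v`. Every vector is `r(x) e_1 + s(x) e_2` with unique `deg r < p`, `deg s < q`.
(1) `x^q e_2 = -(b_0(x) e_1 + d_0(x) e_2)`; `d = X^q + d_0`, `λ = b_0 / d`, `b = b_0 mod d` (division by the monic `d`),
`v = e_2 + λ(x) e_1` (`λ = 0` or `deg λ < p - q`). Then `b(x) e_1 + d(x) v = 0`. Let `H = hv x e_1 v`: its columns
are `x^j e_1` and `x^j v = x^j e_2 + (X^j λ)(x) e_1` with `deg (X^j λ) < p`, so `H = (hm x) U` with `U` upper block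
unipotent, `det H` is a unit and every vector is `r(x) e_1 + s(x) v` with unique `deg r < p`, `deg s < q`.
(2) `x^p e_1 = -(a_0(x) e_1 + c(x) v)`, `a = X^p + a_0`, `a(x) e_1 + c(x) v = 0`. `m = a / d`, `P_0 = a mod d`, `P_1 = b`,
`P_2 = c`. (3) `y e_1 = u(x) e_1 + γ(x) v`; `y' = y - u(x)`; `y' v = β(x) e_1 + ε(x) v` (degrees `< p` and `< q`).
(4) (Z) if `r(x) e_1 + s(x) v = 0`, `r, s ∈ S[X]`, there are `F, G` with `r = F a + G b`, `s = F c + G d`. Indeed every
`(r, s)` is congruent modulo the span of `(a, c)`, `(b, d)` to one with `deg r < p`, `deg s < q` (if `deg r < p + k + 1`,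
`deg s < q + k + 1`, subtract `r_(p+k) X^k (a, c)` and `s_(q+k) X^k (b, d)`; as `deg b, deg c < q ≤ p` then
`deg r < p + k`, `deg s < q + k` up to terms of degree `≤ k + q - 1`), and then both vanish.
(5) applying `y'` to `b(x) e_1 + d(x) v = 0`: `(d β)(x) e_1 + (b γ + d ε)(x) v = 0`, so `d β = F a + G b`,
`b γ + d ε = F c + G d` by (Z). `deg F < q`, `deg G < q`: let `k ≥ q` and assume `F_j = G_j = 0` for `j > k`; the
coefficient of `X^(k+p)` in the first equation gives `F_k = 0`, then that of `X^(k+q)` in the second gives `G_k = 0`.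
(6) applying `y'` to `a(x) e_1 + c(x) v = 0`: `c β = F_1 a + G_1 b`, `a γ + c ε = F_1 c + G_1 d`.
(7) with `Q = !![a, b; c, d]`, `E = !![0, β; γ, ε]`, `E' = !![F_1, F; G_1, G]`: `E Q = Q E'`, so
`det Q * tr E' = tr (adj Q E Q) = det Q * tr E`, and `det Q = a d - b c` is monic; so `F_1 + G = ε`.
(8) `T_0 = -G`, `T_1 = F`, `T_2 = γ`. `P_1 T_2 - P_2 T_1 = d (G - ε)`, `P_0 T_1 - P_1 T_0 = d (β - m F)`,
`P_0 T_2 - P_2 T_0 = d (G_1 - m γ)`. So `NF` holds, `β = m T_1 + (P_0 T_1 - P_1 T_0) /ₘ d`,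
`ε = -T_0 - (P_1 T_2 - P_2 T_1) /ₘ d`, and `x H = H nfx`, `y H = H nfy` (columns; `y v = β(x) e_1 + (u + ε)(x) v`,
`H e_1 = e_1`, `H e_2 = v`, and `r(x) H = H r(nfx)`). -/
def St_NFA : Prop := ∀ (S : Type) [CommRing S] [Nontrivial S] (p q : ℕ) [NeZero p] [NeZero q],
  q ≤ p → ∀ x y : Matrix (Fin p ⊕ Fin q) (Fin p ⊕ Fin q) S, x * y = y * x → IsUnit (hm x).det →
  ∃ (d m u : Polynomial S) (P T : Fin 3 → Polynomial S), NF p q d m u P T ∧
    ∃ H : Matrix (Fin p ⊕ Fin q) (Fin p ⊕ Fin q) S, IsUnit H.det ∧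
      x * H = H * nfx p q d m P ∧ y * H = H * nfy p q d m u P T

/-- **Spl.** A monic polynomial splits in some extension ring.

Proof. Induction on the degree: `S → AdjoinRoot d` is injective (it is free with basis the powers of the root), and
`d = (X - root) d'` over it with `d'` monic. -/
def St_Spl : Prop := ∀ (S : Type) [CommRing S] (d : Polynomial S), d.Monic →
  ∃ (S' : Type) (_ : CommRing S') (_ : Algebra S S') (r : Fin d.natDegree → S'),
    Function.Injective (algebraMap S S') ∧ d.map (algebraMap S S') = dr r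

/-! ### the spanning monomials -/

/-- **Rec.** The recursion step.

Proof. `F μ = F₁ μ` for `μ ∈ A₁` and `F μ = F₂ (sw o s (μ - single v 1)) + single v 1` otherwise, `v = ((1, c), o)`. The
bidegree: `sw` preserves it. For `f` take `g₁` in the span of the `F₁ μ`, `f - g₁ = j + X_v f'` with `j ∈ I` and then `g₂`
for `f'`: `f - g₁ - X_v g₂ = j + X_v (f' - g₂) ∈ I`. `X_v g₂` is in the span of the `F₂ ν + single v 1`, `ν ∈ A₂`, and
`F₂ ν + single v 1 = F μ` for `μ = sw o s ν + single v 1 ∈ A`, which is not in `A₁`. -/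
def St_Rec : Prop := ∀ (K : Type) [CommRing K] (q : ℕ) (c : Fin 3) (o s : Fin q)
  (I I₁ I₂ : Ideal (MvPolynomial (Vr q) K)) (A A₁ A₂ : Set (Vr q →₀ ℕ))
  (F₁ F₂ : (Vr q →₀ ℕ) → (Vr q →₀ ℕ)),
  I₁ ≤ I ⊔ Ideal.span {MvPolynomial.X ((1, c), o)} →
  (∀ f ∈ I₂, MvPolynomial.X ((1, c), o) * f ∈ I) →
  A₁ ⊆ A → (∀ μ ∈ A₁, μ ((1, c), o) = 0) →
  (∀ μ ∈ A, μ ∈ A₁ ∨ ∃ ν ∈ A₂, μ = sw o s ν + Finsupp.single ((1, c), o) 1) →
  (∀ ν ∈ A₂, sw o s ν + Finsupp.single ((1, c), o) 1 ∈ A) →
  Sp I₁ A₁ F₁ → Sp I₂ A₂ F₂ → ∃ F, Sp I A F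

/-- **J0.** The last stage: all relations are among the variables which are zero.

Proof. Let `Z` be the set of the variables `T_(0,i)` (`i < o`), `P_(1,i)` (`i < q - o`), `P_(2,i)` (`i < q - o₂`), `T_(1,i)`
(`i < o₂`); they are in `IJT K q o o₂ (o - o₂)`, as `q - o + (o - o₂) = q - o₂`. The monomials without variables in `Z` span modulo
the ideal generated by `Z`. `F μ` is `μ` with the slots of the `P_c` reversed: `(F μ) ((0, c), i) = μ ((0, c), q - 1 - i)`,
`(F μ) ((1, c), i) = μ ((1, c), i)`. It maps `StdT o o₂ (o - o₂)` onto the exponents which vanish on `Z`: `StdT o o₂ (o - o₂)` is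
the set of the `μ` with `T_0 = 0` for `s < o`, `P_1 = 0` for `s ≥ o`, `T_1 = 0` for `s < o₂`, `P_2 = 0` for `s ≥ o₂` (these
imply `Std`). -/
def St_J0 : Prop := ∀ (K : Type) [CommRing K] (q o o₂ : ℕ), o ≤ q → o₂ ≤ o →
  ∃ F, Sp (IJT K q o o₂ (o - o₂)) (StdT (q := q) o o₂ (o - o₂)) F

/-- **J2.** The second stage.

Proof. Induction on `o - o₂ - β₂`; if it is `0` use J0. Otherwise Rec with `c = 1`, the variable `v = T_(1,o₂)`,
`s = o - β₂ - 1`, `I = IJT K q o o₂ β₂`, `I₁ = IJT K q o (o₂ + 1) β₂ = I + (v)`, `I₂ = IJT K q o o₂ (β₂ + 1) = I + (w)` with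
`w = P_(2, q - o + β₂)`. `v w ∈ I`: it is the only term of `gm 1 2 m`, `m = o₂ + q - o + β₂ < q`, which is not a multiple of a
variable in `I`. `A = StdT o o₂ β₂`, `A₁ = StdT o (o₂ + 1) β₂`, `A₂ = StdT o o₂ (β₂ + 1)`: if `μ ∈ A` and
`μ v = 0` then `μ ∈ A₁`; if `μ v > 0` then `μ ((0, 2), o₂) = 0` by `Std`, and exchanging the slots `o₂` and `s` of
`μ - single v 1` gives an element of `A₂` (both slots are `< o`, so `T_0` vanishes in both; the slots `< o₂` and `≥ o - β₂`
are not changed), and conversely. -/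
def St_J2 : Prop := ∀ (K : Type) [CommRing K] (q o o₂ β₂ : ℕ), o ≤ q → o₂ + β₂ ≤ o →
  ∃ F, Sp (IJT K q o o₂ β₂) (StdT (q := q) o o₂ β₂) F

/-- **J1.** The first stage; the case `o = β = 0` is about `IJ` and all standard exponents.

Proof. Induction on `q - o - β`; if it is `0`, use J2 with `o₂ = β₂ = 0`: `IJT K q o 0 0 = IJO K q o (q - o)` and
`StdT o 0 0 = StdO o (q - o)` (the third condition is part of `StdO`). Otherwise Rec with `c = 0`, `v = T_(0,o)`,
`s = q - β - 1`, `I = IJO K q o β`, `I₁ = IJO K q (o + 1) β = I + (v)`, `I₂ = IJO K q o (β + 1) = I + (w_1, w_2)`,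
`w_c = P_(c, β)`; `v w_c ∈ I`: it is the only term of `gm 0 c (o + β)` which is not a multiple of a variable in `I`.
`A = StdO o β`, `A₁ = StdO (o + 1) β`, `A₂ = StdO o (β + 1)`: if `μ v > 0` then `P_1` and `P_2` vanish in the slot `o`
by `Std`; exchange the slots `o` and `s`. -/
def St_J1 : Prop := ∀ (K : Type) [CommRing K] (q o β : ℕ), o + β ≤ q →
  ∃ F, Sp (IJO K q o β) (StdO (q := q) o β) F

/-- **Lif.** Monomials which span modulo the leading forms of some polynomials span modulo the polynomials.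

Proof. For all `n` and all `f` whose monomials have weight `≤ n`, by induction on `n` (or for weight `< n`). Let `f` be
such, `f'` its component of weight `n`. `f' = b + ∑ a_i g_i` with `b` in the span of `B`; taking components of weight `n`,
`f' = b' + ∑ a_i' g_i`, with `b'` in the span of `B` and `a_i'` the component of `a_i` of weight `n - N_i` (`0` if
`N_i > n`). `f = b' + ∑ a_i' r_i + (f - f') - ∑ a_i' (r_i - g_i)`, and the last two terms have weights `< n`. -/
def St_Lif : Prop := ∀ (K : Type) [CommRing K] (σ : Type) (w : σ → ℕ) (κ : Type)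
  (g r : κ → MvPolynomial σ K) (N : κ → ℕ) (B : Set (σ →₀ ℕ)),
  (∀ i, MvPolynomial.IsWeightedHomogeneous w (g i) (N i)) →
  (∀ i, ∀ a ∈ (r i - g i).support, Finsupp.weight w a < N i) →
  (∀ f : MvPolynomial σ K, ∃ b ∈ Submodule.span K {h | ∃ μ ∈ B, h = MvPolynomial.monomial μ (1 : K)},
    f - b ∈ Ideal.span (Set.range g)) →
  ∀ f : MvPolynomial σ K, ∃ b ∈ Submodule.span K {h | ∃ μ ∈ B, h = MvPolynomial.monomial μ (1 : K)},
    f - b ∈ Ideal.span (Set.range r)

/-- **WA.** Spanning monomials for the ring of `W`.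

Proof. `St_J1` for `o = β = 0` gives `F` for `IJ K q = IJO K q 0 0` and `{μ | Std μ} = StdO 0 0`. Apply Lif with the
weights `w ((0, c), i) = 2 q c + (q - 1 - i)`, `w ((1, c), i) = q - 1 - i`, the index set of the triples `c < c'`, `m`,
`g = gm K c c' m` (homogeneous of weight `N = 2 q c' + 2 (q - 1) - m`), `r = rel r c c' m` and `B` the set of the `F μ`,
`μ` standard. With `G_s(c', c) = ∑_(i + j = s) P_(c',i) T_(c,j)` and `X^s mod d = ∑ ρ_(s,m) X^m`,
`rel r c c' m = ∑_s ρ_(s,m) (G_s(c', c) - G_s(c, c'))`, and `ρ_(s,m) = δ_(s,m)` for `s < q`. `G_m(c', c) = gm`. The weights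
of the other terms: `G_s(c', c)` has weight `2 q c' + 2 (q - 1) - s < N` for `s ≥ q`, and `G_s(c, c')` has weight
`2 q c + 2 (q - 1) - s ≤ 2 q (c' - 1) + 2 (q - 1) < N`. -/
def St_WA : Prop := ∀ (K : Type) [CommRing K] (q : ℕ) (r : Fin q → K),
  ∃ F, Sp (IW r) {μ | Std μ} F

/-! ### the ring of `W` is a domain -/

/-- **TH.** The parametrization `P_c(r_s) = u_0(s) w_c(s)`, `T_c(r_s) = u_1(s) w_c(s)`.

Proof. Let `Ω` be the fraction field of `K`, `L_s ∈ Ω[X]` the Lagrange polynomials of degree `< q` for the distinct points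
`r_s`. `Θ` maps the variable `((i, c), j)` to `∑_s (coefficient of X^j in L_s) u_i(s) w_c(s)`, that is, the polynomial `gp i c`
to `∑_s u_i(s) w_c(s) L_s`. (1) its value at `r_s`. (2) the polynomial `P_(c') T_c - P_c T_(c')` vanishes at all `r_s` after
applying `Θ`, the `r_s` are distinct in the field `Ω`, so it is divisible by `d`, and the remainder is `0` (remainders
commute with ring homomorphisms). (3) `Θ` of a variable `((i, c), j)` is homogeneous of degree `1` in the `u_i(s)` and
of degree `0` in the `u_(i')(s)`, `i' ≠ i`. -/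
def St_TH : Prop := ∀ (K : Type) [CommRing K] [IsDomain K] (q : ℕ) (r : Fin q → K),
  Function.Injective r →
  ∃ Θ : MvPolynomial (Vr q) K →ₐ[K] MvPolynomial (Fin q × (Fin 2 ⊕ Fin 3)) (FractionRing K),
    (∀ (i : Fin 2) (c : Fin 3) (s : Fin q),
      Θ ((gp K q i c).eval (MvPolynomial.C (r s))) =
        MvPolynomial.X (s, Sum.inl i) * MvPolynomial.X (s, Sum.inr c)) ∧
    (∀ f ∈ IW r, Θ f = 0) ∧
    ∀ (i : Fin 2) (μ : Vr q →₀ ℕ), MvPolynomial.IsWeightedHomogeneous
      (fun v : Fin q × (Fin 2 ⊕ Fin 3) => if v.2 = Sum.inl i then 1 else 0)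
      (Θ (MvPolynomial.monomial μ 1)) (bd i μ)

/-- **Prm.** `IW r` is a prime ideal.

Proof. Let `Θ` be from TH and `F` from WA, `Ω` the fraction field. For `μ` standard let `G_μ` be the product of the
`(gp 0 c)(r_s)^(μ ((0, c), s))` and `(gp 1 c)(r_s)^(μ ((1, c), s))` over `c`, `s`. `Θ G_μ` is the monomial with exponents
`∑_c μ ((i, c), s)` at `u_i(s)` and `μ ((0, c), s) + μ ((1, c), s)` at `w_c(s)`. (i) these monomials are distinct for
distinct standard `μ`: in one slot, with exponents `p_c`, `t_c`, standard means `t_0 = 0 ∨ p_1 = 0`, `t_0 = 0 ∨ p_2 = 0`,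
`t_1 = 0 ∨ p_2 = 0`, and `∑ p_c`, `∑ t_c`, `p_c + t_c` determine them. So the `Θ G_μ` are linearly independent over `Ω`.
(ii) Let `Λ` be the finite set of the standard `μ` with given bidegree `(k, l)`. By WA, for `μ ∈ Λ`, `G_μ` is modulo `IW`
a `K`-combination of the monomials `M_ν` with exponents `F ν`, `ν` standard; apply `Θ` and take the component of degree
`(k, l)` in `(u_0, u_1)`: `Θ G_μ` is in the `Ω`-span of the `Θ M_ν`, `ν ∈ Λ` (`F` preserves the bidegree). So the span of
the `|Λ|` vectors `Θ M_ν`, `ν ∈ Λ`, has dimension at least `|Λ|`, and they are linearly independent. As different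
bidegrees give different components, all `Θ M_ν`, `ν` standard, are linearly independent over `Ω`.
(iii) If `Θ f = 0`, then `f = g` modulo `IW` with `g = ∑ c_ν M_ν`, `c_ν ∈ K`, `Θ g = 0`, so all `c_ν = 0` and `f ∈ IW`. So
`IW` is the kernel of `Θ`, and the target is a domain. -/
def St_Prm : Prop := ∀ (K : Type) [CommRing K] [IsDomain K] (q : ℕ) (r : Fin q → K),
  Function.Injective r → (IW r).IsPrime

/-! ### the commuting scheme -/

/-- **Uni.** Reducedness of the part of the commuting scheme where `x^j e_1`, `x^j e_2` are a basis.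

Proof. Let `R = Rg`, `δ = det (hm x)`, `S` the localization of `R / comI` at the powers of `δ`. It is enough that the
image of `f` in `S` is zero; assume that `S` is not zero. (1) NFA for the images of `x`, `y` in `S` gives `d, m, u, P, T, H`.
Spl: `S ⊂ S'`, `d = dr r'` over `S'`. It is enough that the image of `f` in `S'` is zero. (2) Let `K` be the polynomial ring
`k[r_s]`, `𝒟` the quotient of `MvPolynomial (Vr q) K` by `IW` of the variables `r_s`, a domain by Prm. `𝒲` is the polynomial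
ring over `𝒟` in the coefficients of `m` (`p - q` of them), those of `u` (`p`), and the entries of a matrix `H`; `𝒲'` its
localization at the powers of `det H ≠ 0`, a domain. Over `𝒲'` the polynomials `d = dr r`, `m`, `u`, `P_c = gp 0 c`,
`T_c = gp 1 c` satisfy `NF` (the remainders of `P_(c') T_c - P_c T_(c')` by `d` are zero, as all their coefficients are
in `IW`; for `c > c'` up to sign), so `nfx`, `nfy` commute (NFB) and `φ : R → 𝒲'`,
`x ↦ H nfx H⁻¹`, `y ↦ H nfy H⁻¹` kills `comI`. `φ f` is nilpotent, so `φ f = 0`. (3) There is a homomorphism `ψ : 𝒲' → S'`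
of `k`-algebras which maps the `r_s` to the `r'_s`, and the coefficients of `m, u, P_c, T_c` and the entries of `H` to those
from (1): it is defined on the quotient by `IW` as the remainders of `P_(c') T_c - P_c T_(c')` by `d` vanish over
`S'`, and `det H` is a unit. `ψ` maps `H nfx H⁻¹` to the image of `x`, and the same for `y` (`nfx`, `nfy` commute with
homomorphisms; `map_divByMonic`). So `ψ (φ f)` is the image of `f` in `S'`, which is zero. -/
def St_Uni : Prop := ∀ (k : Type) [Field k] (p q : ℕ) [NeZero p] [NeZero q], q ≤ p →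
  ∀ f : Rg (Fin p ⊕ Fin q) k, (∃ m : ℕ, f ^ m ∈ comI (Fin p ⊕ Fin q) k) →
  ∃ N : ℕ, (hm (mX (Fin p ⊕ Fin q) k)).det ^ N * f ∈ comI (Fin p ⊕ Fin q) k

/-- **Lin.** Matrices with all eigenspaces of dimension at most two are generated by two vectors.

Proof. `V = k^n` as a module over `k[X]` via `A`. For every eigenvalue `μ` the subspace `(A - μ) V` is proper, of
codimension at most `2`. `k` is infinite, so there is `v_1` outside all of these finitely many proper subspaces, and then
`v_2` outside all of the `(A - μ) V + k v_1` which are proper; then `(A - μ) V + k v_1 + k v_2 = V` for all eigenvalues `μ`.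
Let `N` be the submodule generated by `v_1`, `v_2`. If `N ≠ V`, then `A` has an eigenvalue `μ` on `V / N`, `A - μ` is not
surjective on `V / N`, and `μ` is an eigenvalue of `A` on `V`; but `(A - μ) V + N = V`. So `N = V`. For `i = 1, 2` let `n_i`
be the dimension of the submodule `N_i` generated by `v_i`. If `n_1 = n`, replace `(v_1, v_2)` by `((A - μ) v_1, v_1)` with
an eigenvalue `μ`: `n_1 = n - 1`. Otherwise, if `n_1 < n - n_1`: `n_2 ≥ dim V / N_1 = n - n_1 > n / 2`, exchange `v_1` and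
`v_2` (and if now `n_2 = n` proceed as before). So we may assume `n - n_1 ≤ n_1 < n`. Put `p = n_1`, `q = n - n_1 > 0`. The
vectors `A^i v_1`, `i < p`, are a basis of `N_1`, and the images of the `A^i v_2`, `i < q`, are one of the cyclic module
`V / N_1`. Let `Q` have the columns `A^i v_1` (`i < p`), `A^i v_2` (`i < q`). Then `Q⁻¹ A Q` has `hm (Q⁻¹ A Q) = 1`. -/
def St_Lin : Prop := ∀ (k : Type) [Field k] [IsAlgClosed k] (n : ℕ), 2 ≤ n →
  ∀ A : Matrix (Fin n) (Fin n) k, (∀ μ : k, n ≤ (A - Matrix.scalar (Fin n) μ).rank + 2) →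
  ∃ (p q : ℕ) (_ : NeZero p) (_ : NeZero q) (e : Fin n ≃ Fin p ⊕ Fin q)
    (Q : (Matrix (Fin n) (Fin n) k)ˣ), q ≤ p ∧
    (hm (Matrix.reindex e e ((Q⁻¹ : (Matrix (Fin n) (Fin n) k)ˣ).val * A * Q.val))).det ≠ 0

/-- **GL.** The theorem for `gl_n`, in elementary terms.

Proof. `n ≤ 1`: `comI = 0`, `R` is a domain, `g = 1` (if `f = 0`; `f ^ 0 = 1 ∉ comI` as `comI` is contained in the ideal of
the polynomials without constant term; if `n = 0` then `R = k`). Let `n ≥ 2`. If `(a, b) = (0, 0)` then `n ≤ 2` and we may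
take `(1, 0)` (every matrix of size `2` has the property). Let `(a, b) ≠ (0, 0)`, choose `(c, d)` with
`D = a d - b c ≠ 0`. For `A = a X₀ + b Y₀` let `p, q, e, Q` be as in Lin. The automorphism `α` of
`k`-algebras from `Rg (Fin p ⊕ Fin q)` to `Rg (Fin n)` with `x ↦ reindex e e (Q⁻¹ (a x + b y) Q)`,
`y ↦ reindex e e (Q⁻¹ (c x + d y) Q)` maps `comI` onto `comI` (the commutator becomes `D` times the conjugate of the
commutator) and has an inverse `α'` of the same kind, which maps `comI` into `comI`. For `f` nilpotent modulo `comI`, so is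
`α' f`; by Uni `det (hm x) ^ N * α' f ∈ comI`; apply `α`: `g = α (det (hm x) ^ N)`, and `g (X₀, Y₀)` is the power of
`det (hm (reindex e e (Q⁻¹ A Q))) ≠ 0`. -/
def St_GL : Prop := ∀ (k : Type) [Field k] [IsAlgClosed k] (n : ℕ)
  (X₀ Y₀ : Matrix (Fin n) (Fin n) k) (a b : k),
  (∀ μ : k, n ≤ (a • X₀ + b • Y₀ - Matrix.scalar (Fin n) μ).rank + 2) →
  ∀ f : Rg (Fin n) k, (∃ m : ℕ, f ^ m ∈ comI (Fin n) k) →
    ∃ g : Rg (Fin n) k, ev X₀ Y₀ g ≠ 0 ∧ g * f ∈ comI (Fin n) k

end Pool.Agent.CTR
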