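import Pool.Agent.CTR.St

/-!
# CTR: module GL

Change of coordinates (conjugation, reindexing, GL_2) and the theorem for `gl_n` in elementary terms.
-/

set_option autoImplicit false

noncomputable section

namespace Pool.Agent.CTR

open Matrix

theorem gl_ev_X {ι k S : Type} [CommRing k] [CommRing S] [Algebra k S] (A B : Matrix ι ι S) :
    (mX ι k).map (ev (k := k) A B) = A := by
  ext i j
  simp [ev, mX]

theorem gl_ev_Y {ι k S : Type} [CommRing k] [CommRing S] [Algebra k S] (A B : Matrix ι ι S) :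
    (mY ι k).map (ev (k := k) A B) = B := by
  ext i j
  simp [ev, mY]

theorem gl_ext {ι k S : Type} [CommRing k] [CommRing S] [Algebra k S] (φ ψ : Rg ι k →ₐ[k] S)
    (h1 : (mX ι k).map φ = (mX ι k).map ψ) (h2 : (mY ι k).map φ = (mY ι k).map ψ) : φ = ψ := by
  apply MvPolynomial.algHom_ext
  rintro ⟨t, i, j⟩
  fin_cases t
  · exact congrFun (congrFun h1 i) j
  · exact congrFun (congrFun h2 i) j

/-- The two matrices commute modulo `comI`. -/
theorem gl_comm (ι k : Type) [Fintype ι] [CommRing k] :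
    (mX ι k).map (Ideal.Quotient.mk (comI ι k)) * (mY ι k).map (Ideal.Quotient.mk (comI ι k)) =
    (mY ι k).map (Ideal.Quotient.mk (comI ι k)) * (mX ι k).map (Ideal.Quotient.mk (comI ι k)) := by
  rw [← Matrix.map_mul, ← Matrix.map_mul]
  ext i j
  rw [Matrix.map_apply, Matrix.map_apply, Ideal.Quotient.eq]
  exact Ideal.subset_span ⟨i, j, rfl⟩

/-- A homomorphism maps `comI` into `J` if the images of the two matrices commute modulo `J`. -/
theorem gl_le {ι k S : Type} [Fintype ι] [CommRing k] [CommRing S] [Algebra k S]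
    (φ : Rg ι k →ₐ[k] S) (J : Ideal S)
    (h : ((mX ι k).map φ).map (Ideal.Quotient.mk J) * ((mY ι k).map φ).map (Ideal.Quotient.mk J) =
      ((mY ι k).map φ).map (Ideal.Quotient.mk J) * ((mX ι k).map φ).map (Ideal.Quotient.mk J)) :
    comI ι k ≤ J.comap φ := by
  unfold comI
  rw [Ideal.span_le]
  rintro f ⟨i, j, rfl⟩
  have h0 : ∀ M N : Matrix ι ι (Rg ι k), ((M * N).map φ).map (Ideal.Quotient.mk J) =
      (M.map φ).map (Ideal.Quotient.mk J) * (N.map φ).map (Ideal.Quotient.mk J) := by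
    intro M N
    rw [Matrix.map_mul, Matrix.map_mul]
  rw [← h0, ← h0] at h
  have h1 : (Ideal.Quotient.mk J) (φ ((mX ι k * mY ι k) i j)) =
      (Ideal.Quotient.mk J) (φ ((mY ι k * mX ι k) i j)) := congrFun (congrFun h i) j
  rw [Ideal.Quotient.eq, ← map_sub] at h1
  exact h1

/-- Conjugation, reindexing and linear combinations. -/
def glM {k S : Type} [Field k] [CommRing S] [Algebra k S] {ι κ : Type} [Fintype ι] [Fintype κ]
    [DecidableEq ι] [DecidableEq κ] (e : ι ≃ κ) (Q Q' : Matrix ι ι k) (a b : k)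
    (X Y : Matrix ι ι S) : Matrix κ κ S :=
  Matrix.reindex e e (Q'.map (algebraMap k S) * (a • X + b • Y) * Q.map (algebraMap k S))

theorem gl_hm_map {S S' : Type} [CommRing S] [CommRing S'] {p q : ℕ} [NeZero p] [NeZero q]
    (φ : S →+* S') (x : Matrix (Fin p ⊕ Fin q) (Fin p ⊕ Fin q) S) :
    (hm x).map φ = hm (x.map φ) := by
  have h1 : ∀ j : ℕ, (x ^ j).map φ = (x.map φ) ^ j := fun j => by
    have := map_pow (φ.mapMatrix) x j
    simpa [RingHom.mapMatrix_apply] using this
  have h2 : φ ∘ (e1 S p q) = e1 S' p q := by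
    funext i
    unfold e1
    by_cases h : i = Sum.inl 0
    · subst h
      simp
    · simp [Pi.single_eq_of_ne h]
  have h3 : φ ∘ (e2 S p q) = e2 S' p q := by
    funext i
    unfold e2
    by_cases h : i = Sum.inr 0
    · subst h
      simp
    · simp [Pi.single_eq_of_ne h]
  ext i j
  rcases j with j | j
  · change φ (((x ^ (j : ℕ)) *ᵥ (e1 S p q)) i) = (((x.map φ) ^ (j : ℕ)) *ᵥ (e1 S' p q)) i
    rw [RingHom.map_mulVec, h1, h2]
  · change φ (((x ^ (j : ℕ)) *ᵥ (e2 S p q)) i) = (((x.map φ) ^ (j : ℕ)) *ᵥ (e2 S' p q)) i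
    rw [RingHom.map_mulVec, h1, h3]

/-- The value at a homomorphism of `glM`. -/
theorem glM_map {k S S' : Type} [Field k] [CommRing S] [Algebra k S] [CommRing S'] [Algebra k S']
    {ι κ : Type} [Fintype ι] [Fintype κ] [DecidableEq ι] [DecidableEq κ] (e : ι ≃ κ)
    (Q Q' : Matrix ι ι k) (a b : k) (X Y : Matrix ι ι S) (φ : S →ₐ[k] S') :
    (glM e Q Q' a b X Y).map φ = glM e Q Q' a b (X.map φ) (Y.map φ) := by
  unfold glM
  have h : (Q'.map (algebraMap k S) * (a • X + b • Y) * Q.map (algebraMap k S)).map φ =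
      Q'.map (algebraMap k S') * (a • X.map φ + b • Y.map φ) * Q.map (algebraMap k S') := by
    rw [Matrix.map_mul, Matrix.map_mul]
    congr 1
    · congr 1
      · ext i j
        simp
      · ext i j
        simp
    · ext i j
      simp
  ext i j
  exact congrFun (congrFun h (e.symm i)) (e.symm j)

/-- `glM` of commuting matrices. -/
theorem glM_comm {k S : Type} [Field k] [CommRing S] [Algebra k S]
    {ι κ : Type} [Fintype ι] [Fintype κ] [DecidableEq ι] [DecidableEq κ] (e : ι ≃ κ)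
    (Q Q' : Matrix ι ι k) (hQ : Q * Q' = 1) (a b c d : k) (X Y : Matrix ι ι S)
    (h : X * Y = Y * X) :
    glM e Q Q' a b X Y * glM e Q Q' c d X Y = glM e Q Q' c d X Y * glM e Q Q' a b X Y := by
  have hQ' : Q.map (algebraMap k S) * Q'.map (algebraMap k S) = 1 := by
    rw [← Matrix.map_mul, hQ]
    exact Matrix.map_one _ (map_zero _) (map_one _)
  have key : ∀ M N : Matrix ι ι S, M * N = N * M →
      Matrix.reindex e e (Q'.map (algebraMap k S) * M * Q.map (algebraMap k S)) *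
        Matrix.reindex e e (Q'.map (algebraMap k S) * N * Q.map (algebraMap k S)) =
      Matrix.reindex e e (Q'.map (algebraMap k S) * (M * N) * Q.map (algebraMap k S)) := by
    intro M N _
    rw [Matrix.reindex_apply, Matrix.reindex_apply, Matrix.submatrix_mul_equiv,
      Matrix.reindex_apply]
    congr 1
    calc Q'.map (algebraMap k S) * M * Q.map (algebraMap k S) *
        (Q'.map (algebraMap k S) * N * Q.map (algebraMap k S))
        = Q'.map (algebraMap k S) * M * (Q.map (algebraMap k S) * Q'.map (algebraMap k S)) *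
          N * Q.map (algebraMap k S) := by simp only [mul_assoc]
      _ = _ := by rw [hQ', mul_one]; simp only [mul_assoc]
  have h2 : (a • X + b • Y) * (c • X + d • Y) = (c • X + d • Y) * (a • X + b • Y) := by
    simp only [mul_add, add_mul, smul_mul_assoc, mul_smul_comm, h]
    module
  unfold glM
  rw [key _ _ h2, key _ _ h2.symm, h2]

/-- `glM` with the inverse data. -/
theorem glM_inv {k S : Type} [Field k] [CommRing S] [Algebra k S]
    {ι κ : Type} [Fintype ι] [Fintype κ] [DecidableEq ι] [DecidableEq κ] (e : ι ≃ κ)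
    (Q Q' : Matrix ι ι k) (hQ : Q * Q' = 1) (a b c d u v : k) (X Y : Matrix ι ι S) :
    glM e.symm (Matrix.reindex e e Q') (Matrix.reindex e e Q) u v (glM e Q Q' a b X Y)
      (glM e Q Q' c d X Y) = (u * a + v * c) • X + (u * b + v * d) • Y := by
  have hQ' : Q.map (algebraMap k S) * Q'.map (algebraMap k S) = 1 := by
    rw [← Matrix.map_mul, hQ]
    exact Matrix.map_one _ (map_zero _) (map_one _)
  have hc : ∀ M : Matrix ι ι S, Q.map (algebraMap k S) *
      (Q'.map (algebraMap k S) * M * Q.map (algebraMap k S)) * Q'.map (algebraMap k S) = M := by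
    intro M
    calc Q.map (algebraMap k S) * (Q'.map (algebraMap k S) * M * Q.map (algebraMap k S)) *
        Q'.map (algebraMap k S)
        = (Q.map (algebraMap k S) * Q'.map (algebraMap k S)) * M *
          (Q.map (algebraMap k S) * Q'.map (algebraMap k S)) := by simp only [mul_assoc]
      _ = M := by rw [hQ', one_mul, mul_one]
  let ρ := Matrix.reindexAlgEquiv k S e
  have h1 : glM e.symm (Matrix.reindex e e Q') (Matrix.reindex e e Q) u v (glM e Q Q' a b X Y)
      (glM e Q Q' c d X Y) = ρ.symm (ρ (Q.map (algebraMap k S)) *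
      (u • ρ (Q'.map (algebraMap k S) * (a • X + b • Y) * Q.map (algebraMap k S)) +
       v • ρ (Q'.map (algebraMap k S) * (c • X + d • Y) * Q.map (algebraMap k S))) *
      ρ (Q'.map (algebraMap k S))) := rfl
  rw [h1, ← map_smul, ← map_smul, ← map_add, ← map_mul, ← map_mul, AlgEquiv.symm_apply_apply,
    mul_add, add_mul, mul_smul_comm, mul_smul_comm, smul_mul_assoc, smul_mul_assoc, hc, hc]
  module

/-- The case of a good combination. -/
theorem gl_main (hLin : St_Lin) (hUni : St_Uni) (k : Type) [Field k] [IsAlgClosed k] (n : ℕ)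
    (hn : 2 ≤ n) (X₀ Y₀ : Matrix (Fin n) (Fin n) k) (a b c d : k) (hD : a * d - b * c ≠ 0)
    (h : ∀ μ : k, n ≤ (a • X₀ + b • Y₀ - Matrix.scalar (Fin n) μ).rank + 2)
    (f : Rg (Fin n) k) (hf : ∃ m : ℕ, f ^ m ∈ comI (Fin n) k) :
    ∃ g : Rg (Fin n) k, ev X₀ Y₀ g ≠ 0 ∧ g * f ∈ comI (Fin n) k := by
  obtain ⟨p, q, hp, hq, e, Q, hqp, hdet⟩ := hLin k n hn _ h
  obtain ⟨m, hfm⟩ := hf
  have hQ1 : Q.val * (Q⁻¹ : (Matrix (Fin n) (Fin n) k)ˣ).val = 1 := Q.mul_inv
  have hQ2 : (Q⁻¹ : (Matrix (Fin n) (Fin n) k)ˣ).val * Q.val = 1 := Q.inv_mul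
  set Q' := (Q⁻¹ : (Matrix (Fin n) (Fin n) k)ˣ).val with hQ'
  set D := a * d - b * c with hDdef
  -- the homomorphisms
  let α : Rg (Fin p ⊕ Fin q) k →ₐ[k] Rg (Fin n) k :=
    ev (glM e Q.val Q' a b (mX (Fin n) k) (mY (Fin n) k))
      (glM e Q.val Q' c d (mX (Fin n) k) (mY (Fin n) k))
  let α' : Rg (Fin n) k →ₐ[k] Rg (Fin p ⊕ Fin q) k :=
    ev (glM e.symm (Matrix.reindex e e Q') (Matrix.reindex e e Q.val) (D⁻¹ * d) (-(D⁻¹ * b))
        (mX (Fin p ⊕ Fin q) k) (mY (Fin p ⊕ Fin q) k))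
      (glM e.symm (Matrix.reindex e e Q') (Matrix.reindex e e Q.val) (-(D⁻¹ * c)) (D⁻¹ * a)
        (mX (Fin p ⊕ Fin q) k) (mY (Fin p ⊕ Fin q) k))
  have hcomp : α.comp α' = AlgHom.id k _ := by
    apply gl_ext
    · have h1 : (mX (Fin n) k).map (α.comp α') = ((mX (Fin n) k).map α').map α := rfl
      rw [h1, gl_ev_X, glM_map, gl_ev_X, gl_ev_Y, glM_inv e _ _ hQ1]
      have e1 : D⁻¹ * d * a + -(D⁻¹ * b) * c = 1 := by
        rw [← inv_mul_cancel₀ hD, hDdef]
        ring
      have e2 : D⁻¹ * d * b + -(D⁻¹ * b) * d = 0 := by ring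
      rw [e1, e2, one_smul, zero_smul, add_zero]
      rfl
    · have h1 : (mY (Fin n) k).map (α.comp α') = ((mY (Fin n) k).map α').map α := rfl
      rw [h1, gl_ev_Y, glM_map, gl_ev_X, gl_ev_Y, glM_inv e _ _ hQ1]
      have e1 : -(D⁻¹ * c) * a + D⁻¹ * a * c = 0 := by ring
      have e2 : -(D⁻¹ * c) * b + D⁻¹ * a * d = 1 := by
        rw [← inv_mul_cancel₀ hD, hDdef]
        ring
      rw [e1, e2, one_smul, zero_smul, zero_add]
      rfl
  have hα : comI (Fin p ⊕ Fin q) k ≤ (comI (Fin n) k).comap α := by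
    apply gl_le
    rw [gl_ev_X, gl_ev_Y]
    have h1 := glM_comm e Q.val Q' hQ1 a b c d _ _ (gl_comm (Fin n) k)
    have h2 : ∀ u v : k, (glM e Q.val Q' u v (mX (Fin n) k) (mY (Fin n) k)).map
        (Ideal.Quotient.mk (comI (Fin n) k)) =
        glM e Q.val Q' u v ((mX (Fin n) k).map (Ideal.Quotient.mk (comI (Fin n) k)))
          ((mY (Fin n) k).map (Ideal.Quotient.mk (comI (Fin n) k))) := fun u v =>
      glM_map e Q.val Q' u v _ _ (Ideal.Quotient.mkₐ k (comI (Fin n) k))
    rw [h2, h2]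
    exact h1
  have hα' : comI (Fin n) k ≤ (comI (Fin p ⊕ Fin q) k).comap α' := by
    apply gl_le
    rw [gl_ev_X, gl_ev_Y]
    have hQ3 : Matrix.reindex e e Q' * Matrix.reindex e e Q.val = 1 := by
      have h0 := map_mul (Matrix.reindexAlgEquiv k k e) Q' Q.val
      rw [hQ2, map_one] at h0
      exact h0.symm
    have h1 := glM_comm e.symm _ _ hQ3 (D⁻¹ * d) (-(D⁻¹ * b)) (-(D⁻¹ * c)) (D⁻¹ * a) _ _
      (gl_comm (Fin p ⊕ Fin q) k)
    have h2 : ∀ u v : k, (glM e.symm (Matrix.reindex e e Q') (Matrix.reindex e e Q.val) u v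
        (mX (Fin p ⊕ Fin q) k) (mY (Fin p ⊕ Fin q) k)).map
        (Ideal.Quotient.mk (comI (Fin p ⊕ Fin q) k)) =
        glM e.symm (Matrix.reindex e e Q') (Matrix.reindex e e Q.val) u v
          ((mX (Fin p ⊕ Fin q) k).map (Ideal.Quotient.mk (comI (Fin p ⊕ Fin q) k)))
          ((mY (Fin p ⊕ Fin q) k).map (Ideal.Quotient.mk (comI (Fin p ⊕ Fin q) k))) := fun u v =>
      glM_map e.symm _ _ u v _ _ (Ideal.Quotient.mkₐ k (comI (Fin p ⊕ Fin q) k))
    rw [h2, h2]
    exact h1
  obtain ⟨N, hN⟩ := hUni k p q hqp (α' f) ⟨m, by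
    rw [← map_pow]
    exact hα' hfm⟩
  refine ⟨α ((hm (mX (Fin p ⊕ Fin q) k)).det ^ N), ?_, ?_⟩
  · rw [map_pow, map_pow]
    refine pow_ne_zero N ?_
    have h1 : (ev X₀ Y₀) (α (hm (mX (Fin p ⊕ Fin q) k)).det) =
        ((hm (mX (Fin p ⊕ Fin q) k)).map ((ev X₀ Y₀).comp α).toRingHom).det :=
      RingHom.map_det ((ev X₀ Y₀).comp α).toRingHom _
    rw [h1, gl_hm_map]
    have h2 : (mX (Fin p ⊕ Fin q) k).map ((ev X₀ Y₀).comp α).toRingHom =
        glM e Q.val Q' a b X₀ Y₀ := by
      have h3 : (mX (Fin p ⊕ Fin q) k).map ((ev X₀ Y₀).comp α).toRingHom =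
        ((mX (Fin p ⊕ Fin q) k).map α).map (ev X₀ Y₀) := rfl
      rw [h3, gl_ev_X, glM_map, gl_ev_X, gl_ev_Y]
    rw [h2]
    exact hdet
  · have h1 := hα hN
    rw [Ideal.mem_comap, map_mul] at h1
    have h2 : α (α' f) = f := congrFun (congrArg DFunLike.coe hcomp) f
    rwa [h2] at h1

theorem thm_GL (hLin : St_Lin) (hUni : St_Uni) : St_GL := by
  intro k _ _ n X₀ Y₀ a b h f hf
  rcases Nat.lt_or_ge n 2 with hn | hn
  · -- `comI = 0`
    obtain ⟨m, hfm⟩ := hf
    have h0 : comI (Fin n) k = ⊥ := by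
      unfold comI
      rw [Ideal.span_eq_bot]
      rintro x ⟨i, j, rfl⟩
      have hs : Subsingleton (Fin n) := by
        interval_cases n
        · infer_instance
        · infer_instance
      have hij : j = i := Subsingleton.elim _ _
      subst hij
      rw [Matrix.sub_apply, Matrix.mul_apply, Matrix.mul_apply, sub_eq_zero]
      refine Finset.sum_congr rfl fun x _ => ?_
      have hx : x = j := Subsingleton.elim _ _
      subst hx
      exact mul_comm _ _
    rw [h0, Ideal.mem_bot] at hfm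
    have hf0 : f = 0 := eq_zero_of_pow_eq_zero hfm
    refine ⟨1, ?_, ?_⟩
    · rw [map_one]
      exact one_ne_zero
    · rw [hf0, mul_zero]
      exact zero_mem _
  · by_cases hab : a = 0 ∧ b = 0
    · obtain ⟨rfl, rfl⟩ := hab
      have h2 : n ≤ 2 := by
        have h1 := h 0
        simpa using h1
      exact gl_main hLin hUni k n hn X₀ Y₀ 1 0 0 1 (by simp) (fun μ => by omega) f hf
    · by_cases ha : a = 0
      · have hb : b ≠ 0 := fun hb => hab ⟨ha, hb⟩
        exact gl_main hLin hUni k n hn X₀ Y₀ a b 1 0 (by simpa using hb) h f hf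
      · exact gl_main hLin hUni k n hn X₀ Y₀ a b 0 1 (by simpa using ha) h f hf

end Pool.Agent.CTR
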