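import Pool.Agent.CTR.St

/-!
# CTR, module Spl: a monic polynomial splits in some extension ring
-/

set_option autoImplicit false

noncomputable section

namespace Pool.Agent.CTR

open Polynomial

theorem spl_aux : ∀ (n : ℕ) (S : Type) [CommRing S] (d : Polynomial S), d.Monic →
    d.natDegree = n → ∃ (S' : Type) (_ : CommRing S') (_ : Algebra S S') (r : Fin n → S'),
      Function.Injective (algebraMap S S') ∧ d.map (algebraMap S S') = dr r := by
  intro n
  induction n with
  | zero =>
    intro S _ d hd hn
    refine ⟨S, inferInstance, inferInstance, fun i => i.elim0, fun a b h => h, ?_⟩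
    rw [hd.natDegree_eq_zero.1 hn]
    simp [dr]
  | succ n ih =>
    intro S _ d hd hn
    have hne : Nontrivial S := by
      by_contra h
      rw [not_nontrivial_iff_subsingleton] at h
      have h1 : d = 0 := Subsingleton.elim _ _
      rw [h1, natDegree_zero] at hn
      omega
    have hinj : Function.Injective (AdjoinRoot.of d) := by
      rw [injective_iff_map_eq_zero]
      intro a ha
      by_contra h0
      have h1 : d ∣ C a := by
        rw [← AdjoinRoot.mk_eq_zero]
        exact ha
      refine hd.not_dvd_of_natDegree_lt (C_ne_zero.2 h0) ?_ h1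
      rw [natDegree_C, hn]
      omega
    have hne1 : Nontrivial (AdjoinRoot d) := hinj.nontrivial
    have hroot : (d.map (AdjoinRoot.of d)).IsRoot (AdjoinRoot.root d) := AdjoinRoot.isRoot_root d
    obtain ⟨d1, hd1⟩ := dvd_iff_isRoot.2 hroot
    have hm : (d.map (AdjoinRoot.of d)).Monic := hd.map _
    have hX : (X - C (AdjoinRoot.root d) : Polynomial (AdjoinRoot d)).Monic := monic_X_sub_C _
    have hm1 : d1.Monic := by
      rw [hd1] at hm
      exact hX.of_mul_monic_left hm
    have hdeg : d1.natDegree = n := by
      have h1 : (d.map (AdjoinRoot.of d)).natDegree = n + 1 := by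
        rw [hd.natDegree_map, hn]
      rw [hd1, hX.natDegree_mul hm1, natDegree_X_sub_C] at h1
      omega
    obtain ⟨S', i1, i2, r, h1, h2⟩ := ih (AdjoinRoot d) d1 hm1 hdeg
    refine ⟨S', i1, ((algebraMap (AdjoinRoot d) S').comp (AdjoinRoot.of d)).toAlgebra,
      Fin.cons (algebraMap (AdjoinRoot d) S' (AdjoinRoot.root d)) r, ?_, ?_⟩
    · exact h1.comp hinj
    · show d.map ((algebraMap (AdjoinRoot d) S').comp (AdjoinRoot.of d)) = _
      rw [← Polynomial.map_map, hd1, Polynomial.map_mul, h2]
      simp [dr, Fin.prod_univ_succ]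

theorem thm_Spl : St_Spl := by
  intro S _ d hd
  exact spl_aux _ S d hd rfl

end Pool.Agent.CTR
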