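import Pool.Agent.CTR.St

/-!
# CTR: from nilpotent elements to local rings
-/

set_option autoImplicit false

noncomputable section

namespace Pool.Agent.CTR

open Matrix

variable {k : Type} [Field k] {n : ℕ}

/-- Localizing a quotient of a ring at the complement of a prime ideal gives a reduced ring if every element
which is nilpotent in the quotient is killed by an element outside of the prime ideal. -/
theorem loc_reduced {R : Type} [CommRing R] (I P : Ideal R) [P.IsPrime]
    (h : ∀ f : R, (∃ m : ℕ, f ^ m ∈ I) → ∃ g : R, g ∉ P ∧ g * f ∈ I) :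
    IsReduced (Localization (Submonoid.map (Ideal.Quotient.mk I) P.primeCompl)) := by
  set M := Submonoid.map (Ideal.Quotient.mk I) P.primeCompl with hM
  refine ⟨fun z hz => ?_⟩
  obtain ⟨m, hm⟩ := hz
  obtain ⟨⟨a, s⟩, hs⟩ := IsLocalization.surj M z
  -- the numerator is nilpotent in the localization
  have ha : (algebraMap (R ⧸ I) (Localization M) a) ^ m = 0 := by
    rw [← hs, mul_pow, hm, zero_mul]
  rw [← map_pow] at ha
  obtain ⟨t, ht⟩ := (IsLocalization.map_eq_zero_iff M (Localization M) (a ^ m)).1 ha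
  obtain ⟨a', rfl⟩ := Ideal.Quotient.mk_surjective a
  obtain ⟨t', ht', ht''⟩ := t.2
  have h1 : (t' * a') ^ (m + 1) ∈ I := by
    have h2 : t' * a' ^ m ∈ I := by
      rw [← Ideal.Quotient.eq_zero_iff_mem, map_mul, map_pow, ht'']
      exact ht
    have h3 : (t' * a') ^ (m + 1) = (t' ^ m * a') * (t' * a' ^ m) := by ring
    rw [h3]
    exact I.mul_mem_left _ h2
  obtain ⟨g, hg, hgI⟩ := h _ ⟨_, h1⟩
  have h4 : (algebraMap (R ⧸ I) (Localization M) (Ideal.Quotient.mk I a')) = 0 := by
    rw [IsLocalization.map_eq_zero_iff M]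
    refine ⟨⟨Ideal.Quotient.mk I (g * t'), ⟨g * t', ?_, rfl⟩⟩, ?_⟩
    · exact fun h5 => ((Ideal.IsPrime.mem_or_mem ‹P.IsPrime› h5).elim hg ht')
    · change Ideal.Quotient.mk I (g * t') * Ideal.Quotient.mk I a' = 0
      rw [← map_mul, Ideal.Quotient.eq_zero_iff_mem, mul_assoc]
      exact hgI
  rw [h4] at hs
  exact ((IsLocalization.map_units (Localization M) s).mul_left_eq_zero).1 hs

end Pool.Agent.CTR
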