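import Pool.Agent.CTR.St

/-!
# CTR: traceless matrices
-/

set_option autoImplicit false

noncomputable section

namespace Pool.Agent.CTR

open Matrix

/-- The ideal generated by the entries of `x y - y x` and by the traces of `x`, `y`. -/
def comS (n : ℕ) : Ideal (Rg (Fin n) ℂ) :=
  comI (Fin n) ℂ ⊔ Ideal.span {(mX (Fin n) ℂ).trace, (mY (Fin n) ℂ).trace}

/-- The traceless part. -/
def sl_tl (n : ℕ) (Z : Matrix (Fin n) (Fin n) (Rg (Fin n) ℂ)) :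
    Matrix (Fin n) (Fin n) (Rg (Fin n) ℂ) :=
  Z - Matrix.scalar (Fin n) (MvPolynomial.C ((n : ℂ)⁻¹) * Z.trace)

/-- The projection to the functions of traceless matrices. -/
def sl_pi (n : ℕ) : Rg (Fin n) ℂ →ₐ[ℂ] Rg (Fin n) ℂ :=
  ev (sl_tl n (mX (Fin n) ℂ)) (sl_tl n (mY (Fin n) ℂ))

theorem sl_pi_mX (n : ℕ) : (mX (Fin n) ℂ).map (sl_pi n) = sl_tl n (mX (Fin n) ℂ) := by
  ext i j
  simp [sl_pi, ev, mX]

theorem sl_pi_mY (n : ℕ) : (mY (Fin n) ℂ).map (sl_pi n) = sl_tl n (mY (Fin n) ℂ) := by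
  ext i j
  simp [sl_pi, ev, mY]

theorem sl_comm (n : ℕ) (Z W : Matrix (Fin n) (Fin n) (Rg (Fin n) ℂ)) :
    sl_tl n Z * sl_tl n W - sl_tl n W * sl_tl n Z = Z * W - W * Z := by
  unfold sl_tl
  set s := MvPolynomial.C ((n : ℂ)⁻¹) * Z.trace
  set t := MvPolynomial.C ((n : ℂ)⁻¹) * W.trace
  have h1 : ∀ (u : Rg (Fin n) ℂ) (Y : Matrix (Fin n) (Fin n) (Rg (Fin n) ℂ)),
      Matrix.scalar (Fin n) u * Y = Y * Matrix.scalar (Fin n) u := fun u Y =>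
    (Matrix.scalar_commute u (fun r => Commute.all u r) Y).eq
  rw [sub_mul, mul_sub, mul_sub, sub_mul, mul_sub, mul_sub, h1 s W, h1 t Z, h1 s (scalar (Fin n) t)]
  abel

theorem sl_trace (n : ℕ) (Z : Matrix (Fin n) (Fin n) (Rg (Fin n) ℂ)) :
    (sl_tl n Z).trace = 0 := by
  unfold sl_tl
  rw [Matrix.trace_sub]
  rcases Nat.eq_zero_or_pos n with h | h
  · subst h
    simp [Matrix.trace]
  · have h2 : (Matrix.scalar (Fin n) (MvPolynomial.C ((n : ℂ)⁻¹) * Z.trace)).trace =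
        (n : Rg (Fin n) ℂ) * (MvPolynomial.C ((n : ℂ)⁻¹) * Z.trace) := by
      simp [Matrix.trace, Matrix.scalar_apply]
    have h3 : (n : Rg (Fin n) ℂ) * MvPolynomial.C ((n : ℂ)⁻¹) = 1 := by
      rw [← map_natCast (MvPolynomial.C : ℂ →+* Rg (Fin n) ℂ), ← map_mul,
        mul_inv_cancel₀ (by exact_mod_cast h.ne'), map_one]
    rw [h2, ← mul_assoc, h3, one_mul, sub_self]

theorem sl_pi_comm (n : ℕ) :
    ((mX (Fin n) ℂ * mY (Fin n) ℂ - mY (Fin n) ℂ * mX (Fin n) ℂ).map (sl_pi n)) =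
      mX (Fin n) ℂ * mY (Fin n) ℂ - mY (Fin n) ℂ * mX (Fin n) ℂ := by
  rw [Matrix.map_sub _ (map_sub (sl_pi n)), Matrix.map_mul, Matrix.map_mul, sl_pi_mX, sl_pi_mY, sl_comm]

theorem sl_pi_comI (n : ℕ) (f : Rg (Fin n) ℂ) (hf : f ∈ comI (Fin n) ℂ) :
    sl_pi n f ∈ comI (Fin n) ℂ := by
  have h : comI (Fin n) ℂ ≤ (comI (Fin n) ℂ).comap (sl_pi n) := by
    unfold comI
    rw [Ideal.span_le]
    rintro g ⟨i, j, rfl⟩
    rw [SetLike.mem_coe, Ideal.mem_comap]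
    have h1 : sl_pi n ((mX (Fin n) ℂ * mY (Fin n) ℂ - mY (Fin n) ℂ * mX (Fin n) ℂ) i j) =
        ((mX (Fin n) ℂ * mY (Fin n) ℂ - mY (Fin n) ℂ * mX (Fin n) ℂ)) i j :=
      congrFun (congrFun (sl_pi_comm n) i) j
    rw [h1]
    exact Ideal.subset_span ⟨i, j, rfl⟩
  exact h hf

theorem sl_pi_trace (n : ℕ) :
    sl_pi n (mX (Fin n) ℂ).trace = 0 ∧ sl_pi n (mY (Fin n) ℂ).trace = 0 := by
  constructor
  · have h1 : sl_pi n (mX (Fin n) ℂ).trace = ((mX (Fin n) ℂ).map (sl_pi n)).trace := by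
      simp [Matrix.trace]
    rw [h1, sl_pi_mX, sl_trace]
  · have h1 : sl_pi n (mY (Fin n) ℂ).trace = ((mY (Fin n) ℂ).map (sl_pi n)).trace := by
      simp [Matrix.trace]
    rw [h1, sl_pi_mY, sl_trace]

theorem sl_pi_comS (n : ℕ) (f : Rg (Fin n) ℂ) (hf : f ∈ comS n) :
    sl_pi n f ∈ comI (Fin n) ℂ := by
  have h : comS n ≤ (comI (Fin n) ℂ).comap (sl_pi n) := by
    unfold comS
    refine sup_le (fun g hg => sl_pi_comI n g hg) ?_
    rw [Ideal.span_le]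
    rintro g (rfl | rfl)
    · rw [SetLike.mem_coe, Ideal.mem_comap, (sl_pi_trace n).1]
      exact Ideal.zero_mem _
    · rw [SetLike.mem_coe, Ideal.mem_comap, (sl_pi_trace n).2]
      exact Ideal.zero_mem _
  exact h hf

theorem sl_pi_sub (n : ℕ) (f : Rg (Fin n) ℂ) : sl_pi n f - f ∈ comS n := by
  set T : Ideal (Rg (Fin n) ℂ) := Ideal.span {(mX (Fin n) ℂ).trace, (mY (Fin n) ℂ).trace} with hT
  have h : (Ideal.Quotient.mkₐ ℂ T).comp (sl_pi n) = Ideal.Quotient.mkₐ ℂ T := by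
    apply MvPolynomial.algHom_ext
    rintro ⟨c, i, j⟩
    have hX : (mX (Fin n) ℂ).trace ∈ T := Ideal.subset_span (by simp)
    have hY : (mY (Fin n) ℂ).trace ∈ T := Ideal.subset_span (by simp)
    rw [AlgHom.comp_apply, Ideal.Quotient.mkₐ_eq_mk, Ideal.Quotient.eq]
    have h0 : sl_pi n (MvPolynomial.X (c, i, j)) = if c = 0 then sl_tl n (mX (Fin n) ℂ) i j
        else sl_tl n (mY (Fin n) ℂ) i j := by
      simp [sl_pi, ev]
    rw [h0]
    have h1 : ∀ (Z : Matrix (Fin n) (Fin n) (Rg (Fin n) ℂ)), Z.trace ∈ T →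
        sl_tl n Z i j - Z i j ∈ T := by
      intro Z hZ
      have h2 : sl_tl n Z i j - Z i j =
          -((Matrix.scalar (Fin n) (MvPolynomial.C ((n : ℂ)⁻¹) * Z.trace)) i j) := by
        simp [sl_tl]
      rw [h2, Matrix.scalar_apply, Matrix.diagonal_apply]
      split_ifs
      · exact T.neg_mem (T.mul_mem_left _ hZ)
      · simp
    have hc : c = 0 ∨ c = 1 := by
      fin_cases c <;> simp
    rcases hc with rfl | rfl
    · exact h1 _ hX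
    · exact h1 _ hY
  have h3 : sl_pi n f - f ∈ T := by
    rw [← Ideal.Quotient.eq]
    exact DFunLike.congr_fun h f
  exact (le_sup_right : T ≤ comS n) h3

/-- The theorem for traceless matrices. -/
theorem sl_GL (hGL : St_GL) (n : ℕ) (X₀ Y₀ : Matrix (Fin n) (Fin n) ℂ) (a b : ℂ)
    (h : ∀ μ : ℂ, n ≤ (a • X₀ + b • Y₀ - Matrix.scalar (Fin n) μ).rank + 2)
    (f : Rg (Fin n) ℂ) (hf : ∃ m : ℕ, f ^ m ∈ comS n) :
    ∃ g : Rg (Fin n) ℂ, ev X₀ Y₀ g ≠ 0 ∧ g * f ∈ comS n := by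
  obtain ⟨m, hm⟩ := hf
  obtain ⟨g, hg, hgf⟩ := hGL ℂ n X₀ Y₀ a b h (sl_pi n f) ⟨m, by
    rw [← map_pow]
    exact sl_pi_comS n _ hm⟩
  refine ⟨g, hg, ?_⟩
  have h1 : g * f = g * sl_pi n f - g * (sl_pi n f - f) := by ring
  rw [h1]
  exact (comS n).sub_mem ((le_sup_left : comI (Fin n) ℂ ≤ comS n) hgf)
    ((comS n).mul_mem_left _ (sl_pi_sub n f))

end Pool.Agent.CTR
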