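import Pool.Agent.CTR.St

/-!
# CTR, module J0: the terminal stage (helper45)
-/

set_option autoImplicit false
set_option linter.unusedVariables false

noncomputable section

namespace Pool.Agent.CTR

open Matrix

/-- reversal of the slots of the `P_c` -/
def j0_rho (q : ℕ) : Vr q ≃ Vr q where
  toFun v := (v.1, if v.1.1 = 0 then Fin.rev v.2 else v.2)
  invFun v := (v.1, if v.1.1 = 0 then Fin.rev v.2 else v.2)
  left_inv v := by
    refine Prod.ext rfl ?_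
    show (if v.1.1 = 0 then Fin.rev (if v.1.1 = 0 then Fin.rev v.2 else v.2) else
      (if v.1.1 = 0 then Fin.rev v.2 else v.2)) = v.2
    split_ifs with h
    · exact Fin.rev_rev _
    · rfl
  right_inv v := by
    refine Prod.ext rfl ?_
    show (if v.1.1 = 0 then Fin.rev (if v.1.1 = 0 then Fin.rev v.2 else v.2) else
      (if v.1.1 = 0 then Fin.rev v.2 else v.2)) = v.2
    split_ifs with h
    · exact Fin.rev_rev _
    · rfl

/-- reversal of the slots of the `P_c` -/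
def j0_F {q : ℕ} (μ : Vr q →₀ ℕ) : Vr q →₀ ℕ := Finsupp.equivMapDomain (j0_rho q) μ

theorem j0_F0 {q : ℕ} (μ : Vr q →₀ ℕ) (c : Fin 3) (s : Fin q) :
    j0_F μ ((0, c), s) = μ ((0, c), Fin.rev s) := by
  unfold j0_F
  rw [Finsupp.equivMapDomain_apply]
  rfl

theorem j0_F1 {q : ℕ} (μ : Vr q →₀ ℕ) (c : Fin 3) (s : Fin q) :
    j0_F μ ((1, c), s) = μ ((1, c), s) := by
  unfold j0_F
  rw [Finsupp.equivMapDomain_apply]
  rfl

theorem j0_FF {q : ℕ} (μ : Vr q →₀ ℕ) : j0_F (j0_F μ) = μ := by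
  ext v
  obtain ⟨⟨i, c⟩, s⟩ := v
  fin_cases i
  · show j0_F (j0_F μ) ((0, c), s) = μ ((0, c), s)
    rw [j0_F0, j0_F0, Fin.rev_rev]
  · show j0_F (j0_F μ) ((1, c), s) = μ ((1, c), s)
    rw [j0_F1, j0_F1]

theorem j0_bd {q : ℕ} (μ : Vr q →₀ ℕ) (i : Fin 2) : bd i (j0_F μ) = bd i μ := by
  unfold bd
  refine Finset.sum_congr rfl fun c _ => ?_
  fin_cases i
  · show ∑ s : Fin q, j0_F μ ((0, c), s) = ∑ s : Fin q, μ ((0, c), s)
    rw [← Equiv.sum_comp Fin.revPerm (fun s => μ ((0, c), s))]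
    exact Finset.sum_congr rfl fun s _ => j0_F0 μ c s
  · exact Finset.sum_congr rfl fun s _ => j0_F1 μ c s

theorem j0_span {σ K : Type} [CommRing K] (I : Ideal (MvPolynomial σ K))
    (S : Submodule K (MvPolynomial σ K)) (h : ∀ ν : σ →₀ ℕ, ∀ c : K,
      ∃ g ∈ S, MvPolynomial.monomial ν c - g ∈ I) (f : MvPolynomial σ K) : ∃ g ∈ S, f - g ∈ I := by
  induction f using MvPolynomial.induction_on' with
  | monomial ν c => exact h ν c
  | add f g ih1 ih2 =>
    obtain ⟨g1, hg1, h1⟩ := ih1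
    obtain ⟨g2, hg2, h2⟩ := ih2
    refine ⟨g1 + g2, S.add_mem hg1 hg2, ?_⟩
    have h3 := I.add_mem h1 h2
    have h4 : f + g - (g1 + g2) = f - g1 + (g - g2) := by ring
    rw [h4]
    exact h3

theorem thm_J0 : St_J0 := by
  classical
  intro K _ q o o₂ hoq ho
  refine ⟨j0_F, fun μ _ i => j0_bd μ i, ?_⟩
  refine j0_span _ _ ?_
  intro ν c
  -- the variables which are zero
  have hT0 : ∀ s : Fin q, (s : ℕ) < o → (MvPolynomial.X ((1, 0), s) : MvPolynomial (Vr q) K) ∈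
      IJT K q o o₂ (o - o₂) := fun s hs =>
    (le_sup_left : IJO K q o (q - o) ≤ IJT K q o o₂ (o - o₂)) ((le_sup_right : _ ≤ IJO K q o (q - o))
      (Ideal.subset_span ⟨s, Or.inl ⟨hs, rfl⟩⟩))
  have hP1 : ∀ s : Fin q, (s : ℕ) < q - o → (MvPolynomial.X ((0, 1), s) : MvPolynomial (Vr q) K) ∈
      IJT K q o o₂ (o - o₂) := fun s hs =>
    (le_sup_left : IJO K q o (q - o) ≤ IJT K q o o₂ (o - o₂)) ((le_sup_right : _ ≤ IJO K q o (q - o))
      (Ideal.subset_span ⟨s, Or.inr ⟨hs, Or.inl rfl⟩⟩))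
  have hT1 : ∀ s : Fin q, (s : ℕ) < o₂ → (MvPolynomial.X ((1, 1), s) : MvPolynomial (Vr q) K) ∈
      IJT K q o o₂ (o - o₂) := fun s hs =>
    (le_sup_right : _ ≤ IJT K q o o₂ (o - o₂)) (Ideal.subset_span ⟨s, Or.inl ⟨hs, rfl⟩⟩)
  have hP2 : ∀ s : Fin q, (s : ℕ) < q - o₂ → (MvPolynomial.X ((0, 2), s) : MvPolynomial (Vr q) K) ∈
      IJT K q o o₂ (o - o₂) := fun s hs =>
    (le_sup_right : _ ≤ IJT K q o o₂ (o - o₂)) (Ideal.subset_span ⟨s, Or.inr ⟨by omega, rfl⟩⟩)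
  have hzero : ∀ v : Vr q, (MvPolynomial.X v : MvPolynomial (Vr q) K) ∈ IJT K q o o₂ (o - o₂) →
      ν v ≠ 0 → MvPolynomial.monomial ν c ∈ IJT K q o o₂ (o - o₂) := by
    intro v hv hνv
    have h1 : MvPolynomial.monomial ν c =
        MvPolynomial.monomial (ν - Finsupp.single v 1) c * MvPolynomial.X v := by
      rw [MvPolynomial.X, MvPolynomial.monomial_mul, mul_one]
      congr 1
      rw [tsub_add_cancel_of_le]
      rw [Finsupp.single_le_iff]
      exact Nat.one_le_iff_ne_zero.2 hνv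
    rw [h1]
    exact Ideal.mul_mem_left _ _ hv
  by_cases hc : MvPolynomial.monomial ν c ∈ IJT K q o o₂ (o - o₂)
  · exact ⟨0, Submodule.zero_mem _, by rw [sub_zero]; exact hc⟩
  have z : ∀ v : Vr q, (MvPolynomial.X v : MvPolynomial (Vr q) K) ∈ IJT K q o o₂ (o - o₂) →
      ν v = 0 := by
    intro v hv
    by_contra h
    exact hc (hzero v hv h)
  refine ⟨MvPolynomial.monomial ν c, ?_, by rw [sub_self]; exact Submodule.zero_mem _⟩
  have h1 : MvPolynomial.monomial ν c = c • MvPolynomial.monomial ν (1 : K) := by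
    rw [MvPolynomial.smul_monomial, smul_eq_mul, mul_one]
  rw [h1]
  refine Submodule.smul_mem _ _ (Submodule.subset_span ⟨j0_F ν, ?_, by rw [j0_FF]⟩)
  have a0 : ∀ s : Fin q, (s : ℕ) < o → j0_F ν ((1, 0), s) = 0 := by
    intro s hs
    rw [j0_F1]
    exact z _ (hT0 s hs)
  have a1 : ∀ s : Fin q, o ≤ (s : ℕ) → j0_F ν ((0, 1), s) = 0 := by
    intro s hs
    rw [j0_F0]
    refine z _ (hP1 _ ?_)
    rw [Fin.val_rev]
    have := s.2
    omega
  have a2 : ∀ s : Fin q, o₂ ≤ (s : ℕ) → j0_F ν ((0, 2), s) = 0 := by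
    intro s hs
    rw [j0_F0]
    refine z _ (hP2 _ ?_)
    rw [Fin.val_rev]
    have := s.2
    omega
  have a3 : ∀ s : Fin q, (s : ℕ) < o₂ → j0_F ν ((1, 1), s) = 0 := by
    intro s hs
    rw [j0_F1]
    exact z _ (hT1 s hs)
  refine ⟨⟨?_, a0, ?_⟩, a3, ?_⟩
  · intro s c c' hcc
    have hcases : (c = 0 ∧ c' = 1) ∨ (c = 0 ∧ c' = 2) ∨ (c = 1 ∧ c' = 2) := by
      revert hcc
      fin_cases c <;> fin_cases c' <;> decide
    rcases hcases with ⟨rfl, rfl⟩ | ⟨rfl, rfl⟩ | ⟨rfl, rfl⟩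
    · by_cases hs : (s : ℕ) < o
      · exact Or.inl (a0 s hs)
      · exact Or.inr (a1 s (by omega))
    · by_cases hs : (s : ℕ) < o
      · exact Or.inl (a0 s hs)
      · exact Or.inr (a2 s (by omega))
    · by_cases hs : (s : ℕ) < o₂
      · exact Or.inl (a3 s hs)
      · exact Or.inr (a2 s (by omega))
  · intro s hs
    exact ⟨a1 s (by omega), a2 s (by omega)⟩
  · intro s hs
    exact a2 s (by omega)

end Pool.Agent.CTR
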