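import Pool.Agent.CTR.St

/-!
# CTR, module J2: the second recursion (helper45)
-/

set_option autoImplicit false
set_option linter.unusedVariables false

noncomputable section

namespace Pool.Agent.CTR

open Matrix

theorem j2_sw_apply {q : ℕ} (o s : Fin q) (μ : Vr q →₀ ℕ) (a : Fin 2 × Fin 3) (t : Fin q) :
    sw o s μ (a, t) = μ (a, Equiv.swap o s t) := by
  unfold sw
  rw [Finsupp.equivMapDomain_apply]
  congr 1

theorem j2_sw_sw {q : ℕ} (o s : Fin q) (μ : Vr q →₀ ℕ) : sw o s (sw o s μ) = μ := by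
  ext v
  obtain ⟨a, t⟩ := v
  rw [j2_sw_apply, j2_sw_apply, Equiv.swap_apply_self]

theorem j2_swap_lt {q : ℕ} (o s t : Fin q) (k : ℕ) (ho : (o : ℕ) < k) (hs : (s : ℕ) < k)
    (ht : (t : ℕ) < k) : ((Equiv.swap o s t : Fin q) : ℕ) < k := by
  by_cases h1 : t = o
  · rw [h1, Equiv.swap_apply_left]; exact hs
  · by_cases h2 : t = s
    · rw [h2, Equiv.swap_apply_right]; exact ho
    · rw [Equiv.swap_apply_of_ne_of_ne h1 h2]; exact ht

theorem j2_swap_of_lt {q : ℕ} (o s t : Fin q) (hos : (o : ℕ) ≤ s) (ht : (t : ℕ) < o) :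
    Equiv.swap o s t = t := by
  apply Equiv.swap_apply_of_ne_of_ne
  · intro h
    rw [h] at ht
    exact lt_irrefl _ ht
  · intro h
    rw [h] at ht
    exact absurd (lt_of_lt_of_le ht hos) (lt_irrefl _)

theorem j2_swap_of_gt {q : ℕ} (o s t : Fin q) (hos : (o : ℕ) ≤ s) (ht : (s : ℕ) < t) :
    Equiv.swap o s t = t := by
  apply Equiv.swap_apply_of_ne_of_ne
  · intro h
    rw [h] at ht
    exact absurd (lt_of_lt_of_le ht hos) (lt_irrefl _)
  · intro h
    rw [h] at ht
    exact lt_irrefl _ ht

theorem j2_lt_cases (c c' : Fin 3) (h : c < c') :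
    (c = 0 ∧ c' = 1) ∨ (c = 0 ∧ c' = 2) ∨ (c = 1 ∧ c' = 2) := by
  revert h
  fin_cases c <;> fin_cases c' <;> decide

/-- multiplication into an ideal: reduction to generators -/
theorem j2_mul_mem {R : Type} [CommRing R] (I : Ideal R) (v : R) (G : Set R)
    (h : ∀ g ∈ G, v * g ∈ I) : ∀ f ∈ Ideal.span G, v * f ∈ I := by
  intro f hf
  induction hf using Submodule.span_induction with
  | mem x hx => exact h x hx
  | zero => rw [mul_zero]; exact I.zero_mem
  | add x y _ _ hx hy => rw [mul_add]; exact I.add_mem hx hy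
  | smul a x _ hx =>
    rw [smul_eq_mul, mul_left_comm]
    exact I.mul_mem_left _ hx

/-- the only term of `gm` -/
theorem j2_term {K : Type} [CommRing K] {q : ℕ} (I : Ideal (MvPolynomial (Vr q) K)) (c c' : Fin 3)
    (i₀ j₀ m : Fin q) (hm : (i₀ : ℕ) + j₀ = m) (hg : gm K c c' m ∈ I)
    (hP : ∀ i : Fin q, (i : ℕ) < i₀ → (MvPolynomial.X ((0, c'), i) : MvPolynomial (Vr q) K) ∈ I)
    (hT : ∀ j : Fin q, (j : ℕ) < j₀ → (MvPolynomial.X ((1, c), j) : MvPolynomial (Vr q) K) ∈ I) :
    (MvPolynomial.X ((1, c), j₀) * MvPolynomial.X ((0, c'), i₀) : MvPolynomial (Vr q) K) ∈ I := by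
  classical
  have h1 : gm K c c' m - MvPolynomial.X ((0, c'), i₀) * MvPolynomial.X ((1, c), j₀) ∈ I := by
    unfold gm
    rw [← Finset.add_sum_erase _ _ (Finset.mem_univ i₀),
      ← Finset.add_sum_erase _ (fun j : Fin q => if (i₀ : ℕ) + j = m then
        (MvPolynomial.X ((0, c'), i₀) * MvPolynomial.X ((1, c), j) : MvPolynomial (Vr q) K) else 0)
        (Finset.mem_univ j₀), if_pos hm]
    have h2 : ∀ a b d : MvPolynomial (Vr q) K, a + b + d - a = b + d := fun a b d => by ring
    rw [h2]
    refine I.add_mem (I.sum_mem fun j hj => ?_) (I.sum_mem fun i hi => I.sum_mem fun j _ => ?_)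
    · split_ifs with h3
      · exfalso
        apply Finset.ne_of_mem_erase hj
        apply Fin.ext
        omega
      · exact I.zero_mem
    · split_ifs with h3
      · have h4 : (i : ℕ) ≠ i₀ := fun h => Finset.ne_of_mem_erase hi (Fin.ext h)
        by_cases h5 : (i : ℕ) < i₀
        · exact I.mul_mem_right _ (hP i h5)
        · exact I.mul_mem_left _ (hT j (by omega))
      · exact I.zero_mem
  have h2 := I.sub_mem hg h1
  rw [sub_sub_cancel] at h2
  rw [mul_comm]
  exact h2

theorem thm_J2 (hRec : St_Rec) (hJ0 : St_J0) : St_J2 := by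
  classical
  intro K _ q o
  have key : ∀ e o₂ β₂ : ℕ, o - o₂ - β₂ = e → o ≤ q → o₂ + β₂ ≤ o →
      ∃ F, Sp (IJT K q o o₂ β₂) (StdT (q := q) o o₂ β₂) F := by
    intro e
    induction e with
    | zero =>
      intro o₂ β₂ he hoq hle
      have h1 : β₂ = o - o₂ := by omega
      rw [h1]
      exact hJ0 K q o o₂ hoq (by omega)
    | succ e ih =>
      intro o₂ β₂ he hoq hle
      have hlt : o₂ + β₂ < o := by omega
      obtain ⟨F₁, hF₁⟩ := ih (o₂ + 1) β₂ (by omega) hoq (by omega)
      obtain ⟨F₂, hF₂⟩ := ih o₂ (β₂ + 1) (by omega) hoq (by omega)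
      obtain ⟨u, hu⟩ : ∃ u : Fin q, (u : ℕ) = o₂ := ⟨⟨o₂, by omega⟩, rfl⟩
      obtain ⟨s, hs⟩ : ∃ s : Fin q, (s : ℕ) = o - β₂ - 1 := ⟨⟨o - β₂ - 1, by omega⟩, rfl⟩
      have hus : (u : ℕ) ≤ s := by omega
      -- generators
      have gO : IJO K q o (q - o) ≤ IJT K q o o₂ β₂ := le_sup_left
      have gT1 : ∀ t : Fin q, (t : ℕ) < o₂ →
          (MvPolynomial.X ((1, 1), t) : MvPolynomial (Vr q) K) ∈ IJT K q o o₂ β₂ := fun t ht =>
        (le_sup_right : _ ≤ IJT K q o o₂ β₂) (Ideal.subset_span ⟨t, Or.inl ⟨ht, rfl⟩⟩)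
      have gP2 : ∀ t : Fin q, (t : ℕ) < q - o + β₂ →
          (MvPolynomial.X ((0, 2), t) : MvPolynomial (Vr q) K) ∈ IJT K q o o₂ β₂ := fun t ht =>
        (le_sup_right : _ ≤ IJT K q o o₂ β₂) (Ideal.subset_span ⟨t, Or.inr ⟨ht, rfl⟩⟩)
      have hv1 : (MvPolynomial.X ((1, 1), u) : MvPolynomial (Vr q) K) ∈
          IJT K q o o₂ β₂ ⊔ Ideal.span {MvPolynomial.X ((1, 1), u)} :=
        (le_sup_right : _ ≤ IJT K q o o₂ β₂ ⊔ Ideal.span {MvPolynomial.X ((1, 1), u)})
          (Ideal.subset_span rfl)
      have hI₁ : IJT K q o (o₂ + 1) β₂ ≤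
          IJT K q o o₂ β₂ ⊔ Ideal.span {MvPolynomial.X ((1, 1), u)} := by
        refine sup_le (le_trans gO le_sup_left) (Ideal.span_le.2 ?_)
        rintro f ⟨t, ⟨ht, rfl⟩ | ⟨ht, rfl⟩⟩
        · by_cases h1 : (t : ℕ) < o₂
          · exact (le_sup_left : IJT K q o o₂ β₂ ≤ _) (gT1 t h1)
          · have h2 : t = u := Fin.ext (by omega)
            rw [h2]
            exact hv1
        · exact (le_sup_left : IJT K q o o₂ β₂ ≤ _) (gP2 t ht)
      have hI₂ : ∀ f ∈ IJT K q o o₂ (β₂ + 1), MvPolynomial.X ((1, 1), u) * f ∈ IJT K q o o₂ β₂ := by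
        intro f hf
        obtain ⟨f₁, hf₁, f₂, hf₂, rfl⟩ := Submodule.mem_sup.1 hf
        rw [mul_add]
        refine Ideal.add_mem _ (Ideal.mul_mem_left _ _ (gO hf₁)) ?_
        refine j2_mul_mem _ _ _ ?_ f₂ hf₂
        rintro g ⟨t, ⟨ht, rfl⟩ | ⟨ht, rfl⟩⟩
        · exact Ideal.mul_mem_left _ _ (gT1 t ht)
        · by_cases h1 : (t : ℕ) < q - o + β₂
          · exact Ideal.mul_mem_left _ _ (gP2 t h1)
          · have h2 : (t : ℕ) = q - o + β₂ := by omega
            obtain ⟨m, hm⟩ : ∃ m : Fin q, (m : ℕ) = (t : ℕ) + u := ⟨⟨t + u, by omega⟩, rfl⟩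
            refine j2_term (IJT K q o o₂ β₂) 1 2 t u m hm.symm ?_ ?_ ?_
            · apply gO
              apply (le_sup_left : IJ K q ≤ IJO K q o (q - o))
              exact Ideal.subset_span ⟨1, 2, m, by decide, rfl⟩
            · intro i hi
              exact gP2 i (by omega)
            · intro j hj
              exact gT1 j (by omega)
      refine hRec K q 1 u s (IJT K q o o₂ β₂) (IJT K q o (o₂ + 1) β₂) (IJT K q o o₂ (β₂ + 1))
        (StdT o o₂ β₂) (StdT o (o₂ + 1) β₂) (StdT o o₂ (β₂ + 1)) F₁ F₂ hI₁ hI₂ ?_ ?_ ?_ ?_ hF₁ hF₂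
      · rintro μ ⟨h1, h2, h3⟩
        exact ⟨h1, fun t ht => h2 t (by omega), h3⟩
      · rintro μ ⟨h1, h2, h3⟩
        exact h2 u (by omega)
      · rintro μ ⟨⟨hStd, hT0, hP12⟩, hT1, hP2⟩
        by_cases hμ : μ ((1, 1), u) = 0
        · left
          refine ⟨⟨hStd, hT0, hP12⟩, ?_, hP2⟩
          intro t ht
          by_cases h1 : (t : ℕ) < o₂
          · exact hT1 t h1
          · have h2 : t = u := Fin.ext (by omega)
            rw [h2]
            exact hμ
        · right
          have hle1 : Finsupp.single ((1, 1), u) 1 ≤ μ := by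
            rw [Finsupp.single_le_iff]
            exact Nat.one_le_iff_ne_zero.2 hμ
          have hsub : ∀ v : Vr q, μ v = 0 →
              (μ - Finsupp.single ((1, 1), u) 1 : Vr q →₀ ℕ) v = 0 := by
            intro v hv
            rw [Finsupp.tsub_apply, hv, Nat.zero_sub]
          refine ⟨sw u s (μ - Finsupp.single ((1, 1), u) 1), ⟨⟨?_, ?_, ?_⟩, ?_, ?_⟩, ?_⟩
          · intro t c c' hcc
            rw [j2_sw_apply, j2_sw_apply]
            rcases hStd (Equiv.swap u s t) c c' hcc with h1 | h1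
            · exact Or.inl (hsub _ h1)
            · exact Or.inr (hsub _ h1)
          · intro t ht
            rw [j2_sw_apply]
            exact hsub _ (hT0 _ (j2_swap_lt u s t o (by omega) (by omega) ht))
          · intro t ht
            have h1 : Equiv.swap u s t = t := j2_swap_of_gt u s t hus (by omega)
            rw [j2_sw_apply, j2_sw_apply, h1]
            exact ⟨hsub _ (hP12 t ht).1, hsub _ (hP12 t ht).2⟩
          · intro t ht
            have h1 : Equiv.swap u s t = t := j2_swap_of_lt u s t hus (by omega)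
            rw [j2_sw_apply, h1]
            exact hsub _ (hT1 t ht)
          · intro t ht
            rw [j2_sw_apply]
            by_cases h1 : t = s
            · rw [h1, Equiv.swap_apply_right]
              apply hsub
              rcases hStd u 1 2 (by decide) with h2 | h2
              · exact absurd h2 hμ
              · exact h2
            · have h2 : (t : ℕ) ≠ s := fun h => h1 (Fin.ext h)
              rw [j2_swap_of_gt u s t hus (by omega)]
              exact hsub _ (hP2 t (by omega))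
          · rw [j2_sw_sw, tsub_add_cancel_of_le hle1]
      · rintro ν ⟨⟨hStd, hT0, hP12⟩, hT1, hP2⟩
        have hadd : ∀ v : Vr q, v ≠ ((1, 1), u) →
            (sw u s ν + Finsupp.single ((1, 1), u) 1 : Vr q →₀ ℕ) v = sw u s ν v := by
          intro v hv
          rw [Finsupp.add_apply, Finsupp.single_apply, if_neg (Ne.symm hv), add_zero]
        have hP : ∀ (c : Fin 3) (t : Fin q),
            (sw u s ν + Finsupp.single ((1, 1), u) 1 : Vr q →₀ ℕ) ((0, c), t) =
              ν ((0, c), Equiv.swap u s t) := by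
          intro c t
          rw [hadd _ (by
            intro h
            have h1 := congrArg (fun v : Vr q => v.1.1) h
            exact absurd h1 (by show (0 : Fin 2) ≠ 1; decide)), j2_sw_apply]
        have hT : ∀ (c : Fin 3) (t : Fin q), (c ≠ 1 ∨ t ≠ u) →
            (sw u s ν + Finsupp.single ((1, 1), u) 1 : Vr q →₀ ℕ) ((1, c), t) =
              ν ((1, c), Equiv.swap u s t) := by
          intro c t hct
          rw [hadd _ (by
            intro h
            have h1 : c = 1 := congrArg (fun v : Vr q => v.1.2) h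
            have h2 : t = u := congrArg (fun v : Vr q => v.2) h
            rcases hct with h3 | h3
            · exact h3 h1
            · exact h3 h2), j2_sw_apply]
        refine ⟨⟨?_, ?_, ?_⟩, ?_, ?_⟩
        · intro t c c' hcc
          by_cases h1 : c ≠ 1 ∨ t ≠ u
          · rw [hT c t h1, hP c' t]
            exact hStd _ c c' hcc
          · rw [not_or, not_not, not_not] at h1
            obtain ⟨rfl, rfl⟩ := h1
            right
            rcases j2_lt_cases 1 c' hcc with ⟨h2, -⟩ | ⟨h2, -⟩ | ⟨-, rfl⟩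
            · exact absurd h2 (by decide)
            · exact absurd h2 (by decide)
            · rw [hP, Equiv.swap_apply_left]
              exact hP2 s (by omega)
        · intro t ht
          rw [hT 0 t (Or.inl (by decide))]
          exact hT0 _ (j2_swap_lt u s t o (by omega) (by omega) ht)
        · intro t ht
          rw [hP, hP, j2_swap_of_gt u s t hus (by omega)]
          exact hP12 t ht
        · intro t ht
          rw [hT 1 t (Or.inr (by
            intro h
            rw [h] at ht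
            omega)), j2_swap_of_lt u s t hus (by omega)]
          exact hT1 t ht
        · intro t ht
          rw [hP, j2_swap_of_gt u s t hus (by omega)]
          exact hP2 t (by omega)
  intro o₂ β₂ hoq hle
  exact key _ o₂ β₂ rfl hoq hle

end Pool.Agent.CTR
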