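import Pool.Agent.CTR.St

/-!
# CTR Lif: monomials which span modulo leading forms span modulo the polynomials
-/

set_option autoImplicit false

noncomputable section

namespace Pool.Agent.CTR

open MvPolynomial

/-- the polynomials of weight less than `n` -/
def lif_L {K : Type} [CommRing K] {σ : Type} (w : σ → ℕ) (n : ℕ) : Submodule K (MvPolynomial σ K) where
  carrier := {h | ∀ a, n ≤ Finsupp.weight w a → coeff a h = 0}
  zero_mem' := fun a _ => coeff_zero a
  add_mem' := fun {x y} hx hy a ha => by rw [coeff_add, hx a ha, hy a ha, add_zero]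
  smul_mem' := fun c x hx a ha => by rw [coeff_smul, hx a ha, smul_zero]

theorem lif_mem {K : Type} [CommRing K] {σ : Type} (w : σ → ℕ) (n : ℕ) (h : MvPolynomial σ K) :
    h ∈ lif_L w n ↔ ∀ a, n ≤ Finsupp.weight w a → coeff a h = 0 := Iff.rfl

theorem lif_comp {K : Type} [CommRing K] {σ : Type} (w : σ → ℕ) (n : ℕ) (a : σ →₀ ℕ)
    (f : MvPolynomial σ K) : coeff a (weightedHomogeneousComponent w n f) =
      if Finsupp.weight w a = n then coeff a f else 0 := by
  classical
  exact coeff_weightedHomogeneousComponent n f a

theorem lif_top {K : Type} [CommRing K] {σ : Type} (w : σ → ℕ) (n : ℕ) (f : MvPolynomial σ K)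
    (hf : f ∈ lif_L w (n + 1)) : f - weightedHomogeneousComponent w n f ∈ lif_L w n := by
  intro a ha
  rw [coeff_sub, lif_comp]
  split_ifs with h
  · rw [sub_self]
  · rw [sub_zero]
    exact hf a (by omega)

theorem lif_idem {K : Type} [CommRing K] {σ : Type} (w : σ → ℕ) (n : ℕ) (f : MvPolynomial σ K) :
    weightedHomogeneousComponent w n (weightedHomogeneousComponent w n f) =
      weightedHomogeneousComponent w n f := by
  ext a
  rw [lif_comp, lif_comp]
  split_ifs <;> rfl

theorem lif_span {K : Type} [CommRing K] {σ : Type} (w : σ → ℕ) (n : ℕ) (B : Set (σ →₀ ℕ))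
    (b : MvPolynomial σ K)
    (hb : b ∈ Submodule.span K {h | ∃ μ ∈ B, h = MvPolynomial.monomial μ (1 : K)}) :
    weightedHomogeneousComponent w n b ∈
      Submodule.span K {h | ∃ μ ∈ B, h = MvPolynomial.monomial μ (1 : K)} := by
  induction hb using Submodule.span_induction with
  | mem x hx =>
    obtain ⟨μ, hμ, rfl⟩ := hx
    by_cases h : Finsupp.weight w μ = n
    · have : weightedHomogeneousComponent w n (monomial μ (1 : K)) = monomial μ 1 := by
        classical
        ext a
        rw [lif_comp, coeff_monomial]
        split_ifs with h1 h2 h2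
        · rfl
        · rfl
        · exact absurd (h2 ▸ h) h1
        · rfl
      rw [this]
      exact Submodule.subset_span ⟨μ, hμ, rfl⟩
    · have : weightedHomogeneousComponent w n (monomial μ (1 : K)) = 0 := by
        classical
        ext a
        rw [lif_comp, coeff_monomial, coeff_zero]
        split_ifs with h1 h2
        · exact absurd (h2 ▸ h1) h
        · rfl
        · rfl
      rw [this]
      exact Submodule.zero_mem _
  | zero =>
    rw [map_zero]
    exact Submodule.zero_mem _
  | add x y _ _ hx hy =>
    rw [map_add]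
    exact Submodule.add_mem _ hx hy
  | smul c x _ hx =>
    rw [map_smul]
    exact Submodule.smul_mem _ c hx

theorem lif_mul {K : Type} [CommRing K] {σ : Type} (w : σ → ℕ) {κ : Type}
    (g r : κ → MvPolynomial σ K) (N : κ → ℕ)
    (hg : ∀ i, MvPolynomial.IsWeightedHomogeneous w (g i) (N i))
    (hr : ∀ i, ∀ a ∈ (r i - g i).support, Finsupp.weight w a < N i) (n : ℕ) (i : κ)
    (a : MvPolynomial σ K) : ∃ R ∈ Ideal.span (Set.range r),
      weightedHomogeneousComponent w n (a * g i) - R ∈ lif_L w n := by
  classical
  induction a using MvPolynomial.induction_on' with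
  | monomial d c =>
    by_cases h : Finsupp.weight w d + N i = n
    · refine ⟨monomial d c * r i, Ideal.mul_mem_left _ _ (Ideal.subset_span ⟨i, rfl⟩), ?_⟩
      have h1 : weightedHomogeneousComponent w n (monomial d c * g i) = monomial d c * g i := by
        ext a
        rw [lif_comp, coeff_monomial_mul']
        split_ifs with h1 h2 h2
        · rfl
        · rfl
        · symm
          by_contra h3
          have h4 := hg i (right_ne_zero_of_mul h3)
          apply h1
          rw [← h, ← h4, ← map_add, add_tsub_cancel_of_le h2]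
        · rfl
      rw [h1, ← mul_sub]
      intro a ha
      rw [coeff_monomial_mul']
      split_ifs with h2
      · have h3 : coeff (a - d) (g i - r i) = 0 := by
          by_contra h4
          have h5 : a - d ∈ (r i - g i).support := by
            rw [mem_support_iff]
            intro h6
            apply h4
            rw [← neg_sub, coeff_neg, h6, neg_zero]
          have h6 := hr i _ h5
          have h7 : Finsupp.weight w a = Finsupp.weight w d + Finsupp.weight w (a - d) := by
            rw [← map_add, add_tsub_cancel_of_le h2]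
          omega
        rw [h3, mul_zero]
      · rfl
    · refine ⟨0, Ideal.zero_mem _, ?_⟩
      have h1 : weightedHomogeneousComponent w n (monomial d c * g i) = 0 := by
        ext a
        rw [lif_comp, coeff_monomial_mul', coeff_zero]
        split_ifs with h1 h2
        · by_contra h3
          have h4 := hg i (right_ne_zero_of_mul h3)
          apply h
          rw [← h1, ← h4, ← map_add, add_tsub_cancel_of_le h2]
        · rfl
        · rfl
      rw [h1, sub_zero]
      exact Submodule.zero_mem _
  | add p q hp hq =>
    obtain ⟨R1, r1, s1⟩ := hp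
    obtain ⟨R2, r2, s2⟩ := hq
    refine ⟨R1 + R2, Ideal.add_mem _ r1 r2, ?_⟩
    rw [add_mul, map_add, add_sub_add_comm]
    exact Submodule.add_mem _ s1 s2

theorem lif_ideal {K : Type} [CommRing K] {σ : Type} (w : σ → ℕ) {κ : Type}
    (g r : κ → MvPolynomial σ K) (N : κ → ℕ)
    (hg : ∀ i, MvPolynomial.IsWeightedHomogeneous w (g i) (N i))
    (hr : ∀ i, ∀ a ∈ (r i - g i).support, Finsupp.weight w a < N i) (n : ℕ)
    (h : MvPolynomial σ K) (hh : h ∈ Ideal.span (Set.range g)) :
    ∃ R ∈ Ideal.span (Set.range r), weightedHomogeneousComponent w n h - R ∈ lif_L w n := by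
  obtain ⟨c, rfl⟩ := Finsupp.mem_ideal_span_range_iff_exists_finsupp.1 hh
  choose R hR1 hR2 using lif_mul w g r N hg hr n
  refine ⟨c.sum fun i a => R i a, Ideal.sum_mem _ fun i _ => hR1 i (c i), ?_⟩
  unfold Finsupp.sum
  rw [map_sum, ← Finset.sum_sub_distrib]
  exact Submodule.sum_mem _ fun i _ => hR2 i (c i)

theorem thm_Lif : St_Lif := by
  intro K _ σ w κ g r N B hg hr hB
  have key : ∀ n : ℕ, ∀ f ∈ lif_L (K := K) w n,
      ∃ b ∈ Submodule.span K {h | ∃ μ ∈ B, h = MvPolynomial.monomial μ (1 : K)},
        f - b ∈ Ideal.span (Set.range r) := by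
    intro n
    induction n with
    | zero =>
      intro f hf
      refine ⟨0, Submodule.zero_mem _, ?_⟩
      have : f = 0 := by
        ext a
        rw [coeff_zero]
        exact hf a (Nat.zero_le _)
      rw [this, sub_zero]
      exact Ideal.zero_mem _
    | succ n ih =>
      intro f hf
      obtain ⟨b0, hb0, hf0⟩ := hB (weightedHomogeneousComponent w n f)
      obtain ⟨R, hR, hR2⟩ := lif_ideal w g r N hg hr n _ hf0
      rw [map_sub, lif_idem] at hR2
      have h1 := Submodule.add_mem _ (lif_top w n f hf) hR2
      obtain ⟨b1, hb1, hf1⟩ := ih _ h1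
      refine ⟨weightedHomogeneousComponent w n b0 + b1,
        Submodule.add_mem _ (lif_span w n B b0 hb0) hb1, ?_⟩
      have h2 := Ideal.add_mem _ hf1 hR
      have h3 : f - (weightedHomogeneousComponent w n b0 + b1) =
          f - weightedHomogeneousComponent w n f + (weightedHomogeneousComponent w n f -
            weightedHomogeneousComponent w n b0 - R) - b1 + R := by ring
      rw [h3]
      exact h2
  intro f
  obtain ⟨n, hn⟩ : ∃ n, f ∈ lif_L w n := by
    refine ⟨f.support.sup (Finsupp.weight w) + 1, fun a ha => ?_⟩
    by_contra h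
    have h1 := Finset.le_sup (f := Finsupp.weight w) (mem_support_iff.2 h)
    omega
  exact key n f hn

end Pool.Agent.CTR
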