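import Mathlib
import Pool.Agent.CTR.St

/-!
# CTR: Lin. A matrix with eigenspaces of dimension at most two is generated by two vectors
-/

set_option autoImplicit false

noncomputable section

namespace Pool.Agent.CTR

open Matrix Module

section cyc

variable {k W : Type} [Field k] [AddCommGroup W] [Module k W]

/-- the subspace spanned by the `T^i v` -/
def lin_C (T : W →ₗ[k] W) (v : W) : Submodule k W :=
  Submodule.span k (Set.range fun i : ℕ => (T ^ i) v)

theorem lin_C_inv (T : W →ₗ[k] W) (v : W) : lin_C T v ≤ (lin_C T v).comap T := by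
  unfold lin_C
  rw [Submodule.span_le]
  rintro _ ⟨i, rfl⟩
  refine Submodule.subset_span ⟨i + 1, ?_⟩
  show (T ^ (i + 1)) v = T ((T ^ i) v)
  rw [pow_succ']
  rfl

theorem lin_C_mem (T : W →ₗ[k] W) (v : W) : v ∈ lin_C T v :=
  Submodule.subset_span ⟨0, rfl⟩

theorem lin_pow_mem {T : W →ₗ[k] W} {v : W} {N : Submodule k W} (hN : N ≤ N.comap T) (hv : v ∈ N)
    (i : ℕ) : (T ^ i) v ∈ N := by
  induction i with
  | zero => exact hv
  | succ i ih =>
    have h : (T ^ (i + 1)) v = T ((T ^ i) v) := by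
      rw [pow_succ']
      rfl
    rw [h]
    exact hN ih

theorem lin_C_le {T : W →ₗ[k] W} {v : W} {N : Submodule k W} (hN : N ≤ N.comap T) (hv : v ∈ N) :
    lin_C T v ≤ N := by
  unfold lin_C
  rw [Submodule.span_le]
  rintro _ ⟨i, rfl⟩
  exact lin_pow_mem hN hv i

/-- a cyclic vector of a finite-dimensional space: the first powers are a basis -/
theorem lin_cyc [FiniteDimensional k W] (T : W →ₗ[k] W) (v : W) (h : lin_C T v = ⊤) :
    LinearIndependent k (fun i : Fin (finrank k W) => (T ^ (i : ℕ)) v) := by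
  classical
  have step : ∀ m : ℕ, (∀ j < m, (T ^ j) v ∉ Submodule.span k (Set.range fun i : Fin j => (T ^ (i : ℕ)) v)) →
      LinearIndependent k (fun i : Fin m => (T ^ (i : ℕ)) v) := by
    intro m
    induction m with
    | zero =>
      intro _
      exact linearIndependent_empty_type
    | succ m ih =>
      intro hm
      rw [linearIndependent_finSucc']
      refine ⟨ih fun j hj => hm j (by omega), ?_⟩
      exact hm m (by omega)
  have hex : ∃ m : ℕ, (T ^ m) v ∈ Submodule.span k (Set.range fun i : Fin m => (T ^ (i : ℕ)) v) := by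
    by_contra hno
    push Not at hno
    have h1 := (step (finrank k W + 1) fun j _ => hno j).fintype_card_le_finrank
    rw [Fintype.card_fin] at h1
    omega
  have hm := Nat.find_spec hex
  have hmin : ∀ j < Nat.find hex, (T ^ j) v ∉ Submodule.span k (Set.range fun i : Fin j => (T ^ (i : ℕ)) v) :=
    fun j hj => Nat.find_min hex hj
  generalize Nat.find hex = m at hm hmin
  have hli := step m hmin
  have hinv : Submodule.span k (Set.range fun i : Fin m => (T ^ (i : ℕ)) v) ≤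
      (Submodule.span k (Set.range fun i : Fin m => (T ^ (i : ℕ)) v)).comap T := by
    rw [Submodule.span_le]
    rintro _ ⟨i, rfl⟩
    show T ((T ^ (i : ℕ)) v) ∈ Submodule.span k (Set.range fun i : Fin m => (T ^ (i : ℕ)) v)
    have h1 : T ((T ^ (i : ℕ)) v) = (T ^ ((i : ℕ) + 1)) v := by
      rw [pow_succ']
      rfl
    rw [h1]
    rcases Nat.lt_or_ge ((i : ℕ) + 1) m with h2 | h2
    · exact Submodule.subset_span ⟨⟨(i : ℕ) + 1, h2⟩, rfl⟩
    · have h3 : (i : ℕ) + 1 = m := by have := i.2; omega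
      rw [h3]
      exact hm
  have hv : v ∈ Submodule.span k (Set.range fun i : Fin m => (T ^ (i : ℕ)) v) := by
    rcases Nat.eq_zero_or_pos m with h0 | h0
    · subst h0
      simpa using hm
    · exact Submodule.subset_span ⟨⟨0, h0⟩, rfl⟩
  have htop : Submodule.span k (Set.range fun i : Fin m => (T ^ (i : ℕ)) v) = ⊤ := by
    rw [eq_top_iff, ← h]
    exact lin_C_le hinv hv
  have hfr := finrank_span_eq_card hli
  rw [htop, finrank_top, Fintype.card_fin] at hfr
  rw [hfr]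
  exact hli

theorem lin_restrict_pow (T : W →ₗ[k] W) (N : Submodule k W) (hN : ∀ x ∈ N, T x ∈ N) (v : N) (i : ℕ) :
    (((T.restrict hN) ^ i) v : W) = (T ^ i) (v : W) := by
  induction i with
  | zero => rfl
  | succ i ih =>
    have h1 : ((T.restrict hN) ^ (i + 1)) v = (T.restrict hN) (((T.restrict hN) ^ i) v) := by
      rw [pow_succ']
      rfl
    have h2 : (T ^ (i + 1)) (v : W) = T ((T ^ i) (v : W)) := by
      rw [pow_succ']
      rfl
    rw [h1, h2, ← ih]
    rfl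

theorem lin_mapQ_pow (T : W →ₗ[k] W) (N : Submodule k W) (hN : N ≤ N.comap T) (v : W) (i : ℕ) :
    ((N.mapQ N T hN) ^ i) (N.mkQ v) = N.mkQ ((T ^ i) v) := by
  induction i with
  | zero => rfl
  | succ i ih =>
    have h1 : ((N.mapQ N T hN) ^ (i + 1)) (N.mkQ v) = (N.mapQ N T hN) (((N.mapQ N T hN) ^ i) (N.mkQ v)) := by
      rw [pow_succ']
      rfl
    have h2 : (T ^ (i + 1)) v = T ((T ^ i) v) := by
      rw [pow_succ']
      rfl
    rw [h1, h2, ih]
    rfl

/-- two generators -/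
theorem lin_two [FiniteDimensional k W] (T : W →ₗ[k] W) (v₁ v₂ : W)
    (h : lin_C T v₁ ⊔ lin_C T v₂ = ⊤) :
    LinearIndependent k (Sum.elim (fun i : Fin (finrank k (lin_C T v₁)) => (T ^ (i : ℕ)) v₁)
      (fun i : Fin (finrank k (W ⧸ lin_C T v₁)) => (T ^ (i : ℕ)) v₂)) := by
  set N := lin_C T v₁ with hNdef
  have hN : N ≤ N.comap T := lin_C_inv T v₁
  have hN' : ∀ x ∈ N, T x ∈ N := fun x hx => hN hx
  have hv₁ : v₁ ∈ N := lin_C_mem T v₁
  have h1 : LinearIndependent k (fun i : Fin (finrank k N) => ((T.restrict hN') ^ (i : ℕ)) ⟨v₁, hv₁⟩) := by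
    apply lin_cyc
    rw [eq_top_iff]
    rintro ⟨x, hx⟩ _
    have h2 : N ≤ (lin_C (T.restrict hN') ⟨v₁, hv₁⟩).map N.subtype := by
      refine Submodule.span_le.2 ?_
      rintro _ ⟨i, rfl⟩
      refine ⟨((T.restrict hN') ^ i) ⟨v₁, hv₁⟩, Submodule.subset_span ⟨i, rfl⟩, ?_⟩
      exact lin_restrict_pow T N hN' ⟨v₁, hv₁⟩ i
    obtain ⟨y, hy, hyx⟩ := h2 hx
    have h3 : y = ⟨x, hx⟩ := Subtype.ext hyx
    rw [← h3]
    exact hy
  have h4 : LinearIndependent k (fun i : Fin (finrank k (W ⧸ N)) => ((N.mapQ N T hN) ^ (i : ℕ)) (N.mkQ v₂)) := by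
    apply lin_cyc
    rw [eq_top_iff]
    have h5 : (lin_C T v₂).map N.mkQ ≤ lin_C (N.mapQ N T hN) (N.mkQ v₂) := by
      unfold lin_C
      rw [Submodule.map_span, Submodule.span_le]
      rintro _ ⟨_, ⟨i, rfl⟩, rfl⟩
      refine Submodule.subset_span ⟨i, ?_⟩
      exact lin_mapQ_pow T N hN v₂ i
    refine le_trans ?_ h5
    have h6 : (⊤ : Submodule k (W ⧸ N)) = (N ⊔ lin_C T v₂).map N.mkQ := by
      rw [h, Submodule.map_top, Submodule.range_mkQ]
    rw [h6, Submodule.map_sup, sup_le_iff]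
    refine ⟨?_, le_rfl⟩
    rw [Submodule.map_le_iff_le_comap]
    intro x hx
    have h7 : N.mkQ x = 0 := (Submodule.Quotient.mk_eq_zero N).2 hx
    rw [Submodule.mem_comap, h7]
    exact Submodule.zero_mem _
  have h8 := h1.sumElim_of_quotient (fun i : Fin (finrank k (W ⧸ N)) => (T ^ (i : ℕ)) v₂) (by
    have h9 : (Submodule.Quotient.mk (p := N) ∘ fun i : Fin (finrank k (W ⧸ N)) => (T ^ (i : ℕ)) v₂) =
        fun i : Fin (finrank k (W ⧸ N)) => ((N.mapQ N T hN) ^ (i : ℕ)) (N.mkQ v₂) := by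
      funext i
      exact (lin_mapQ_pow T N hN v₂ i).symm
    rw [h9]
    exact h4)
  have h10 : (fun i : Fin (finrank k N) => (T ^ (i : ℕ)) v₁) =
      fun i : Fin (finrank k N) => ((((T.restrict hN') ^ (i : ℕ)) ⟨v₁, hv₁⟩ : N) : W) := by
    funext i
    exact (lin_restrict_pow T N hN' ⟨v₁, hv₁⟩ i).symm
  rw [h10]
  exact h8

theorem lin_gen [IsAlgClosed k] [FiniteDimensional k W] (T : W →ₗ[k] W)
    (hT : ∀ μ : k, finrank k W ≤ finrank k (LinearMap.range (T - μ • LinearMap.id)) + 2) :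
    ∃ v₁ v₂ : W, lin_C T v₁ ⊔ lin_C T v₂ = ⊤ := by
  classical
  have hinfk : Infinite k := IsAlgClosed.instInfinite
  have hEfin : {μ : k | Module.End.HasEigenvalue T μ}.Finite := Module.End.finite_hasEigenvalue T
  let E : Finset k := hEfin.toFinset
  have hE : ∀ μ : k, LinearMap.range (T - μ • LinearMap.id) ≠ ⊤ → μ ∈ E := by
    intro μ hμ
    rw [Set.Finite.mem_toFinset]
    show Module.End.HasEigenvalue T μ
    rw [Module.End.hasEigenvalue_iff]
    intro hbot
    apply hμ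
    rw [LinearMap.range_eq_top, ← LinearMap.injective_iff_surjective, ← LinearMap.ker_eq_bot]
    rw [Module.End.eigenspace_def] at hbot
    exact hbot
  obtain ⟨v₁, hv₁⟩ : ∃ v₁ : W, ∀ μ : k, LinearMap.range (T - μ • LinearMap.id) ≠ ⊤ →
      v₁ ∉ LinearMap.range (T - μ • LinearMap.id) := by
    let S : Finset (Subspace k W) :=
      (E.image fun μ => LinearMap.range (T - μ • LinearMap.id)).filter (fun R => R ≠ ⊤)
    have hS : (⊤ : Subspace k W) ∉ S := by
      intro h
      exact (Finset.mem_filter.1 h).2 rfl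
    have h1 := Subspace.biUnion_ne_univ_of_top_notMem hS
    obtain ⟨v, hv⟩ := (Set.ne_univ_iff_exists_notMem _).1 h1
    refine ⟨v, fun μ hμ hmem => hv ?_⟩
    rw [Set.mem_iUnion₂]
    exact ⟨_, Finset.mem_filter.2 ⟨Finset.mem_image.2 ⟨μ, hE μ hμ, rfl⟩, hμ⟩, hmem⟩
  obtain ⟨v₂, hv₂⟩ : ∃ v₂ : W, ∀ μ : k,
      LinearMap.range (T - μ • LinearMap.id) ⊔ Submodule.span k {v₁} ≠ ⊤ →
      v₂ ∉ LinearMap.range (T - μ • LinearMap.id) ⊔ Submodule.span k {v₁} := by
    let S : Finset (Subspace k W) :=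
      (E.image fun μ => LinearMap.range (T - μ • LinearMap.id) ⊔ Submodule.span k {v₁}).filter
        (fun R => R ≠ ⊤)
    have hS : (⊤ : Subspace k W) ∉ S := by
      intro h
      exact (Finset.mem_filter.1 h).2 rfl
    have h1 := Subspace.biUnion_ne_univ_of_top_notMem hS
    obtain ⟨v, hv⟩ := (Set.ne_univ_iff_exists_notMem _).1 h1
    refine ⟨v, fun μ hμ hmem => hv ?_⟩
    rw [Set.mem_iUnion₂]
    refine ⟨_, Finset.mem_filter.2 ⟨Finset.mem_image.2 ⟨μ, hE μ ?_, rfl⟩, hμ⟩, hmem⟩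
    intro htop
    apply hμ
    rw [htop, top_sup_eq]
  have hsum : ∀ μ : k, LinearMap.range (T - μ • LinearMap.id) ⊔ Submodule.span k {v₁} ⊔
      Submodule.span k {v₂} = ⊤ := by
    intro μ
    by_cases h1 : LinearMap.range (T - μ • LinearMap.id) = ⊤
    · rw [h1, top_sup_eq, top_sup_eq]
    by_cases h2 : LinearMap.range (T - μ • LinearMap.id) ⊔ Submodule.span k {v₁} = ⊤
    · rw [h2, top_sup_eq]
    have h3 : LinearMap.range (T - μ • LinearMap.id) <
        LinearMap.range (T - μ • LinearMap.id) ⊔ Submodule.span k {v₁} := by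
      refine lt_of_le_of_ne le_sup_left fun heq => hv₁ μ h1 ?_
      rw [heq]
      exact (le_sup_right : Submodule.span k {v₁} ≤ _) (Submodule.mem_span_singleton_self v₁)
    have h4 : LinearMap.range (T - μ • LinearMap.id) ⊔ Submodule.span k {v₁} <
        LinearMap.range (T - μ • LinearMap.id) ⊔ Submodule.span k {v₁} ⊔ Submodule.span k {v₂} := by
      refine lt_of_le_of_ne le_sup_left fun heq => hv₂ μ h2 ?_
      rw [heq]
      exact (le_sup_right : Submodule.span k {v₂} ≤ _) (Submodule.mem_span_singleton_self v₂)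
    have h5 := Submodule.finrank_lt_finrank_of_lt h3
    have h6 := Submodule.finrank_lt_finrank_of_lt h4
    have h7 := hT μ
    apply Submodule.eq_top_of_finrank_eq
    have h8 := Submodule.finrank_le (LinearMap.range (T - μ • LinearMap.id) ⊔ Submodule.span k {v₁} ⊔
      Submodule.span k {v₂})
    omega
  refine ⟨v₁, v₂, ?_⟩
  by_contra hne
  set N := lin_C T v₁ ⊔ lin_C T v₂ with hNdef
  have hN : N ≤ N.comap T := by
    rw [hNdef, sup_le_iff]
    exact ⟨(lin_C_inv T v₁).trans (Submodule.comap_mono le_sup_left),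
      (lin_C_inv T v₂).trans (Submodule.comap_mono le_sup_right)⟩
  have hnt : Nontrivial (W ⧸ N) := Submodule.Quotient.nontrivial_iff.2 hne
  obtain ⟨μ, hμ⟩ := Module.End.exists_eigenvalue (N.mapQ N T hN)
  have hinj : ¬ Function.Injective (N.mapQ N T hN - μ • (LinearMap.id : (W ⧸ N) →ₗ[k] (W ⧸ N))) := by
    intro hi
    rw [Module.End.hasEigenvalue_iff] at hμ
    apply hμ
    rw [Module.End.eigenspace_def]
    exact LinearMap.ker_eq_bot.2 hi
  apply hinj
  rw [LinearMap.injective_iff_surjective]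
  intro w
  obtain ⟨w, rfl⟩ := N.mkQ_surjective w
  have hw : w ∈ LinearMap.range (T - μ • LinearMap.id) ⊔ Submodule.span k {v₁} ⊔
      Submodule.span k {v₂} := by
    rw [hsum μ]
    trivial
  obtain ⟨y, hy, z, hz, rfl⟩ := Submodule.mem_sup.1 hw
  obtain ⟨r, ⟨u, rfl⟩, z', hz', rfl⟩ := Submodule.mem_sup.1 hy
  have hz1 : z ∈ N := by
    have h1 : Submodule.span k {v₂} ≤ N := by
      rw [Submodule.span_singleton_le_iff_mem]
      exact (le_sup_right : lin_C T v₂ ≤ N) (lin_C_mem T v₂)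
    exact h1 hz
  have hz2 : z' ∈ N := by
    have h1 : Submodule.span k {v₁} ≤ N := by
      rw [Submodule.span_singleton_le_iff_mem]
      exact (le_sup_left : lin_C T v₁ ≤ N) (lin_C_mem T v₁)
    exact h1 hz'
  refine ⟨N.mkQ u, ?_⟩
  have h1 : N.mkQ z = 0 := (Submodule.Quotient.mk_eq_zero N).2 hz1
  have h2 : N.mkQ z' = 0 := (Submodule.Quotient.mk_eq_zero N).2 hz2
  rw [map_add, map_add, h1, h2, add_zero, add_zero]
  rfl

theorem lin_top [IsAlgClosed k] [FiniteDimensional k W] (T : W →ₗ[k] W) (hn : 2 ≤ finrank k W) (v : W)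
    (h : lin_C T v = ⊤) : ∃ w₁ w₂ : W, lin_C T w₁ ⊔ lin_C T w₂ = ⊤ ∧
      finrank k (lin_C T w₁) < finrank k W ∧ finrank k W ≤ 2 * finrank k (lin_C T w₁) := by
  have hnt : Nontrivial W := by
    apply Module.nontrivial_of_finrank_pos (R := k)
    omega
  obtain ⟨μ, hμ⟩ := Module.End.exists_eigenvalue T
  let w₁ : W := (T - μ • (LinearMap.id : W →ₗ[k] W)) v
  have hw₁ : w₁ = T v - μ • v := rfl
  have h1 : lin_C T w₁ ≤ LinearMap.range (T - μ • LinearMap.id) := by
    apply lin_C_le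
    · rintro _ ⟨u, rfl⟩
      refine ⟨T u, ?_⟩
      show T (T u) - μ • T u = T (T u - μ • u)
      rw [map_sub, map_smul]
    · exact ⟨v, rfl⟩
  have h2 : LinearMap.range (T - μ • LinearMap.id) ≠ ⊤ := by
    intro htop
    rw [LinearMap.range_eq_top, ← LinearMap.injective_iff_surjective, ← LinearMap.ker_eq_bot] at htop
    rw [Module.End.hasEigenvalue_iff] at hμ
    apply hμ
    rw [Module.End.eigenspace_def]
    exact htop
  have h3 : finrank k (lin_C T w₁) < finrank k W := by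
    have h4 : lin_C T w₁ < ⊤ := lt_of_le_of_lt h1 (lt_top_iff_ne_top.2 h2)
    have h5 := Submodule.finrank_lt_finrank_of_lt h4
    rwa [finrank_top] at h5
  have h6 : lin_C T w₁ ⊔ Submodule.span k {v} = ⊤ := by
    rw [eq_top_iff, ← h]
    apply lin_C_le
    · rw [sup_le_iff]
      refine ⟨(lin_C_inv T w₁).trans (Submodule.comap_mono le_sup_left), ?_⟩
      rw [Submodule.span_singleton_le_iff_mem, Submodule.mem_comap]
      have h7 : T v = w₁ + μ • v := by
        rw [hw₁, sub_add_cancel]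
      rw [h7]
      exact Submodule.add_mem_sup (lin_C_mem T w₁)
        (Submodule.smul_mem _ _ (Submodule.mem_span_singleton_self v))
    · exact (le_sup_right : Submodule.span k {v} ≤ _) (Submodule.mem_span_singleton_self v)
  have h8 : finrank k W ≤ finrank k (lin_C T w₁) + 1 := by
    have h9 := Submodule.finrank_add_le_finrank_add_finrank (lin_C T w₁) (Submodule.span k {v})
    rw [h6, finrank_top] at h9
    have h10 : finrank k (Submodule.span k {v}) ≤ 1 := by
      have h11 := finrank_span_le_card (R := k) ({v} : Set W)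
      simpa using h11
    omega
  refine ⟨w₁, v, ?_, h3, by omega⟩
  rw [h, sup_top_eq]

theorem lin_adj [IsAlgClosed k] [FiniteDimensional k W] (T : W →ₗ[k] W) (hn : 2 ≤ finrank k W)
    (hT : ∀ μ : k, finrank k W ≤ finrank k (LinearMap.range (T - μ • LinearMap.id)) + 2) :
    ∃ w₁ w₂ : W, lin_C T w₁ ⊔ lin_C T w₂ = ⊤ ∧
      finrank k (lin_C T w₁) < finrank k W ∧ finrank k W ≤ 2 * finrank k (lin_C T w₁) := by
  obtain ⟨v₁, v₂, h⟩ := lin_gen T hT
  by_cases h1 : lin_C T v₁ = ⊤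
  · exact lin_top T hn v₁ h1
  by_cases h2 : lin_C T v₂ = ⊤
  · exact lin_top T hn v₂ h2
  have h3 : finrank k (lin_C T v₁) < finrank k W := Submodule.finrank_lt h1
  have h4 : finrank k (lin_C T v₂) < finrank k W := Submodule.finrank_lt h2
  have h5 := Submodule.finrank_add_le_finrank_add_finrank (lin_C T v₁) (lin_C T v₂)
  rw [h, finrank_top] at h5
  rcases le_total (finrank k W) (2 * finrank k (lin_C T v₁)) with h6 | h6
  · exact ⟨v₁, v₂, h, h3, h6⟩
  · refine ⟨v₂, v₁, ?_, h4, by omega⟩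
    rw [sup_comm]
    exact h

end cyc

/-- the matrix of the two chains -/
theorem lin_mat {k : Type} [Field k] {n p q : ℕ} [NeZero p] [NeZero q] (A : Matrix (Fin n) (Fin n) k)
    (e : Fin n ≃ Fin p ⊕ Fin q) (v₁ v₂ : Fin n → k)
    (h : LinearIndependent k (Sum.elim (fun i : Fin p => (A ^ (i : ℕ)) *ᵥ v₁)
      (fun i : Fin q => (A ^ (i : ℕ)) *ᵥ v₂))) :
    ∃ Q : (Matrix (Fin n) (Fin n) k)ˣ,
      hm (Matrix.reindex e e ((Q⁻¹ : (Matrix (Fin n) (Fin n) k)ˣ).val * A * Q.val)) = 1 := by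
  set F : Fin p ⊕ Fin q → Fin n → k := Sum.elim (fun i : Fin p => (A ^ (i : ℕ)) *ᵥ v₁)
      (fun i : Fin q => (A ^ (i : ℕ)) *ᵥ v₂) with hF
  let Q₀ : Matrix (Fin n) (Fin n) k := fun i j => F (e j) i
  have hQ₀ : IsUnit Q₀ := by
    rw [← Matrix.linearIndependent_cols_iff_isUnit]
    exact h.comp e e.injective
  obtain ⟨Q, hQ⟩ := hQ₀
  refine ⟨Q, ?_⟩
  have hcol : ∀ s : Fin p ⊕ Fin q, Q.val *ᵥ Pi.single (e.symm s) 1 = F s := by
    intro s
    rw [hQ]
    ext i
    rw [Matrix.mulVec_single_one]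
    show F (e (e.symm s)) i = F s i
    rw [e.apply_symm_apply]
  have hcol' : ∀ s : Fin p ⊕ Fin q, (Q⁻¹ : (Matrix (Fin n) (Fin n) k)ˣ).val *ᵥ F s =
      Pi.single (e.symm s) 1 := by
    intro s
    rw [← hcol s, Matrix.mulVec_mulVec, Q.inv_mul, Matrix.one_mulVec]
  have hpow : ∀ j : ℕ, (Matrix.reindex e e ((Q⁻¹ : (Matrix (Fin n) (Fin n) k)ˣ).val * A * Q.val)) ^ j =
      Matrix.reindex e e ((Q⁻¹ : (Matrix (Fin n) (Fin n) k)ˣ).val * A ^ j * Q.val) := by
    intro j
    have h1 : ((Q⁻¹ : (Matrix (Fin n) (Fin n) k)ˣ).val * A * Q.val) ^ j =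
        (Q⁻¹ : (Matrix (Fin n) (Fin n) k)ˣ).val * A ^ j * Q.val := by
      induction j with
      | zero => rw [pow_zero, pow_zero, Matrix.mul_one, Q.inv_mul]
      | succ j ih =>
        rw [pow_succ, ih, pow_succ]
        have h2 : (Q⁻¹ : (Matrix (Fin n) (Fin n) k)ˣ).val * A ^ j * Q.val *
            ((Q⁻¹ : (Matrix (Fin n) (Fin n) k)ˣ).val * A * Q.val) =
            (Q⁻¹ : (Matrix (Fin n) (Fin n) k)ˣ).val * A ^ j *
              (Q.val * (Q⁻¹ : (Matrix (Fin n) (Fin n) k)ˣ).val) * A * Q.val := by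
          simp only [Matrix.mul_assoc]
        rw [h2, Q.mul_inv, Matrix.mul_one]
        simp only [Matrix.mul_assoc]
    have h3 := map_pow (Matrix.reindexAlgEquiv k k e) ((Q⁻¹ : (Matrix (Fin n) (Fin n) k)ˣ).val * A * Q.val) j
    rw [h1] at h3
    exact h3.symm
  have hact : ∀ (j : ℕ) (s t : Fin p ⊕ Fin q), (A ^ j) *ᵥ F s = F t →
      ((Matrix.reindex e e ((Q⁻¹ : (Matrix (Fin n) (Fin n) k)ˣ).val * A * Q.val)) ^ j) *ᵥ
        Pi.single s 1 = Pi.single t 1 := by
    intro j s t hst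
    rw [hpow]
    ext r
    rw [Matrix.mulVec_single_one]
    show ((Q⁻¹ : (Matrix (Fin n) (Fin n) k)ˣ).val * A ^ j * Q.val) (e.symm r) (e.symm s) = _
    have h1 : ((Q⁻¹ : (Matrix (Fin n) (Fin n) k)ˣ).val * A ^ j * Q.val) *ᵥ Pi.single (e.symm s) 1 =
        Pi.single (e.symm t) 1 := by
      rw [← Matrix.mulVec_mulVec, hcol, ← Matrix.mulVec_mulVec, hst, hcol']
    have h2 := congrFun h1 (e.symm r)
    rw [Matrix.mulVec_single_one] at h2
    have h3 : ((Q⁻¹ : (Matrix (Fin n) (Fin n) k)ˣ).val * A ^ j * Q.val) (e.symm r) (e.symm s) =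
        (Pi.single (e.symm t) 1 : Fin n → k) (e.symm r) := h2
    rw [h3]
    by_cases hrt : r = t
    · subst hrt
      rw [Pi.single_eq_same, Pi.single_eq_same]
    · rw [Pi.single_eq_of_ne hrt, Pi.single_eq_of_ne (fun h4 => hrt (e.symm.injective h4))]
  ext i j
  unfold hm hv
  rcases j with j | j
  · have h1 := hact j (Sum.inl 0) (Sum.inl j) (by
      show (A ^ (j : ℕ)) *ᵥ ((A ^ ((0 : Fin p) : ℕ)) *ᵥ v₁) = (A ^ (j : ℕ)) *ᵥ v₁
      rw [Fin.val_zero, pow_zero, Matrix.one_mulVec])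
    show (((Matrix.reindex e e ((Q⁻¹ : (Matrix (Fin n) (Fin n) k)ˣ).val * A * Q.val)) ^ (j : ℕ)) *ᵥ
        Pi.single (Sum.inl 0) 1) i = (1 : Matrix (Fin p ⊕ Fin q) (Fin p ⊕ Fin q) k) i (Sum.inl j)
    rw [h1, Matrix.one_apply, Pi.single_apply]
  · have h1 := hact j (Sum.inr 0) (Sum.inr j) (by
      show (A ^ (j : ℕ)) *ᵥ ((A ^ ((0 : Fin q) : ℕ)) *ᵥ v₂) = (A ^ (j : ℕ)) *ᵥ v₂
      rw [Fin.val_zero, pow_zero, Matrix.one_mulVec])
    show (((Matrix.reindex e e ((Q⁻¹ : (Matrix (Fin n) (Fin n) k)ˣ).val * A * Q.val)) ^ (j : ℕ)) *ᵥ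
        Pi.single (Sum.inr 0) 1) i = (1 : Matrix (Fin p ⊕ Fin q) (Fin p ⊕ Fin q) k) i (Sum.inr j)
    rw [h1, Matrix.one_apply, Pi.single_apply]

/-- **Lin.** -/
theorem thm_Lin : St_Lin := by
  intro k _ _ n hn A hA
  have hfr : finrank k (Fin n → k) = n := by simp
  have hpowA : ∀ (j : ℕ) (v : Fin n → k), (A.mulVecLin ^ j) v = (A ^ j) *ᵥ v := by
    intro j
    induction j with
    | zero =>
      intro v
      rw [pow_zero, pow_zero, Matrix.one_mulVec]
      rfl
    | succ j ih =>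
      intro v
      have h1 : (A.mulVecLin ^ (j + 1)) v = A.mulVecLin ((A.mulVecLin ^ j) v) := by
        rw [pow_succ']
        rfl
      rw [h1, ih, pow_succ', ← Matrix.mulVec_mulVec]
      rfl
  obtain ⟨v₁, v₂, h1, h2, h3⟩ := lin_adj A.mulVecLin (by rw [hfr]; exact hn) (by
    intro μ
    rw [hfr]
    have h1 := hA μ
    have h2 : (A - Matrix.scalar (Fin n) μ).mulVecLin = A.mulVecLin - μ • LinearMap.id := by
      apply LinearMap.ext
      intro v
      show (A - Matrix.scalar (Fin n) μ) *ᵥ v = A *ᵥ v - μ • v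
      rw [Matrix.sub_mulVec]
      congr 1
      ext i
      simp [Matrix.scalar_apply, Matrix.mulVec_diagonal]
    rw [← h2]
    exact h1)
  have hli := lin_two A.mulVecLin v₁ v₂ h1
  have hq := Submodule.finrank_quotient_add_finrank (lin_C A.mulVecLin v₁)
  rw [hfr] at h2 h3 hq
  generalize hp : finrank k (lin_C A.mulVecLin v₁) = p at h2 h3 hq hli
  generalize hq' : finrank k ((Fin n → k) ⧸ lin_C A.mulVecLin v₁) = q at hq hli
  have hp0 : NeZero p := ⟨by omega⟩
  have hq0 : NeZero q := ⟨by omega⟩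
  let e : Fin n ≃ Fin p ⊕ Fin q := (finCongr (by omega : n = p + q)).trans finSumFinEquiv.symm
  have hli' : LinearIndependent k (Sum.elim (fun i : Fin p => (A ^ (i : ℕ)) *ᵥ v₁)
      (fun i : Fin q => (A ^ (i : ℕ)) *ᵥ v₂)) := by
    have h4 : (fun i : Fin p => (A ^ (i : ℕ)) *ᵥ v₁) = fun i : Fin p => (A.mulVecLin ^ (i : ℕ)) v₁ := by
      funext i
      exact (hpowA i v₁).symm
    have h5 : (fun i : Fin q => (A ^ (i : ℕ)) *ᵥ v₂) = fun i : Fin q => (A.mulVecLin ^ (i : ℕ)) v₂ := by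
      funext i
      exact (hpowA i v₂).symm
    rw [h4, h5]
    exact hli
  obtain ⟨Q, hQ⟩ := lin_mat A e v₁ v₂ hli'
  refine ⟨p, q, hp0, hq0, e, Q, by omega, ?_⟩
  rw [hQ, Matrix.det_one]
  exact one_ne_zero

end Pool.Agent.CTR
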