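import Pool.Agent.CTR.St

/-!
# CTR, module NFB: the matrices of the normal form commute (helper18 for helper40)
-/

set_option autoImplicit false
set_option linter.unusedVariables false

noncomputable section

namespace Pool.Agent.CTR

open Matrix

section nfb

variable {ι S : Type} [Fintype ι] [DecidableEq ι] [CommRing S]

theorem nfb_pv_sum (x : Matrix ι ι S) (r : Polynomial S) (v : ι → S) (N : ℕ) (h : r.natDegree < N) :
    pv x r v = ∑ i ∈ Finset.range N, r.coeff i • ((x ^ i) *ᵥ v) := by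
  unfold pv
  rw [Polynomial.aeval_eq_sum_range' h, Matrix.sum_mulVec]
  exact Finset.sum_congr rfl fun i _ => Matrix.smul_mulVec _ _ _

theorem nfb_pv_lt (x : Matrix ι ι S) (r : Polynomial S) (v : ι → S) (N : ℕ) (hN : 0 < N)
    (h : r.degree < N) : pv x r v = ∑ i : Fin N, r.coeff i • ((x ^ (i : ℕ)) *ᵥ v) := by
  rw [← Finset.sum_range (fun i => r.coeff i • ((x ^ i) *ᵥ v))]
  refine nfb_pv_sum x r v N ?_
  by_cases hr : r = 0
  · rw [hr, Polynomial.natDegree_zero]
    exact hN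
  · exact (Polynomial.natDegree_lt_iff_degree_lt hr).2 h

theorem nfb_pv_mon (x : Matrix ι ι S) (r : Polynomial S) (v : ι → S) (N : ℕ) (hm : r.Monic)
    (h : r.natDegree = N) :
    pv x r v = ∑ i : Fin N, r.coeff i • ((x ^ (i : ℕ)) *ᵥ v) + (x ^ N) *ᵥ v := by
  rw [← Finset.sum_range (fun i => r.coeff i • ((x ^ i) *ᵥ v)),
    nfb_pv_sum x r v (N + 1) (by omega), Finset.sum_range_succ]
  congr 1
  have : r.coeff N = 1 := by rw [← h]; exact hm
  rw [this, one_smul]

theorem nfb_pv_add (x : Matrix ι ι S) (r : Polynomial S) (v w : ι → S) :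
    pv x r (v + w) = pv x r v + pv x r w := Matrix.mulVec_add _ _ _

theorem nfb_pv_addp (x : Matrix ι ι S) (r s : Polynomial S) (v : ι → S) :
    pv x (r + s) v = pv x r v + pv x s v := by
  unfold pv
  rw [map_add, Matrix.add_mulVec]

theorem nfb_pv_mul (x : Matrix ι ι S) (r s : Polynomial S) (v : ι → S) :
    pv x (r * s) v = pv x r (pv x s v) := by
  unfold pv
  rw [map_mul, Matrix.mulVec_mulVec]

theorem nfb_pv_zero (x : Matrix ι ι S) (r : Polynomial S) : pv x r 0 = 0 := Matrix.mulVec_zero _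

theorem nfb_comb (x : Matrix ι ι S) (r s a₁ b₁ a₂ b₂ : Polynomial S) (v w : ι → S) :
    pv x r (pv x a₁ v + pv x b₁ w) + pv x s (pv x a₂ v + pv x b₂ w) =
      pv x (r * a₁ + s * a₂) v + pv x (r * b₁ + s * b₂) w := by
  rw [nfb_pv_add, nfb_pv_add, nfb_pv_addp, nfb_pv_addp, nfb_pv_mul, nfb_pv_mul, nfb_pv_mul,
    nfb_pv_mul]
  abel

/-- combinations of a relation -/
theorem nfb_rel (x : Matrix ι ι S) (r s f : Polynomial S) (v w : ι → S)
    (h : pv x r v + pv x s w = 0) : pv x (f * r) v + pv x (f * s) w = 0 := by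
  rw [nfb_pv_mul, nfb_pv_mul, ← nfb_pv_add, h, nfb_pv_zero]

end nfb

section nfb2

variable {S : Type} [CommRing S] {p q : ℕ} [NeZero p] [NeZero q] {a b c d : Polynomial S}

/-- the columns of `x hv` -/
theorem nfb_xh (x : Matrix (Fin p ⊕ Fin q) (Fin p ⊕ Fin q) S) (v w : Fin p ⊕ Fin q → S) :
    (∀ k (j : Fin p), (x * hv x v w) k (Sum.inl j) = ((x ^ ((j : ℕ) + 1)) *ᵥ v) k) ∧
    ∀ k (j : Fin q), (x * hv x v w) k (Sum.inr j) = ((x ^ ((j : ℕ) + 1)) *ᵥ w) k := by
  constructor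
  · intro k j
    rw [pow_succ', ← Matrix.mulVec_mulVec]
    rfl
  · intro k j
    rw [pow_succ', ← Matrix.mulVec_mulVec]
    rfl

/-- the columns of `hv x` -/
theorem nfb_hx1 (x : Matrix (Fin p ⊕ Fin q) (Fin p ⊕ Fin q) S) (v w : Fin p ⊕ Fin q → S)
    (ha : a.Monic) (ha' : a.natDegree = p) (hc : c.degree < q) (k : Fin p ⊕ Fin q) (j : Fin p) :
    (hv x v w * cx p q a b c d) k (Sum.inl j) = ((x ^ ((j : ℕ) + 1)) *ᵥ v) k -
      (if (j : ℕ) + 1 = p then (pv x a v + pv x c w) k else 0) := by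
  rw [Matrix.mul_apply, Fintype.sum_sum_type]
  have h1 : ∀ i : Fin p, hv x v w k (Sum.inl i) * cx p q a b c d (Sum.inl i) (Sum.inl j) =
      ((x ^ (i : ℕ)) *ᵥ v) k * (if (j : ℕ) + 1 = p then -a.coeff i else
        if (i : ℕ) = j + 1 then 1 else 0) := fun i => rfl
  have h2 : ∀ i : Fin q, hv x v w k (Sum.inr i) * cx p q a b c d (Sum.inr i) (Sum.inl j) =
      ((x ^ (i : ℕ)) *ᵥ w) k * (if (j : ℕ) + 1 = p then -c.coeff i else 0) := fun i => rfl
  rw [Finset.sum_congr rfl fun i _ => h1 i, Finset.sum_congr rfl fun i _ => h2 i]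
  by_cases hj : (j : ℕ) + 1 = p
  · rw [if_pos hj, nfb_pv_mon x a v p ha ha', nfb_pv_lt x c w q (Nat.pos_of_neZero q) hc, hj]
    simp only [if_true, Pi.add_apply, Finset.sum_apply, Pi.smul_apply, smul_eq_mul, mul_neg,
      Finset.sum_neg_distrib]
    have h3 : ∀ (f g : ℕ → S), (∑ i : Fin p, f i * g i) = ∑ i : Fin p, g i * f i := fun f g =>
      Finset.sum_congr rfl fun i _ => mul_comm _ _
    have h4 : ∀ (f g : ℕ → S), (∑ i : Fin q, f i * g i) = ∑ i : Fin q, g i * f i := fun f g =>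
      Finset.sum_congr rfl fun i _ => mul_comm _ _
    rw [h3 (fun i => ((x ^ i) *ᵥ v) k) a.coeff, h4 (fun i => ((x ^ i) *ᵥ w) k) c.coeff]
    ring
  · rw [if_neg hj, sub_zero]
    simp only [if_neg hj, mul_zero, Finset.sum_const_zero, add_zero]
    have hjp : (j : ℕ) + 1 < p := lt_of_le_of_ne j.2 hj
    rw [Finset.sum_eq_single (⟨(j : ℕ) + 1, hjp⟩ : Fin p)]
    · rw [if_pos rfl, mul_one]
    · intro i _ hi
      rw [if_neg (fun h => hi (Fin.ext h)), mul_zero]
    · intro h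
      exact absurd (Finset.mem_univ _) h

theorem nfb_hx2 (x : Matrix (Fin p ⊕ Fin q) (Fin p ⊕ Fin q) S) (v w : Fin p ⊕ Fin q → S)
    (hd : d.Monic) (hd' : d.natDegree = q) (hb : b.degree < p) (k : Fin p ⊕ Fin q) (j : Fin q) :
    (hv x v w * cx p q a b c d) k (Sum.inr j) = ((x ^ ((j : ℕ) + 1)) *ᵥ w) k -
      (if (j : ℕ) + 1 = q then (pv x b v + pv x d w) k else 0) := by
  rw [Matrix.mul_apply, Fintype.sum_sum_type]
  have h1 : ∀ i : Fin p, hv x v w k (Sum.inl i) * cx p q a b c d (Sum.inl i) (Sum.inr j) =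
      ((x ^ (i : ℕ)) *ᵥ v) k * (if (j : ℕ) + 1 = q then -b.coeff i else 0) := fun i => rfl
  have h2 : ∀ i : Fin q, hv x v w k (Sum.inr i) * cx p q a b c d (Sum.inr i) (Sum.inr j) =
      ((x ^ (i : ℕ)) *ᵥ w) k * (if (j : ℕ) + 1 = q then -d.coeff i else
        if (i : ℕ) = j + 1 then 1 else 0) := fun i => rfl
  rw [Finset.sum_congr rfl fun i _ => h1 i, Finset.sum_congr rfl fun i _ => h2 i]
  by_cases hj : (j : ℕ) + 1 = q
  · rw [if_pos hj, nfb_pv_mon x d w q hd hd', nfb_pv_lt x b v p (Nat.pos_of_neZero p) hb, hj]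
    simp only [if_true, Pi.add_apply, Finset.sum_apply, Pi.smul_apply, smul_eq_mul, mul_neg,
      Finset.sum_neg_distrib]
    have h3 : ∀ (f g : ℕ → S), (∑ i : Fin p, f i * g i) = ∑ i : Fin p, g i * f i := fun f g =>
      Finset.sum_congr rfl fun i _ => mul_comm _ _
    have h4 : ∀ (f g : ℕ → S), (∑ i : Fin q, f i * g i) = ∑ i : Fin q, g i * f i := fun f g =>
      Finset.sum_congr rfl fun i _ => mul_comm _ _
    rw [h3 (fun i => ((x ^ i) *ᵥ v) k) b.coeff, h4 (fun i => ((x ^ i) *ᵥ w) k) d.coeff]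
    ring
  · rw [if_neg hj, sub_zero]
    simp only [if_neg hj, mul_zero, Finset.sum_const_zero, zero_add]
    have hjq : (j : ℕ) + 1 < q := lt_of_le_of_ne j.2 hj
    rw [Finset.sum_eq_single (⟨(j : ℕ) + 1, hjq⟩ : Fin q)]
    · rw [if_pos rfl, mul_one]
    · intro i _ hi
      rw [if_neg (fun h => hi (Fin.ext h)), mul_zero]
    · intro h
      exact absurd (Finset.mem_univ _) h

/-- the basis -/
theorem nfb_hm (a b c d : Polynomial S) : hm (cx p q a b c d) = 1 := by
  have hp : 0 < p := Nat.pos_of_neZero p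
  have hq : 0 < q := Nat.pos_of_neZero q
  have h1 : ∀ (j : ℕ) (hj : j < p), (cx p q a b c d ^ j) *ᵥ e1 S p q = Pi.single (Sum.inl ⟨j, hj⟩) 1 := by
    intro j
    induction j with
    | zero =>
      intro hj
      rw [pow_zero, Matrix.one_mulVec]
      rfl
    | succ j ih =>
      intro hj
      rw [pow_succ', ← Matrix.mulVec_mulVec, ih (by omega), Matrix.mulVec_single_one]
      funext k
      rcases k with k | k
      · show (if j + 1 = p then -a.coeff k else if (k : ℕ) = j + 1 then 1 else 0) = _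
        rw [if_neg (by omega), Pi.single_apply]
        congr 1
        rw [Sum.inl.injEq, Fin.ext_iff]
      · show (if j + 1 = p then -c.coeff k else 0) = _
        rw [if_neg (by omega), Pi.single_apply, if_neg (by simp)]
  have h2 : ∀ (j : ℕ) (hj : j < q), (cx p q a b c d ^ j) *ᵥ e2 S p q = Pi.single (Sum.inr ⟨j, hj⟩) 1 := by
    intro j
    induction j with
    | zero =>
      intro hj
      rw [pow_zero, Matrix.one_mulVec]
      rfl
    | succ j ih =>
      intro hj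
      rw [pow_succ', ← Matrix.mulVec_mulVec, ih (by omega), Matrix.mulVec_single_one]
      funext k
      rcases k with k | k
      · show (if j + 1 = q then -b.coeff k else 0) = _
        rw [if_neg (by omega), Pi.single_apply, if_neg (by simp)]
      · show (if j + 1 = q then -d.coeff k else if (k : ℕ) = j + 1 then 1 else 0) = _
        rw [if_neg (by omega), Pi.single_apply]
        congr 1
        rw [Sum.inr.injEq, Fin.ext_iff]
  ext k j
  rcases j with j | j
  · show ((cx p q a b c d ^ (j : ℕ)) *ᵥ e1 S p q) k = _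
    rw [h1 j j.2, Matrix.one_apply, Pi.single_apply]
  · show ((cx p q a b c d ^ (j : ℕ)) *ᵥ e2 S p q) k = _
    rw [h2 j j.2, Matrix.one_apply, Pi.single_apply]

/-- the relations between `e_1` and `e_2` -/
theorem nfb_R (ha : a.Monic) (ha' : a.natDegree = p) (hd : d.Monic) (hd' : d.natDegree = q)
    (hb : b.degree < p) (hc : c.degree < q) :
    pv (cx p q a b c d) a (e1 S p q) + pv (cx p q a b c d) c (e2 S p q) = 0 ∧
    pv (cx p q a b c d) b (e1 S p q) + pv (cx p q a b c d) d (e2 S p q) = 0 := by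
  have hp : 0 < p := Nat.pos_of_neZero p
  have hq : 0 < q := Nat.pos_of_neZero q
  have hm1 : hv (cx p q a b c d) (e1 S p q) (e2 S p q) = 1 := nfb_hm a b c d
  constructor
  · funext k
    have h1 := nfb_hx1 (b := b) (d := d) (cx p q a b c d) (e1 S p q) (e2 S p q) ha ha' hc k
      ⟨p - 1, by omega⟩
    have h2 := (nfb_xh (cx p q a b c d) (e1 S p q) (e2 S p q)).1 k ⟨p - 1, by omega⟩
    rw [hm1, one_mul] at h1
    rw [hm1, mul_one] at h2
    rw [← h2, if_pos (by simp only; omega)] at h1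
    have h3 := sub_eq_self.1 h1.symm
    rw [h3]
    rfl
  · funext k
    have h1 := nfb_hx2 (a := a) (c := c) (cx p q a b c d) (e1 S p q) (e2 S p q) hd hd' hb k
      ⟨q - 1, by omega⟩
    have h2 := (nfb_xh (cx p q a b c d) (e1 S p q) (e2 S p q)).2 k ⟨q - 1, by omega⟩
    rw [hm1, one_mul] at h1
    rw [hm1, mul_one] at h2
    rw [← h2, if_pos (by simp only; omega)] at h1
    have h3 := sub_eq_self.1 h1.symm
    rw [h3]
    rfl

/-- commutation -/
theorem nfb_comm (ha : a.Monic) (ha' : a.natDegree = p) (hd : d.Monic) (hd' : d.natDegree = q)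
    (hb : b.degree < p) (hc : c.degree < q) (v w : Fin p ⊕ Fin q → S)
    (h1 : pv (cx p q a b c d) a v + pv (cx p q a b c d) c w = 0)
    (h2 : pv (cx p q a b c d) b v + pv (cx p q a b c d) d w = 0) :
    cx p q a b c d * hv (cx p q a b c d) v w = hv (cx p q a b c d) v w * cx p q a b c d := by
  ext k j
  rcases j with j | j
  · rw [(nfb_xh _ v w).1, nfb_hx1 _ v w ha ha' hc, h1]
    simp
  · rw [(nfb_xh _ v w).2, nfb_hx2 _ v w hd hd' hb, h2]
    simp

end nfb2

theorem nfb_div {S : Type} [CommRing S] {d f : Polynomial S} (hd : d.Monic) (h : d ∣ f) :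
    d * (f /ₘ d) = f := by
  have h1 := Polynomial.modByMonic_add_div f d
  rwa [(Polynomial.modByMonic_eq_zero_iff_dvd hd).2 h, zero_add] at h1

theorem thm_NFB : St_NFB := by
  intro S _ p q _ _ hqp d m u P T h
  rcases subsingleton_or_nontrivial S with hS | hS
  · exact Subsingleton.elim _ _
  obtain ⟨dm, dd, mm, md, ud, Pd, Td, dv⟩ := h
  obtain ⟨ka, hka⟩ : ∃ ka, ka = (P 1 * T 2 - P 2 * T 1) /ₘ d := ⟨_, rfl⟩
  obtain ⟨kb, hkb⟩ : ∃ kb, kb = (P 0 * T 2 - P 2 * T 0) /ₘ d := ⟨_, rfl⟩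
  obtain ⟨kc, hkc⟩ : ∃ kc, kc = (P 0 * T 1 - P 1 * T 0) /ₘ d := ⟨_, rfl⟩
  have ea : d * ka = P 1 * T 2 - P 2 * T 1 := by rw [hka]; exact nfb_div dm (dv 2 1)
  have eb : d * kb = P 0 * T 2 - P 2 * T 0 := by rw [hkb]; exact nfb_div dm (dv 2 0)
  have ec : d * kc = P 0 * T 1 - P 1 * T 0 := by rw [hkc]; exact nfb_div dm (dv 1 0)
  have eabc : P 0 * ka - P 1 * kb + P 2 * kc = 0 := by
    refine dm.isRegular.left ?_
    show d * (P 0 * ka - P 1 * kb + P 2 * kc) = d * 0
    linear_combination P 0 * ea - P 1 * eb + P 2 * ec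
  -- degrees
  have hdm : (d * m).Monic := dm.mul mm
  have hdm' : (d * m).natDegree = p := by
    rw [dm.natDegree_mul mm, dd, md]
    omega
  have hlt : (P 0).degree < (d * m).degree := by
    rw [Polynomial.degree_eq_natDegree hdm.ne_zero, hdm']
    exact (Pd 0).trans_le (by exact_mod_cast hqp)
  have ha : (d * m + P 0).Monic := hdm.add_of_left hlt
  have ha' : (d * m + P 0).natDegree = p := by
    rw [Polynomial.natDegree_add_eq_left_of_degree_lt hlt, hdm']
  have hb : (P 1).degree < (p : WithBot ℕ) := (Pd 1).trans_le (by exact_mod_cast hqp)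
  obtain ⟨R1, R2⟩ := nfb_R ha ha' dm dd hb (Pd 2)
  show cx p q (d * m + P 0) (P 1) (P 2) d * hv (cx p q (d * m + P 0) (P 1) (P 2) d) _ _ =
    hv (cx p q (d * m + P 0) (P 1) (P 2) d) _ _ * cx p q (d * m + P 0) (P 1) (P 2) d
  obtain ⟨x, hx⟩ : ∃ x, x = cx p q (d * m + P 0) (P 1) (P 2) d := ⟨_, rfl⟩
  have hnx : nfx p q d m P = x := by rw [hx]; rfl
  rw [hnx, ← hka, ← hkc]
  rw [← hx] at R1 R2
  refine nfb_comm ha ha' dm dd hb (Pd 2) _ _ ?_ ?_
  · rw [← hx]
    have e1' : pv x (d * m + P 0) (pv x u (e1 S p q) + pv x (T 2) (e2 S p q)) +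
        pv x (P 2) (pv x (m * T 1 + kc) (e1 S p q) + pv x (u + (-T 0 - ka)) (e2 S p q)) =
        pv x (u * (d * m + P 0) + (-ka * (d * m + P 0) + (kb + m * T 2) * P 1)) (e1 S p q) +
        pv x (u * P 2 + (-ka * P 2 + (kb + m * T 2) * d)) (e2 S p q) := by
      have f1 : u * (d * m + P 0) + (-ka * (d * m + P 0) + (kb + m * T 2) * P 1) =
          (d * m + P 0) * u + P 2 * (m * T 1 + kc) := by
        linear_combination (-m) * ea - eabc
      have f2 : u * P 2 + (-ka * P 2 + (kb + m * T 2) * d) =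
          (d * m + P 0) * T 2 + P 2 * (u + (-T 0 - ka)) := by
        linear_combination eb
      rw [f1, f2, nfb_comb]
    rw [e1', nfb_pv_addp, nfb_pv_addp, nfb_pv_addp, nfb_pv_addp]
    have g1 := nfb_rel x (d * m + P 0) (P 2) u _ _ R1
    have g2 := nfb_rel x (d * m + P 0) (P 2) (-ka) _ _ R1
    have g3 := nfb_rel x (P 1) d (kb + m * T 2) _ _ R2
    calc _ = (pv x (u * (d * m + P 0)) (e1 S p q) + pv x (u * P 2) (e2 S p q)) +
          (pv x (-ka * (d * m + P 0)) (e1 S p q) + pv x (-ka * P 2) (e2 S p q)) +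
          (pv x ((kb + m * T 2) * P 1) (e1 S p q) + pv x ((kb + m * T 2) * d) (e2 S p q)) := by
          abel
      _ = 0 := by rw [g1, g2, g3, add_zero, add_zero]
  · rw [← hx]
    have e1' : pv x (P 1) (pv x u (e1 S p q) + pv x (T 2) (e2 S p q)) +
        pv x d (pv x (m * T 1 + kc) (e1 S p q) + pv x (u + (-T 0 - ka)) (e2 S p q)) =
        pv x (u * P 1 + (T 1 * (d * m + P 0) + -T 0 * P 1)) (e1 S p q) +
        pv x (u * d + (T 1 * P 2 + -T 0 * d)) (e2 S p q) := by
      have f1 : u * P 1 + (T 1 * (d * m + P 0) + -T 0 * P 1) = P 1 * u + d * (m * T 1 + kc) := by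
        linear_combination -ec
      have f2 : u * d + (T 1 * P 2 + -T 0 * d) = P 1 * T 2 + d * (u + (-T 0 - ka)) := by
        linear_combination ea
      rw [f1, f2, nfb_comb]
    rw [e1', nfb_pv_addp, nfb_pv_addp, nfb_pv_addp, nfb_pv_addp]
    have g1 := nfb_rel x (P 1) d u _ _ R2
    have g2 := nfb_rel x (d * m + P 0) (P 2) (T 1) _ _ R1
    have g3 := nfb_rel x (P 1) d (-T 0) _ _ R2
    calc _ = (pv x (u * P 1) (e1 S p q) + pv x (u * d) (e2 S p q)) +
          (pv x (T 1 * (d * m + P 0)) (e1 S p q) + pv x (T 1 * P 2) (e2 S p q)) +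
          (pv x (-T 0 * P 1) (e1 S p q) + pv x (-T 0 * d) (e2 S p q)) := by
          abel
      _ = 0 := by rw [g1, g2, g3, add_zero, add_zero]

end Pool.Agent.CTR
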