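import Pool.Agent.CTR.St

/-!
# CTR, Prm: the ideal of the relations is prime (helper53)
-/

set_option autoImplicit false
set_option linter.unusedVariables false

noncomputable section

namespace Pool.Agent.CTR

open scoped Classical

/-- a family over a finite type is independent if its span contains an independent family of the same size -/
theorem prm_indep {Ω B Λ : Type} [Field Ω] [AddCommGroup B] [Module Ω B] [Fintype Λ]
    (v w : Λ → B) (hw : LinearIndependent Ω w) (h : ∀ μ, w μ ∈ Submodule.span Ω (Set.range v)) :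
    LinearIndependent Ω v := by
  rw [linearIndependent_iff_card_le_finrank_span]
  rw [linearIndependent_iff_card_eq_finrank_span] at hw
  rw [hw]
  unfold Set.finrank
  have : FiniteDimensional Ω (Submodule.span Ω (Set.range v)) :=
    FiniteDimensional.span_of_finite Ω (Set.finite_range v)
  apply Submodule.finrank_mono
  rw [Submodule.span_le]
  rintro _ ⟨μ, rfl⟩
  exact h μ

/-- the variables of the target -/
abbrev prmS (q : ℕ) : Type := Fin q × (Fin 2 ⊕ Fin 3)

/-- the weights -/
def prmW (q : ℕ) (i : Fin 2) : prmS q → ℕ := fun v => if v.2 = Sum.inl i then 1 else 0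

/-- the exponents of the images of the products -/
def prmE {q : ℕ} (μ : Vr q →₀ ℕ) : prmS q →₀ ℕ :=
  ∑ v : Vr q, μ v • (Finsupp.single (v.2, Sum.inl v.1.1) 1 + Finsupp.single (v.2, Sum.inr v.1.2) 1)

theorem prm_pow {σ Ω : Type} [Field Ω] (a b : σ) (n : ℕ) :
    (MvPolynomial.X a * MvPolynomial.X b : MvPolynomial σ Ω) ^ n =
      MvPolynomial.monomial (n • (Finsupp.single a 1 + Finsupp.single b 1)) 1 := by
  rw [MvPolynomial.X, MvPolynomial.X, MvPolynomial.monomial_mul, MvPolynomial.monomial_pow,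
    one_mul, one_pow]

theorem prmE_inl {q : ℕ} (μ : Vr q →₀ ℕ) (s : Fin q) (i : Fin 2) :
    prmE μ (s, Sum.inl i) = ∑ c : Fin 3, μ ((i, c), s) := by
  unfold prmE
  rw [Finsupp.finsetSum_apply, Fintype.sum_prod_type, Fintype.sum_prod_type, Finset.sum_eq_single i]
  · refine Finset.sum_congr rfl fun c _ => ?_
    rw [Finset.sum_eq_single s]
    · simp
    · intro b _ hb
      simp [hb]
    · intro h
      exact absurd (Finset.mem_univ s) h
  · intro j _ hj
    refine Finset.sum_eq_zero fun c _ => Finset.sum_eq_zero fun t _ => ?_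
    simp [hj]
  · intro h
    exact absurd (Finset.mem_univ i) h

theorem prmE_inr {q : ℕ} (μ : Vr q →₀ ℕ) (s : Fin q) (c : Fin 3) :
    prmE μ (s, Sum.inr c) = μ ((0, c), s) + μ ((1, c), s) := by
  unfold prmE
  rw [Finsupp.finsetSum_apply, Fintype.sum_prod_type, Fintype.sum_prod_type]
  have : ∀ i : Fin 2, ∑ c' : Fin 3, ∑ t : Fin q, (μ ((i, c'), t) •
      (Finsupp.single (t, (Sum.inl i : Fin 2 ⊕ Fin 3)) 1 +
        Finsupp.single (t, (Sum.inr c' : Fin 2 ⊕ Fin 3)) 1) : prmS q →₀ ℕ) (s, Sum.inr c) =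
      μ ((i, c), s) := by
    intro i
    rw [Finset.sum_eq_single c]
    · rw [Finset.sum_eq_single s]
      · simp
      · intro b _ hb
        simp [hb]
      · intro h
        exact absurd (Finset.mem_univ s) h
    · intro j _ hj
      refine Finset.sum_eq_zero fun t _ => ?_
      simp [hj]
    · intro h
      exact absurd (Finset.mem_univ c) h
  rw [Fin.sum_univ_two]
  exact congrArg₂ _ (this 0) (this 1)

theorem prmE_inj {q : ℕ} {μ ν : Vr q →₀ ℕ} (hμ : Std μ) (hν : Std ν) (h : prmE μ = prmE ν) :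
    μ = ν := by
  have key : ∀ s : Fin q, ∀ c : Fin 3, μ ((0, c), s) = ν ((0, c), s) ∧
      μ ((1, c), s) = ν ((1, c), s) := by
    intro s
    have a0 := DFunLike.congr_fun h (s, Sum.inl 0)
    have a1 := DFunLike.congr_fun h (s, Sum.inl 1)
    have b0 := DFunLike.congr_fun h (s, Sum.inr 0)
    have b1 := DFunLike.congr_fun h (s, Sum.inr 1)
    have b2 := DFunLike.congr_fun h (s, Sum.inr 2)
    rw [prmE_inl, prmE_inl, Fin.sum_univ_three, Fin.sum_univ_three] at a0 a1
    rw [prmE_inr, prmE_inr] at b0 b1 b2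
    have m1 := hμ s 0 1 (by decide)
    have m2 := hμ s 0 2 (by decide)
    have m3 := hμ s 1 2 (by decide)
    have n1 := hν s 0 1 (by decide)
    have n2 := hν s 0 2 (by decide)
    have n3 := hν s 1 2 (by decide)
    intro c
    fin_cases c
    · simp only [Fin.zero_eta, Fin.isValue]
      omega
    · simp only [Fin.mk_one, Fin.isValue]
      omega
    · simp only [Fin.reduceFinMk, Fin.isValue]
      omega
  ext ⟨⟨i, c⟩, s⟩
  fin_cases i
  · exact (key s c).1
  · exact (key s c).2

theorem prmE_weight {q : ℕ} (μ : Vr q →₀ ℕ) (i : Fin 2) :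
    Finsupp.weight (prmW q i) (prmE μ) = bd i μ := by
  unfold prmE
  rw [map_sum, Fintype.sum_prod_type, Fintype.sum_prod_type]
  have h : ∀ (j : Fin 2) (c : Fin 3) (s : Fin q), Finsupp.weight (prmW q i)
      (μ ((j, c), s) • (Finsupp.single (s, (Sum.inl j : Fin 2 ⊕ Fin 3)) 1 +
        Finsupp.single (s, (Sum.inr c : Fin 2 ⊕ Fin 3)) 1)) =
      if j = i then μ ((j, c), s) else 0 := by
    intro j c s
    rw [map_nsmul, map_add, Finsupp.weight_single, Finsupp.weight_single]
    unfold prmW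
    by_cases hj : j = i
    · simp [hj]
    · simp [hj]
  simp only [h]
  unfold bd
  rw [Finset.sum_eq_single i]
  · simp
  · intro j _ hj
    simp [hj]
  · intro h
    exact absurd (Finset.mem_univ i) h

theorem prm_fin (q k l : ℕ) : {ν : Vr q →₀ ℕ | bd 0 ν = k ∧ bd 1 ν = l}.Finite := by
  refine (Set.finite_Iic (Finsupp.equivFunOnFinite.symm fun _ : Vr q => k + l)).subset ?_
  rintro ν ⟨h0, h1⟩
  rw [Set.mem_Iic]
  intro v
  obtain ⟨⟨i, c⟩, s⟩ := v
  rw [Finsupp.equivFunOnFinite_symm_apply_apply]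
  have h2 : ν ((i, c), s) ≤ bd i ν := by
    unfold bd
    calc ν ((i, c), s) ≤ ∑ s : Fin q, ν ((i, c), s) :=
          Finset.single_le_sum (f := fun s => ν ((i, c), s)) (fun _ _ => Nat.zero_le _)
            (Finset.mem_univ s)
      _ ≤ _ := Finset.single_le_sum (f := fun c => ∑ s : Fin q, ν ((i, c), s))
            (fun _ _ => Nat.zero_le _) (Finset.mem_univ c)
  fin_cases i
  · have : bd 0 ν ≤ k + l := by omega
    exact h2.trans this
  · have : bd 1 ν ≤ k + l := by omega
    exact h2.trans this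

theorem thm_Prm (hWA : St_WA) (hTH : St_TH) : St_Prm := by
  intro K _ _ q r hr
  obtain ⟨Θ, h1, h2, h3⟩ := hTH K q r hr
  obtain ⟨F, hF1, hF2⟩ := hWA K q r
  have hker : ∀ f, Θ f = 0 → f ∈ IW r := by
    -- the components
    obtain ⟨π, hπ⟩ : ∃ π : ℕ → ℕ → (MvPolynomial (prmS q) (FractionRing K) →ₗ[FractionRing K]
        MvPolynomial (prmS q) (FractionRing K)), ∀ k l,
        π k l = (MvPolynomial.weightedHomogeneousComponent (prmW q 0) k) ∘ₗ
          (MvPolynomial.weightedHomogeneousComponent (prmW q 1) l) := ⟨_, fun _ _ => rfl⟩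
    have hπ1 : ∀ (k l k' l' : ℕ) (P : MvPolynomial (prmS q) (FractionRing K)),
        MvPolynomial.IsWeightedHomogeneous (prmW q 0) P k' →
        MvPolynomial.IsWeightedHomogeneous (prmW q 1) P l' →
        π k l P = if k' = k ∧ l' = l then P else 0 := by
      intro k l k' l' P hP0 hP1
      rw [hπ, LinearMap.comp_apply, MvPolynomial.weightedHomogeneousComponent_of_mem hP1]
      by_cases hl : l' = l
      · rw [if_pos hl.symm, MvPolynomial.weightedHomogeneousComponent_of_mem hP0]
        by_cases hk : k' = k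
        · rw [if_pos hk.symm, if_pos ⟨hk, hl⟩]
        · rw [if_neg (Ne.symm hk), if_neg (fun h => hk h.1)]
      · rw [if_neg (Ne.symm hl), map_zero, if_neg (fun h => hl h.2)]
    obtain ⟨v, hv⟩ : ∃ v : {ν : Vr q →₀ ℕ // Std ν} → MvPolynomial (prmS q) (FractionRing K),
        ∀ ν, v ν = Θ (MvPolynomial.monomial (F ν.1) 1) := ⟨_, fun _ => rfl⟩
    have hvπ : ∀ (k l : ℕ) (ν : {ν : Vr q →₀ ℕ // Std ν}), π k l (v ν) =
        if bd 0 ν.1 = k ∧ bd 1 ν.1 = l then v ν else 0 := by
      intro k l ν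
      have hb0 := h3 0 (F ν.1)
      have hb1 := h3 1 (F ν.1)
      rw [hF1 ν.1 ν.2] at hb0 hb1
      rw [← hv] at hb0 hb1
      exact hπ1 k l _ _ _ hb0 hb1
    -- the products
    obtain ⟨G, hG⟩ : ∃ G : (Vr q →₀ ℕ) → MvPolynomial (Vr q) K, ∀ μ, G μ =
        ∏ x : Vr q, ((gp K q x.1.1 x.1.2).eval (MvPolynomial.C (r x.2))) ^ μ x :=
      ⟨_, fun _ => rfl⟩
    have hΘG : ∀ μ, Θ (G μ) = MvPolynomial.monomial (prmE μ) 1 := by
      intro μ
      rw [hG, map_prod]
      unfold prmE
      rw [MvPolynomial.monomial_sum_one]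
      refine Finset.prod_congr rfl fun x _ => ?_
      rw [map_pow, h1, prm_pow]
    have hspan : ∀ (k l : ℕ) (μ : Vr q →₀ ℕ), bd 0 μ = k → bd 1 μ = l →
        MvPolynomial.monomial (prmE μ) (1 : FractionRing K) ∈ Submodule.span (FractionRing K)
          (Set.range fun ν : {ν : {ν : Vr q →₀ ℕ // Std ν} // bd 0 ν.1 = k ∧ bd 1 ν.1 = l} =>
            v ν.1) := by
      intro k l μ hk hl
      obtain ⟨g, hg, hfg⟩ := hF2 (G μ)
      have hΘ : Θ (G μ) = Θ g := by
        have := h2 _ hfg
        rwa [map_sub, sub_eq_zero] at this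
      have hT : Submodule.span K {h | ∃ μ ∈ {μ : Vr q →₀ ℕ | Std μ},
          h = MvPolynomial.monomial (F μ) (1 : K)} ≤
          ((Submodule.span (FractionRing K)
            (Set.range fun ν : {ν : {ν : Vr q →₀ ℕ // Std ν} // bd 0 ν.1 = k ∧ bd 1 ν.1 = l} =>
              v ν.1)).restrictScalars K).comap
            (((π k l).restrictScalars K) ∘ₗ Θ.toLinearMap) := by
        rw [Submodule.span_le]
        rintro _ ⟨ν, hν, rfl⟩
        rw [SetLike.mem_coe, Submodule.mem_comap, LinearMap.comp_apply,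
          Submodule.restrictScalars_mem]
        change π k l (Θ (MvPolynomial.monomial (F ν) 1)) ∈ _
        rw [← hv ⟨ν, hν⟩, hvπ]
        split_ifs with hc
        · exact Submodule.subset_span ⟨⟨⟨ν, hν⟩, hc⟩, rfl⟩
        · exact Submodule.zero_mem _
      have h5 := hT hg
      rw [Submodule.mem_comap, LinearMap.comp_apply, Submodule.restrictScalars_mem] at h5
      change π k l (Θ g) ∈ _ at h5
      rw [← hΘ, hΘG, hπ1 k l (bd 0 μ) (bd 1 μ), if_pos ⟨hk, hl⟩] at h5
      · exact h5
      · exact MvPolynomial.isWeightedHomogeneous_monomial _ _ _ (prmE_weight μ 0)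
      · exact MvPolynomial.isWeightedHomogeneous_monomial _ _ _ (prmE_weight μ 1)
    -- independence in one bidegree
    have hind : ∀ k l : ℕ, LinearIndependent (FractionRing K)
        (fun ν : {ν : {ν : Vr q →₀ ℕ // Std ν} // bd 0 ν.1 = k ∧ bd 1 ν.1 = l} => v ν.1) := by
      intro k l
      have hfin : Finite {ν : {ν : Vr q →₀ ℕ // Std ν} // bd 0 ν.1 = k ∧ bd 1 ν.1 = l} := by
        have := (prm_fin q k l).to_subtype
        refine Finite.of_injective (β := {ν : Vr q →₀ ℕ | bd 0 ν = k ∧ bd 1 ν = l})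
          (fun ν => ⟨ν.1.1, ν.2⟩) ?_
        intro a b hab
        simp only [Subtype.mk.injEq] at hab
        exact Subtype.ext (Subtype.ext hab)
      have := Fintype.ofFinite {ν : {ν : Vr q →₀ ℕ // Std ν} // bd 0 ν.1 = k ∧ bd 1 ν.1 = l}
      refine prm_indep _ (fun ν => MvPolynomial.monomial (prmE ν.1.1) (1 : FractionRing K)) ?_ ?_
      · have h6 := (MvPolynomial.basisMonomials (prmS q) (FractionRing K)).linearIndependent.comp
          (fun ν : {ν : {ν : Vr q →₀ ℕ // Std ν} // bd 0 ν.1 = k ∧ bd 1 ν.1 = l} =>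
            prmE ν.1.1) (by
          intro a b hab
          exact Subtype.ext (Subtype.ext (prmE_inj a.1.2 b.1.2 hab)))
        rw [MvPolynomial.coe_basisMonomials] at h6
        exact h6
      · intro ν
        exact hspan k l ν.1.1 ν.2.1 ν.2.2
    have hv0 : LinearIndependent (FractionRing K) v := by
      rw [linearIndependent_iff']
      intro S g hS ν0 hν0
      have h6 := congrArg (π (bd 0 ν0.1) (bd 1 ν0.1)) hS
      rw [map_sum, map_zero] at h6
      simp only [map_smul, hvπ] at h6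
      have h7 : ∑ ν ∈ S, g ν • (if bd 0 ν.1 = bd 0 ν0.1 ∧ bd 1 ν.1 = bd 1 ν0.1 then v ν else 0) =
          ∑ ν ∈ S with (bd 0 ν.1 = bd 0 ν0.1 ∧ bd 1 ν.1 = bd 1 ν0.1), g ν • v ν := by
        rw [Finset.sum_filter]
        refine Finset.sum_congr rfl fun ν _ => ?_
        split_ifs
        · rfl
        · rw [smul_zero]
      rw [h7, ← Finset.sum_subtype_eq_sum_filter] at h6
      have h8 := (linearIndependent_iff'.1 (hind (bd 0 ν0.1) (bd 1 ν0.1))) _
        (fun ν => g ν.1) h6 ⟨ν0, rfl, rfl⟩ (Finset.mem_subtype.2 hν0)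
      exact h8
    have hvK : LinearIndependent K v := by
      refine hv0.restrict_scalars ?_
      intro a b hab
      simp only [Algebra.smul_def, mul_one] at hab
      exact IsFractionRing.injective K (FractionRing K) hab
    intro f hf
    obtain ⟨g, hg, hfg⟩ := hF2 f
    have hg0 : Θ g = 0 := by
      have := h2 _ hfg
      rwa [map_sub, hf, zero_sub, neg_eq_zero] at this
    have hset : {h | ∃ μ ∈ {μ : Vr q →₀ ℕ | Std μ}, h = MvPolynomial.monomial (F μ) (1 : K)} =
        Set.range fun ν : {ν : Vr q →₀ ℕ // Std ν} => MvPolynomial.monomial (F ν.1) (1 : K) := by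
      ext h
      constructor
      · rintro ⟨μ, hμ, rfl⟩
        exact ⟨⟨μ, hμ⟩, rfl⟩
      · rintro ⟨ν, rfl⟩
        exact ⟨ν.1, ν.2, rfl⟩
    rw [hset, Finsupp.mem_span_range_iff_exists_finsupp] at hg
    obtain ⟨c, hc⟩ := hg
    have hc0 : Finsupp.linearCombination K v c = 0 := by
      rw [Finsupp.linearCombination_apply, ← hg0, ← hc, map_finsuppSum]
      refine Finsupp.sum_congr fun ν _ => ?_
      rw [map_smul, hv]
    have hc1 : c = 0 := (linearIndependent_iff.1 hvK) c hc0
    rw [hc1, Finsupp.sum_zero_index] at hc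
    rw [← hc, sub_zero] at hfg
    exact hfg
  have hk : IW r = RingHom.ker Θ.toRingHom := by
    refine le_antisymm (fun f hf => h2 f hf) (fun f hf => hker f hf)
  rw [hk]
  exact RingHom.ker_isPrime Θ.toRingHom

end Pool.Agent.CTR
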