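import Pool.Agent.CTR.St

/-!
# CTR, module Rec: the recursion step for spanning monomials
-/

set_option autoImplicit false

noncomputable section

namespace Pool.Agent.CTR

open Matrix

theorem rec_sw_apply {q : ℕ} (o s : Fin q) (μ : Vr q →₀ ℕ) (x : Fin 2 × Fin 3) (t : Fin q) :
    sw o s μ (x, t) = μ (x, Equiv.swap o s t) := by
  unfold sw
  rw [Finsupp.equivMapDomain_apply]
  congr 1

theorem rec_sw_sw {q : ℕ} (o s : Fin q) (μ : Vr q →₀ ℕ) : sw o s (sw o s μ) = μ := by
  ext ⟨x, t⟩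
  rw [rec_sw_apply, rec_sw_apply, Equiv.swap_apply_self]

theorem rec_bd_add {q : ℕ} (i : Fin 2) (μ ν : Vr q →₀ ℕ) : bd i (μ + ν) = bd i μ + bd i ν := by
  unfold bd
  rw [← Finset.sum_add_distrib]
  apply Finset.sum_congr rfl
  intro c _
  rw [← Finset.sum_add_distrib]
  rfl

theorem rec_bd_sw {q : ℕ} (i : Fin 2) (o s : Fin q) (μ : Vr q →₀ ℕ) :
    bd i (sw o s μ) = bd i μ := by
  unfold bd
  apply Finset.sum_congr rfl
  intro c _
  simp only [rec_sw_apply]
  exact Equiv.sum_comp (Equiv.swap o s) (fun t => μ ((i, c), t))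

theorem thm_Rec : St_Rec := by
  classical
  intro K _ q c o s I I₁ I₂ A A₁ A₂ F₁ F₂ h1 h2 hA1 hA1v hA hA2 hS1 hS2
  set v : Vr q := ((1, c), o) with hv
  set F : (Vr q →₀ ℕ) → (Vr q →₀ ℕ) := fun μ =>
    if μ ∈ A₁ then F₁ μ else F₂ (sw o s (μ - Finsupp.single v 1)) + Finsupp.single v 1 with hF
  have hF1 : ∀ μ ∈ A₁, F μ = F₁ μ := fun μ hμ => if_pos hμ
  have hF2 : ∀ ν, F (sw o s ν + Finsupp.single v 1) = F₂ ν + Finsupp.single v 1 := by
    intro ν
    have hn : sw o s ν + Finsupp.single v 1 ∉ A₁ := by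
      intro hc
      have := hA1v _ hc
      rw [Finsupp.add_apply, hv, Finsupp.single_eq_same] at this
      omega
    rw [hF]
    simp only
    rw [if_neg hn, add_tsub_cancel_right, rec_sw_sw]
  refine ⟨F, ?_, ?_⟩
  · intro μ hμ i
    by_cases hμ1 : μ ∈ A₁
    · rw [hF1 μ hμ1]
      exact hS1.1 μ hμ1 i
    · rcases hA μ hμ with h | ⟨ν, hν, rfl⟩
      · exact absurd h hμ1
      · rw [hF2, rec_bd_add, rec_bd_add, rec_bd_sw, hS2.1 ν hν i]
  · intro f
    obtain ⟨g₁, hg1, hg1'⟩ := hS1.2 f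
    obtain ⟨j, hj, y, hy, hjy⟩ := Submodule.mem_sup.1 (h1 hg1')
    obtain ⟨f', rfl⟩ := Ideal.mem_span_singleton'.1 hy
    obtain ⟨g₂, hg2, hg2'⟩ := hS2.2 f'
    refine ⟨g₁ + MvPolynomial.X v * g₂, ?_, ?_⟩
    · apply Submodule.add_mem
      · refine Submodule.span_mono ?_ hg1
        rintro h ⟨μ, hμ, rfl⟩
        exact ⟨μ, hA1 hμ, by rw [hF1 μ hμ]⟩
      · refine Submodule.span_induction (p := fun g _ => MvPolynomial.X v * g ∈
          Submodule.span K {h | ∃ μ ∈ A, h = MvPolynomial.monomial (F μ) (1 : K)})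
          ?_ ?_ ?_ ?_ hg2
        · rintro h ⟨ν, hν, rfl⟩
          apply Submodule.subset_span
          refine ⟨sw o s ν + Finsupp.single v 1, hA2 ν hν, ?_⟩
          rw [hF2, MvPolynomial.X, MvPolynomial.monomial_mul, one_mul, add_comm]
        · rw [mul_zero]
          exact Submodule.zero_mem _
        · intro a b _ _ ha hb
          rw [mul_add]
          exact Submodule.add_mem _ ha hb
        · intro t a _ ha
          rw [mul_smul_comm]
          exact Submodule.smul_mem _ t ha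
    · have e1 : f - (g₁ + MvPolynomial.X v * g₂) = j + MvPolynomial.X v * (f' - g₂) := by
        have : f = g₁ + (j + f' * MvPolynomial.X v) := by
          rw [hjy]
          ring
        rw [this]
        ring
      rw [e1]
      exact I.add_mem hj (h2 _ hg2')

end Pool.Agent.CTR
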