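import Pool.Agent.CTR.St

/-!
# CTR: the Lagrange interpolation homomorphism
-/

set_option autoImplicit false
set_option linter.unusedVariables false

noncomputable section

namespace Pool.Agent.CTR

open Matrix

section th

variable {K : Type} [CommRing K] [IsDomain K] {q : ℕ} (r : Fin q → K)

/-- the points in the fraction field -/
def th_v (s : Fin q) : FractionRing K := algebraMap K (FractionRing K) (r s)

theorem th_v_inj (hr : Function.Injective r) : Function.Injective (th_v r) :=
  (IsFractionRing.injective K (FractionRing K)).comp hr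

/-- the Lagrange polynomials -/
def th_L (s : Fin q) : Polynomial (FractionRing K) := Lagrange.basis Finset.univ (th_v r) s

theorem th_L_deg (hr : Function.Injective r) (s : Fin q) : (th_L r s).natDegree < q := by
  have h1 : (th_L r s).degree = ((Finset.univ : Finset (Fin q)).card - 1 : ℕ) :=
    Lagrange.degree_basis (fun a _ b _ h => th_v_inj r hr h) (Finset.mem_univ s)
  have h2 : (th_L r s).natDegree = (Finset.univ : Finset (Fin q)).card - 1 :=
    Polynomial.natDegree_eq_of_degree_eq_some h1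
  rw [h2, Finset.card_univ, Fintype.card_fin]
  have := s.pos
  omega

theorem th_L_eval (hr : Function.Injective r) (s t : Fin q) :
    (th_L r t).eval (th_v r s) = if t = s then 1 else 0 := by
  by_cases h : t = s
  · subst h
    rw [if_pos rfl]
    exact Lagrange.eval_basis_self (fun a _ b _ h => th_v_inj r hr h) (Finset.mem_univ t)
  · rw [if_neg h]
    exact Lagrange.eval_basis_of_ne h (Finset.mem_univ s)

/-- the images of the variables -/
def th_th (v : Vr q) : MvPolynomial (Fin q × (Fin 2 ⊕ Fin 3)) (FractionRing K) :=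
  ∑ s : Fin q, MvPolynomial.C ((th_L r s).coeff (v.2 : ℕ)) *
    (MvPolynomial.X (s, Sum.inl v.1.1) * MvPolynomial.X (s, Sum.inr v.1.2))

/-- the homomorphism -/
def th_Θ : MvPolynomial (Vr q) K →ₐ[K] MvPolynomial (Fin q × (Fin 2 ⊕ Fin 3)) (FractionRing K) :=
  MvPolynomial.aeval (th_th r)

theorem th_C (a : K) : th_Θ r (MvPolynomial.C a) =
    MvPolynomial.C (algebraMap K (FractionRing K) a) := by
  unfold th_Θ
  rw [MvPolynomial.aeval_C]
  rfl

theorem th_X (v : Vr q) : th_Θ r (MvPolynomial.X v) = th_th r v := by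
  unfold th_Θ
  rw [MvPolynomial.aeval_X]

theorem th_eval_gp (i : Fin 2) (c : Fin 3) (x : MvPolynomial (Vr q) K) :
    (gp K q i c).eval x = ∑ j : Fin q, MvPolynomial.X ((i, c), j) * x ^ (j : ℕ) := by
  unfold gp
  rw [Polynomial.eval_finset_sum]
  refine Finset.sum_congr rfl fun j _ => ?_
  rw [Polynomial.eval_mul, Polynomial.eval_C, Polynomial.eval_pow, Polynomial.eval_X]

theorem th_one (hr : Function.Injective r) (i : Fin 2) (c : Fin 3) (s : Fin q) :
    th_Θ r ((gp K q i c).eval (MvPolynomial.C (r s))) =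
      MvPolynomial.X (s, Sum.inl i) * MvPolynomial.X (s, Sum.inr c) := by
  rw [th_eval_gp, map_sum]
  have h1 : ∀ j : Fin q, th_Θ r (MvPolynomial.X ((i, c), j) * MvPolynomial.C (r s) ^ (j : ℕ)) =
      ∑ t : Fin q, MvPolynomial.C ((th_L r t).coeff (j : ℕ) * (th_v r s) ^ (j : ℕ)) *
        (MvPolynomial.X (t, Sum.inl i) * MvPolynomial.X (t, Sum.inr c)) := by
    intro j
    rw [map_mul, map_pow, th_X, th_C]
    unfold th_th
    rw [Finset.sum_mul]
    refine Finset.sum_congr rfl fun t _ => ?_
    rw [MvPolynomial.C_mul, MvPolynomial.C_pow]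
    unfold th_v
    ring
  rw [Finset.sum_congr rfl fun j _ => h1 j, Finset.sum_comm]
  have h2 : ∀ t : Fin q, (∑ j : Fin q,
      MvPolynomial.C ((th_L r t).coeff (j : ℕ) * (th_v r s) ^ (j : ℕ)) *
        (MvPolynomial.X (t, Sum.inl i) * MvPolynomial.X (t, Sum.inr c) :
          MvPolynomial (Fin q × (Fin 2 ⊕ Fin 3)) (FractionRing K))) =
      if t = s then MvPolynomial.X (t, Sum.inl i) * MvPolynomial.X (t, Sum.inr c) else 0 := by
    intro t
    rw [← Finset.sum_mul, ← map_sum]
    have h3 : (∑ j : Fin q, (th_L r t).coeff (j : ℕ) * (th_v r s) ^ (j : ℕ)) =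
        (th_L r t).eval (th_v r s) := by
      rw [Polynomial.eval_eq_sum_range' (th_L_deg r hr t) (th_v r s),
        Fin.sum_univ_eq_sum_range (fun j => (th_L r t).coeff j * (th_v r s) ^ j) q]
    rw [h3, th_L_eval r hr]
    by_cases h : t = s
    · rw [if_pos h, if_pos h, MvPolynomial.C_1, one_mul]
    · rw [if_neg h, if_neg h, MvPolynomial.C_0, zero_mul]
  rw [Finset.sum_congr rfl fun t _ => h2 t, Finset.sum_ite_eq' Finset.univ s]
  simp

theorem th_rel (hr : Function.Injective r) (c c' : Fin 3) (m : Fin q) :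
    th_Θ r (rel r c c' m) = 0 := by
  set φ : MvPolynomial (Vr q) K →+*
    MvPolynomial (Fin q × (Fin 2 ⊕ Fin 3)) (FractionRing K) := (th_Θ r).toRingHom with hφ
  have hφa : ∀ x, th_Θ r x = φ x := fun x => rfl
  set D : Polynomial (MvPolynomial (Vr q) K) :=
    (dr r).map (MvPolynomial.C : K →+* MvPolynomial (Vr q) K) with hD
  have hDm : D.Monic := by
    rw [hD]
    unfold dr
    exact (Polynomial.monic_prod_of_monic _ _ fun s _ => Polynomial.monic_X_sub_C _).map _
  set g : Polynomial (MvPolynomial (Vr q) K) :=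
    gp K q 0 c' * gp K q 1 c - gp K q 0 c * gp K q 1 c' with hg
  have h0 : rel r c c' m = (g %ₘ D).coeff m := rfl
  rw [h0, hφa, ← Polynomial.coeff_map, Polynomial.map_modByMonic φ hDm]
  have hdeg : (D.map φ).natDegree = q := by
    rw [hDm.natDegree_map, hD]
    unfold dr
    rw [Polynomial.natDegree_map_eq_of_injective (MvPolynomial.C_injective _ _),
      Polynomial.natDegree_prod_of_monic _ _ fun s _ => Polynomial.monic_X_sub_C _]
    simp
  have hroot : ∀ s : Fin q, (D.map φ).eval (φ (MvPolynomial.C (r s))) = 0 := by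
    intro s
    rw [Polynomial.eval_map, Polynomial.eval₂_at_apply, hD]
    have h1 : ((dr r).map (MvPolynomial.C : K →+* MvPolynomial (Vr q) K)).eval
        (MvPolynomial.C (r s)) = 0 := by
      rw [Polynomial.eval_map, Polynomial.eval₂_at_apply]
      unfold dr
      rw [Polynomial.eval_prod, Finset.prod_eq_zero (Finset.mem_univ s), map_zero]
      simp
    rw [h1, map_zero]
  have hgz : ∀ s : Fin q, (g.map φ).eval (φ (MvPolynomial.C (r s))) = 0 := by
    intro s
    rw [Polynomial.eval_map, Polynomial.eval₂_at_apply, hg, Polynomial.eval_sub,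
      Polynomial.eval_mul, Polynomial.eval_mul, map_sub, map_mul, map_mul, ← hφa, ← hφa, ← hφa,
      ← hφa, th_one r hr, th_one r hr, th_one r hr, th_one r hr]
    ring
  have hinj : Function.Injective fun s : Fin q => φ (MvPolynomial.C (r s)) := by
    intro s t h
    have h1 : φ (MvPolynomial.C (r s)) = φ (MvPolynomial.C (r t)) := h
    rw [← hφa, ← hφa, th_C, th_C] at h1
    exact th_v_inj r hr (MvPolynomial.C_injective _ _ h1)
  have hz : (g.map φ) %ₘ (D.map φ) = 0 := by
    refine Polynomial.eq_zero_of_natDegree_lt_card_of_eval_eq_zero _ hinj ?_ ?_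
    · intro s
      have h1 := Polynomial.modByMonic_add_div (g.map φ) (D.map φ)
      have h2 := congrArg (Polynomial.eval (φ (MvPolynomial.C (r s)))) h1
      rw [Polynomial.eval_add, Polynomial.eval_mul, hroot, zero_mul, add_zero, hgz] at h2
      exact h2
    · rw [Fintype.card_fin]
      have hq : 0 < q := m.pos
      have hne : D.map φ ≠ 1 := by
        intro h
        rw [h, Polynomial.natDegree_one] at hdeg
        omega
      have := Polynomial.natDegree_modByMonic_lt (g.map φ) (hDm.map φ) hne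
      omega
  rw [hz, Polynomial.coeff_zero]

theorem th_wh (i : Fin 2) (v : Vr q) : MvPolynomial.IsWeightedHomogeneous
    (fun v : Fin q × (Fin 2 ⊕ Fin 3) => if v.2 = Sum.inl i then 1 else 0)
    (th_th r v) (if v.1.1 = i then 1 else 0) := by
  unfold th_th
  refine MvPolynomial.IsWeightedHomogeneous.sum _ _ _ fun s _ => ?_
  have h1 := MvPolynomial.isWeightedHomogeneous_X (R := FractionRing K)
    (fun v : Fin q × (Fin 2 ⊕ Fin 3) => if v.2 = Sum.inl i then 1 else 0) (s, Sum.inl v.1.1)
  have h2 := MvPolynomial.isWeightedHomogeneous_X (R := FractionRing K)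
    (fun v : Fin q × (Fin 2 ⊕ Fin 3) => if v.2 = Sum.inl i then 1 else 0) (s, Sum.inr v.1.2)
  have h3 := MvPolynomial.isWeightedHomogeneous_C (R := FractionRing K)
    (fun v : Fin q × (Fin 2 ⊕ Fin 3) => if v.2 = Sum.inl i then 1 else 0)
    ((th_L r s).coeff (v.2 : ℕ))
  have h4 := h3.mul (h1.mul h2)
  have h5 : (0 : ℕ) + ((if (Sum.inl v.1.1 : Fin 2 ⊕ Fin 3) = Sum.inl i then 1 else 0) +
      (if (Sum.inr v.1.2 : Fin 2 ⊕ Fin 3) = Sum.inl i then 1 else 0)) =
      if v.1.1 = i then 1 else 0 := by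
    by_cases h : v.1.1 = i
    · simp [h]
    · simp [h]
  rw [← h5]
  exact h4

theorem th_mon (i : Fin 2) (μ : Vr q →₀ ℕ) : MvPolynomial.IsWeightedHomogeneous
    (fun v : Fin q × (Fin 2 ⊕ Fin 3) => if v.2 = Sum.inl i then 1 else 0)
    (th_Θ r (MvPolynomial.monomial μ 1)) (bd i μ) := by
  have h1 : th_Θ r (MvPolynomial.monomial μ 1) = ∏ v : Vr q, th_th r v ^ μ v := by
    unfold th_Θ
    rw [MvPolynomial.aeval_monomial, map_one, one_mul]
    exact Finsupp.prod_fintype _ _ fun v => pow_zero _
  have h2 : bd i μ = ∑ v : Vr q, μ v • (if v.1.1 = i then 1 else 0 : ℕ) := by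
    unfold bd
    rw [Fintype.sum_prod_type, Fintype.sum_prod_type]
    have h3 : ∀ x : Fin 2, (∑ c : Fin 3, ∑ s : Fin q,
        μ ((x, c), s) • (if x = i then 1 else 0 : ℕ)) =
        if x = i then ∑ c : Fin 3, ∑ s : Fin q, μ ((x, c), s) else 0 := by
      intro x
      by_cases h : x = i
      · simp [h]
      · simp [h]
    have h4 : (∑ x : Fin 2, ∑ c : Fin 3, ∑ s : Fin q,
        μ ((x, c), s) • (if x = i then 1 else 0 : ℕ)) =
        ∑ c : Fin 3, ∑ s : Fin q, μ ((i, c), s) := by
      rw [Finset.sum_congr rfl fun x _ => h3 x, Finset.sum_ite_eq' Finset.univ i]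
      simp
    exact h4.symm
  rw [h1, h2]
  exact MvPolynomial.IsWeightedHomogeneous.prod _ _ _ fun v _ => (th_wh r i v).pow (μ v)

end th

theorem thm_TH : St_TH := by
  intro K _ _ q r hr
  refine ⟨th_Θ r, fun i c s => th_one r hr i c s, ?_, fun i μ => th_mon r i μ⟩
  intro f hf
  have h1 : IW r ≤ RingHom.ker (th_Θ r).toRingHom := by
    unfold IW
    rw [Ideal.span_le]
    rintro f ⟨c, c', m, -, rfl⟩
    exact th_rel r hr c c' m
  exact h1 hf

end Pool.Agent.CTR
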