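import Pool.Agent.CTR.St

/-!
# CTR: Uni

Reducedness of the part of the commuting scheme where `x^j e_1`, `x^j e_2` are a basis.
-/

set_option autoImplicit false
set_option linter.unusedVariables false

noncomputable section

namespace Pool.Agent.CTR

open Matrix

/-- Evaluation at two matrices, the coefficients being mapped by `g`. -/
def uni_ev {ι k S : Type} [CommRing k] [CommRing S] (g : k →+* S) (A B : Matrix ι ι S) :
    Rg ι k →+* S :=
  MvPolynomial.eval₂Hom g fun v => if v.1 = 0 then A v.2.1 v.2.2 else B v.2.1 v.2.2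

lemma uni_ev_comp {ι k S T : Type} [CommRing k] [CommRing S] [CommRing T] (g : k →+* S)
    (h : S →+* T) (A B : Matrix ι ι S) :
    h.comp (uni_ev g A B) = uni_ev (h.comp g) (A.map h) (B.map h) := by
  apply MvPolynomial.ringHom_ext
  · intro a
    simp [uni_ev]
  · intro v
    simp only [uni_ev, RingHom.comp_apply, MvPolynomial.eval₂Hom_X', Matrix.map_apply]
    split_ifs <;> rfl

lemma uni_ev_kill {ι k S : Type} [Fintype ι] [CommRing k] [CommRing S] (g : k →+* S)
    (A B : Matrix ι ι S) (hAB : A * B = B * A) (f : Rg ι k) (hf : f ∈ comI ι k) :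
    uni_ev g A B f = 0 := by
  have hle : comI ι k ≤ RingHom.ker (uni_ev g A B) := by
    rw [comI, Ideal.span_le]
    rintro _ ⟨i, j, rfl⟩
    change uni_ev g A B _ = 0
    have hX : ∀ i j, uni_ev g A B (mX ι k i j) = A i j := by
      intro i j; simp [uni_ev, mX]
    have hY : ∀ i j, uni_ev g A B (mY ι k i j) = B i j := by
      intro i j; simp [uni_ev, mY]
    rw [Matrix.sub_apply, Matrix.mul_apply, Matrix.mul_apply, map_sub, map_sum, map_sum]
    simp only [map_mul, hX, hY]
    rw [← Matrix.mul_apply, ← Matrix.mul_apply, hAB, sub_self]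
  exact hle hf

lemma uni_aeval {ι S T : Type} [Fintype ι] [DecidableEq ι] [CommRing S] [CommRing T] (h : S →+* T)
    (x : Matrix ι ι S) (r : Polynomial S) :
    (Polynomial.aeval x r).map h = Polynomial.aeval (x.map h) (r.map h) := by
  change h.mapMatrix (Polynomial.aeval x r) = Polynomial.aeval (h.mapMatrix x) (r.map h)
  induction r using Polynomial.induction_on' with
  | add p q hp hq => simp only [map_add, Polynomial.map_add, hp, hq]
  | monomial n a =>
    rw [Polynomial.aeval_monomial, Polynomial.map_monomial, Polynomial.aeval_monomial, map_mul,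
      map_pow]
    congr 1
    rw [Matrix.algebraMap_eq_diagonal, Matrix.algebraMap_eq_diagonal, RingHom.mapMatrix_apply,
      Matrix.diagonal_map (map_zero h)]
    rfl

lemma uni_mulVec {ι S T : Type} [Fintype ι] [CommRing S] [CommRing T] (h : S →+* T)
    (x : Matrix ι ι S) (v : ι → S) : (fun i => h ((x *ᵥ v) i)) = (x.map h) *ᵥ (fun i => h (v i)) := by
  funext i
  simp only [Matrix.mulVec, dotProduct, map_sum, map_mul, Matrix.map_apply]

lemma uni_pv {ι S T : Type} [Fintype ι] [DecidableEq ι] [CommRing S] [CommRing T] (h : S →+* T)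
    (x : Matrix ι ι S) (r : Polynomial S) (v : ι → S) :
    (fun i => h (pv x r v i)) = pv (x.map h) (r.map h) (fun i => h (v i)) := by
  rw [pv, pv, ← uni_aeval, ← uni_mulVec]

lemma uni_hv {S T : Type} [CommRing S] [CommRing T] (h : S →+* T) {p q : ℕ}
    (x : Matrix (Fin p ⊕ Fin q) (Fin p ⊕ Fin q) S) (v w : Fin p ⊕ Fin q → S) :
    (hv x v w).map h = hv (x.map h) (fun i => h (v i)) (fun i => h (w i)) := by
  have hp : ∀ n : ℕ, (x ^ n).map h = (x.map h) ^ n := fun n => map_pow h.mapMatrix x n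
  ext i j
  rcases j with j | j
  · simp only [hv, Matrix.map_apply, Sum.elim_inl]
    rw [← hp]
    exact congrFun (uni_mulVec h _ _) i
  · simp only [hv, Matrix.map_apply, Sum.elim_inr]
    rw [← hp]
    exact congrFun (uni_mulVec h _ _) i

lemma uni_e1 {S T : Type} [CommRing S] [CommRing T] (h : S →+* T) (p q : ℕ) [NeZero p] :
    (fun i => h (e1 S p q i)) = e1 T p q := by
  funext i
  simp only [e1, Pi.single_apply]
  split_ifs <;> simp

lemma uni_e2 {S T : Type} [CommRing S] [CommRing T] (h : S →+* T) (p q : ℕ) [NeZero q] :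
    (fun i => h (e2 S p q i)) = e2 T p q := by
  funext i
  simp only [e2, Pi.single_apply]
  split_ifs <;> simp

lemma uni_hm {S T : Type} [CommRing S] [CommRing T] (h : S →+* T) {p q : ℕ} [NeZero p] [NeZero q]
    (x : Matrix (Fin p ⊕ Fin q) (Fin p ⊕ Fin q) S) : (hm x).map h = hm (x.map h) := by
  rw [hm, uni_hv, uni_e1, uni_e2]
  rfl

lemma uni_cx {S T : Type} [CommRing S] [CommRing T] (h : S →+* T) (p q : ℕ)
    (a b c d : Polynomial S) :
    (cx p q a b c d).map h = cx p q (a.map h) (b.map h) (c.map h) (d.map h) := by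
  have hA : ∀ (c : Prop) [Decidable c] (s t : S), h (if c then s else t) = if c then h s else h t :=
    fun c _ s t => apply_ite h c s t
  ext i j
  rcases i with i | i <;> rcases j with j | j
  · change h (if (j : ℕ) + 1 = p then -a.coeff i else if (i : ℕ) = j + 1 then 1 else 0) =
      (if (j : ℕ) + 1 = p then -(a.map h).coeff i else if (i : ℕ) = j + 1 then 1 else 0)
    simp only [hA, map_neg, map_one, map_zero, Polynomial.coeff_map]
  · change h (if (j : ℕ) + 1 = q then -b.coeff i else 0) =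
      (if (j : ℕ) + 1 = q then -(b.map h).coeff i else 0)
    simp only [hA, map_neg, map_zero, Polynomial.coeff_map]
  · change h (if (j : ℕ) + 1 = p then -c.coeff i else 0) =
      (if (j : ℕ) + 1 = p then -(c.map h).coeff i else 0)
    simp only [hA, map_neg, map_zero, Polynomial.coeff_map]
  · change h (if (j : ℕ) + 1 = q then -d.coeff i else if (i : ℕ) = j + 1 then 1 else 0) =
      (if (j : ℕ) + 1 = q then -(d.map h).coeff i else if (i : ℕ) = j + 1 then 1 else 0)
    simp only [hA, map_neg, map_one, map_zero, Polynomial.coeff_map]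

lemma uni_nfx {S T : Type} [CommRing S] [CommRing T] (h : S →+* T) (p q : ℕ)
    (d m : Polynomial S) (P : Fin 3 → Polynomial S) :
    (nfx p q d m P).map h = nfx p q (d.map h) (m.map h) (fun c => (P c).map h) := by
  rw [nfx, uni_cx, Polynomial.map_add, Polynomial.map_mul]
  rfl

lemma uni_cy {S T : Type} [CommRing S] [CommRing T] (h : S →+* T) {p q : ℕ} [NeZero p] [NeZero q]
    (x : Matrix (Fin p ⊕ Fin q) (Fin p ⊕ Fin q) S) (r₁ s₁ r₂ s₂ : Polynomial S) :
    (cy x r₁ s₁ r₂ s₂).map h =
      cy (x.map h) (r₁.map h) (s₁.map h) (r₂.map h) (s₂.map h) := by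
  rw [cy, uni_hv, cy]
  congr 1
  · funext i
    rw [Pi.add_apply, Pi.add_apply, map_add, ← uni_e1 h, ← uni_e2 h, ← uni_pv, ← uni_pv]
  · funext i
    rw [Pi.add_apply, Pi.add_apply, map_add, ← uni_e1 h, ← uni_e2 h, ← uni_pv, ← uni_pv]

lemma uni_nfy {S T : Type} [CommRing S] [CommRing T] (h : S →+* T) (p q : ℕ) [NeZero p] [NeZero q]
    (d m u : Polynomial S) (P T' : Fin 3 → Polynomial S) (hd : d.Monic) :
    (nfy p q d m u P T').map h = nfy p q (d.map h) (m.map h) (u.map h) (fun c => (P c).map h)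
      (fun c => (T' c).map h) := by
  rw [nfy, uni_cy, uni_nfx]
  simp only [Polynomial.map_add, Polynomial.map_mul, Polynomial.map_sub, Polynomial.map_neg,
    Polynomial.map_divByMonic h hd]
  rfl

/-- The polynomial with the coefficients `a`. -/
def uni_pol {S : Type} [CommRing S] (n : ℕ) (a : Fin n → S) : Polynomial S :=
  ∑ j : Fin n, Polynomial.C (a j) * Polynomial.X ^ (j : ℕ)

lemma uni_pol_map {S T : Type} [CommRing S] [CommRing T] (h : S →+* T) (n : ℕ) (a : Fin n → S) :
    (uni_pol n a).map h = uni_pol n (fun j => h (a j)) := by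
  simp only [uni_pol, Polynomial.map_sum, Polynomial.map_mul, Polynomial.map_C, Polynomial.map_pow,
    Polynomial.map_X]

lemma uni_pol_deg {S : Type} [CommRing S] (n : ℕ) (a : Fin n → S) : (uni_pol n a).degree < n :=
  Polynomial.degree_sum_fin_lt a

lemma uni_pol_eq {S : Type} [CommRing S] (n : ℕ) (r : Polynomial S) (hr : r.degree < n) :
    uni_pol n (fun j => r.coeff j) = r := by
  ext i
  rw [uni_pol, Polynomial.finsetSum_coeff]
  simp only [Polynomial.coeff_C_mul, Polynomial.coeff_X_pow]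
  by_cases hi : i < n
  · rw [Finset.sum_eq_single ⟨i, hi⟩]
    · simp
    · intro b _ hb
      rw [if_neg (fun h => hb (Fin.ext h.symm)), mul_zero]
    · intro h
      exact absurd (Finset.mem_univ _) h
  · rw [Polynomial.coeff_eq_zero_of_degree_lt (lt_of_lt_of_le hr (by exact_mod_cast not_lt.mp hi))]
    apply Finset.sum_eq_zero
    intro b _
    rw [if_neg (fun h : i = (b : ℕ) => hi (by rw [h]; exact b.2)), mul_zero]

lemma uni_dr_monic {K : Type} [CommRing K] {q : ℕ} (r : Fin q → K) : (dr r).Monic :=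
  Polynomial.monic_prod_of_monic _ _ fun s _ => Polynomial.monic_X_sub_C (r s)

lemma uni_dr_deg {K : Type} [CommRing K] [Nontrivial K] {q : ℕ} (r : Fin q → K) :
    (dr r).natDegree = q := by
  rw [dr, Polynomial.natDegree_prod_of_monic _ _ fun s _ => Polynomial.monic_X_sub_C (r s)]
  simp

lemma uni_dr_map {K L : Type} [CommRing K] [CommRing L] {q : ℕ} (h : K →+* L) (r : Fin q → K) :
    (dr r).map h = dr (fun s => h (r s)) := by
  rw [dr, Polynomial.map_prod, dr]
  simp only [Polynomial.map_sub, Polynomial.map_X, Polynomial.map_C]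

lemma uni_rem {K B : Type} [CommRing K] [CommRing B] {q : ℕ} (r : Fin q → K)
    (h : MvPolynomial (Vr q) K →+* B) (c c' : Fin 3) (m : Fin q) :
    h (rel r c c' m) = (((gp K q 0 c').map h * (gp K q 1 c).map h -
      (gp K q 0 c).map h * (gp K q 1 c').map h) %ₘ
      (dr r).map (h.comp MvPolynomial.C)).coeff m := by
  have hD : ((dr r).map (MvPolynomial.C : K →+* MvPolynomial (Vr q) K)).Monic :=
    (uni_dr_monic r).map _
  rw [rel, ← Polynomial.coeff_map, Polynomial.map_modByMonic h hD, Polynomial.map_map,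
    Polynomial.map_sub, Polynomial.map_mul, Polynomial.map_mul]

lemma uni_NF {K B : Type} [CommRing K] [Nontrivial K] [CommRing B] [Nontrivial B] (p q : ℕ)
    (r : Fin q → K) (h : MvPolynomial (Vr q) K →+* B) (hI : ∀ f ∈ IW r, h f = 0)
    (m u : Polynomial B) (hm : m.Monic) (hmd : m.natDegree = p - q) (hu : u.degree < p) :
    NF p q ((dr r).map (h.comp MvPolynomial.C)) m u (fun c => (gp K q 0 c).map h)
      (fun c => (gp K q 1 c).map h) := by
  have hDm : ((dr r).map (h.comp MvPolynomial.C)).Monic := (uni_dr_monic r).map _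
  have hDd : ((dr r).map (h.comp MvPolynomial.C)).natDegree = q := by
    rw [(uni_dr_monic r).natDegree_map, uni_dr_deg]
  have key : ∀ c c' : Fin 3, c < c' → (dr r).map (h.comp MvPolynomial.C) ∣
      (gp K q 0 c').map h * (gp K q 1 c).map h - (gp K q 0 c).map h * (gp K q 1 c').map h := by
    intro c c' hc
    rw [← Polynomial.modByMonic_eq_zero_iff_dvd hDm]
    ext i
    rw [Polynomial.coeff_zero]
    by_cases hi : i < q
    · have := uni_rem r h c c' ⟨i, hi⟩
      rw [← this]
      exact hI _ (Ideal.subset_span ⟨c, c', ⟨i, hi⟩, hc, rfl⟩)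
    · apply Polynomial.coeff_eq_zero_of_degree_lt
      refine lt_of_lt_of_le (Polynomial.degree_modByMonic_lt _ hDm) ?_
      rw [Polynomial.degree_eq_natDegree hDm.ne_zero, hDd]
      exact_mod_cast not_lt.mp hi
  refine ⟨hDm, hDd, hm, hmd, hu, fun c => ?_, fun c => ?_, fun c c' => ?_⟩
  · change ((uni_pol q _).map h).degree < q
    rw [uni_pol_map]
    exact uni_pol_deg q _
  · change ((uni_pol q _).map h).degree < q
    rw [uni_pol_map]
    exact uni_pol_deg q _
  · rcases lt_trichotomy c c' with hc | hc | hc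
    · exact key c c' hc
    · subst hc
      rw [sub_self]
      exact dvd_zero _
    · have := (key c' c hc)
      rw [← dvd_neg, neg_sub] at this
      exact this

/-- The universal ring. -/
lemma uni_univ (Q : Type) [CommRing Q] (J : Ideal Q) (hJ : J.IsPrime) (α ι : Type) [Fintype ι]
    [DecidableEq ι] :
    ∃ (W : Type) (_ : CommRing W) (_ : IsDomain W) (hW : Q →+* W) (a : α → W) (H : Matrix ι ι W),
      IsUnit H.det ∧ (∀ f ∈ J, hW f = 0) ∧
      ∀ (S : Type) [CommRing S] (h : Q →+* S), (∀ f ∈ J, h f = 0) →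
        ∀ (a' : α → S) (H' : Matrix ι ι S), IsUnit H'.det →
          ∃ ψ : W →+* S, ψ.comp hW = h ∧ (∀ j, ψ (a j) = a' j) ∧ H.map ψ = H' := by
  have : IsDomain (Q ⧸ J) := Ideal.Quotient.isDomain J
  let W₀ := MvPolynomial (α ⊕ (ι × ι)) (Q ⧸ J)
  let H₀ : Matrix ι ι W₀ := fun i j => MvPolynomial.X (Sum.inr (i, j))
  have hH₀ : H₀.det ≠ 0 := by
    intro h0
    let ε : W₀ →+* (Q ⧸ J) := MvPolynomial.eval₂Hom (RingHom.id (Q ⧸ J))
      (Sum.elim (fun _ => 0) (fun v => (1 : Matrix ι ι (Q ⧸ J)) v.1 v.2))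
    have hX : ∀ v, ε (MvPolynomial.X v) =
        Sum.elim (fun _ => 0) (fun v => (1 : Matrix ι ι (Q ⧸ J)) v.1 v.2) v :=
      fun v => MvPolynomial.eval₂Hom_X' _ _ v
    have h1 : ε H₀.det = 1 := by
      rw [RingHom.map_det]
      have h2 : ε.mapMatrix H₀ = 1 := by
        ext i j
        change ε (MvPolynomial.X (Sum.inr (i, j))) = _
        rw [hX]
        rfl
      rw [h2, Matrix.det_one]
    rw [h0, map_zero] at h1
    exact zero_ne_one h1
  let W := Localization.Away H₀.det
  let l : W₀ →+* W := algebraMap W₀ W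
  have hdom : IsDomain W := by
    apply IsLocalization.isDomain_localization
    apply powers_le_nonZeroDivisors_of_noZeroDivisors
    exact hH₀
  refine ⟨W, inferInstance, hdom, l.comp (MvPolynomial.C.comp (Ideal.Quotient.mk J)),
    fun j => l (MvPolynomial.X (Sum.inl j)), H₀.map l, ?_, ?_, ?_⟩
  · have h1 : (H₀.map l).det = l H₀.det := (RingHom.map_det l H₀).symm
    rw [h1]
    exact IsLocalization.Away.algebraMap_isUnit H₀.det
  · intro f hf
    rw [RingHom.comp_apply, RingHom.comp_apply, Ideal.Quotient.eq_zero_iff_mem.mpr hf, map_zero,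
      map_zero]
  · intro S _ h hh a' H' hH'
    let ψ₂ : (Q ⧸ J) →+* S := Ideal.Quotient.lift J h hh
    let ψ₃ : W₀ →+* S := MvPolynomial.eval₂Hom ψ₂ (Sum.elim a' (fun v => H' v.1 v.2))
    have hX : ∀ v, ψ₃ (MvPolynomial.X v) = Sum.elim a' (fun v => H' v.1 v.2) v :=
      fun v => MvPolynomial.eval₂Hom_X' _ _ v
    have hC : ∀ v, ψ₃ (MvPolynomial.C v) = ψ₂ v := fun v => MvPolynomial.eval₂Hom_C _ _ v
    have h3 : H₀.map ψ₃ = H' := by
      ext i j
      change ψ₃ (MvPolynomial.X (Sum.inr (i, j))) = _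
      rw [hX]
      rfl
    have h4 : IsUnit (ψ₃ H₀.det) := by
      rw [RingHom.map_det]
      change IsUnit (H₀.map ψ₃).det
      rw [h3]
      exact hH'
    have h5 : ∀ w : W₀, (IsLocalization.Away.lift H₀.det h4 : W →+* S) (l w) = ψ₃ w :=
      fun w => IsLocalization.Away.lift_eq H₀.det h4 w
    refine ⟨IsLocalization.Away.lift H₀.det h4, ?_, ?_, ?_⟩
    · ext w
      rw [RingHom.comp_apply, RingHom.comp_apply, h5, RingHom.comp_apply, hC]
      exact Ideal.Quotient.lift_mk J h hh
    · intro j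
      rw [h5, hX]
      rfl
    · rw [← h3]
      ext i j
      rw [Matrix.map_apply, Matrix.map_apply, h5, Matrix.map_apply]

lemma uni_conj {ι S : Type} [Fintype ι] [DecidableEq ι] [CommRing S] (H x x' : Matrix ι ι S)
    (hH : IsUnit H.det) (h : x * H = x' * H) : x = x' := by
  have h1 := congrArg (fun z => z * H⁻¹) h
  simp only [Matrix.mul_assoc, Matrix.mul_nonsing_inv H hH, Matrix.mul_one] at h1
  exact h1

lemma uni_main (hNFB : St_NFB) (hPrm : St_Prm) (k : Type) [Field k] (p q : ℕ) [NeZero p]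
    [NeZero q] (hqp : q ≤ p) (f : Rg (Fin p ⊕ Fin q) k)
    (hf : ∃ m : ℕ, f ^ m ∈ comI (Fin p ⊕ Fin q) k)
    (S : Type) [CommRing S] [Nontrivial S] (g : k →+* S) (r : Fin q → S) (m u : Polynomial S)
    (P T : Fin 3 → Polynomial S) (hN : NF p q (dr r) m u P T)
    (H x y : Matrix (Fin p ⊕ Fin q) (Fin p ⊕ Fin q) S) (hH : IsUnit H.det)
    (hx : x * H = H * nfx p q (dr r) m P) (hy : y * H = H * nfy p q (dr r) m u P T) :
    uni_ev g x y f = 0 := by
  let K := MvPolynomial (Fin q) k
  let rK : Fin q → K := MvPolynomial.X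
  have hrK : Function.Injective rK := MvPolynomial.X_injective
  obtain ⟨W, _, _, hW, a, HW, hHW, hIW, huniv⟩ := uni_univ (MvPolynomial (Vr q) K) (IW rK)
    (hPrm K q rK hrK) (Fin (p - q) ⊕ Fin p) (Fin p ⊕ Fin q)
  -- the specialization
  let ψK : K →+* S := MvPolynomial.eval₂Hom g r
  let ψ₁ : MvPolynomial (Vr q) K →+* S := MvPolynomial.eval₂Hom ψK
    (fun v => if v.1.1 = 0 then (P v.1.2).coeff v.2 else (T v.1.2).coeff v.2)
  have hψK : ∀ s, ψK (rK s) = r s := fun s => MvPolynomial.eval₂Hom_X' _ _ s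
  have hψC : ψ₁.comp MvPolynomial.C = ψK := by
    ext z
    · exact MvPolynomial.eval₂Hom_C _ _ _
    · exact MvPolynomial.eval₂Hom_C _ _ _
  have hd : (dr rK).map (ψ₁.comp MvPolynomial.C) = dr r := by
    rw [hψC, uni_dr_map]
    simp only [hψK]
  have hψX : ∀ v, ψ₁ (MvPolynomial.X v) =
      if v.1.1 = 0 then (P v.1.2).coeff v.2 else (T v.1.2).coeff v.2 :=
    fun v => MvPolynomial.eval₂Hom_X' _ _ v
  have hP : ∀ c, (gp K q 0 c).map ψ₁ = P c := by
    intro c
    change (uni_pol q (fun j => MvPolynomial.X (((0 : Fin 2), c), j))).map ψ₁ = P c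
    rw [uni_pol_map]
    simp only [hψX, if_true]
    exact uni_pol_eq q (P c) (hN.Pd c)
  have hT : ∀ c, (gp K q 1 c).map ψ₁ = T c := by
    intro c
    change (uni_pol q (fun j => MvPolynomial.X (((1 : Fin 2), c), j))).map ψ₁ = T c
    rw [uni_pol_map]
    simp only [hψX, if_neg (one_ne_zero : (1 : Fin 2) ≠ 0)]
    exact uni_pol_eq q (T c) (hN.Td c)
  have hkill : ∀ z ∈ IW rK, ψ₁ z = 0 := by
    have hle : IW rK ≤ RingHom.ker ψ₁ := by
      rw [IW, Ideal.span_le]
      rintro _ ⟨c, c', j, hc, rfl⟩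
      change ψ₁ _ = 0
      rw [uni_rem, hd, hP, hP, hT, hT,
        (Polynomial.modByMonic_eq_zero_iff_dvd hN.dm).mpr (hN.dv c c'), Polynomial.coeff_zero]
    exact fun z hz => hle hz
  have hmX : (m - Polynomial.X ^ (p - q)).degree < ((p - q : ℕ) : WithBot ℕ) := by
    have h1 : m.degree = ((p - q : ℕ) : WithBot ℕ) := by
      rw [Polynomial.degree_eq_natDegree hN.mm.ne_zero, hN.md]
    rw [← h1]
    apply Polynomial.degree_sub_lt_left
    · rw [h1, Polynomial.degree_X_pow]
    · exact hN.mm.ne_zero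
    · rw [hN.mm.leadingCoeff, (Polynomial.monic_X_pow (p - q)).leadingCoeff]
  obtain ⟨ψ, hψh, hψa, hψH⟩ := huniv S ψ₁ hkill
    (Sum.elim (fun j => (m - Polynomial.X ^ (p - q)).coeff j) (fun j => u.coeff j)) H hH
  -- the generic data
  let dW : Polynomial W := (dr rK).map (hW.comp MvPolynomial.C)
  let mW : Polynomial W := Polynomial.X ^ (p - q) + uni_pol (p - q) (fun j => a (Sum.inl j))
  let uW : Polynomial W := uni_pol p (fun j => a (Sum.inr j))
  let PW : Fin 3 → Polynomial W := fun c => (gp K q 0 c).map hW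
  let TW : Fin 3 → Polynomial W := fun c => (gp K q 1 c).map hW
  have hmW : mW.Monic := Polynomial.monic_X_pow_add (uni_pol_deg _ _)
  have hmWd : mW.natDegree = p - q := by
    apply Polynomial.natDegree_eq_of_degree_eq_some
    rw [Polynomial.degree_add_eq_left_of_degree_lt, Polynomial.degree_X_pow]
    rw [Polynomial.degree_X_pow]
    exact uni_pol_deg _ _
  have hNW : NF p q dW mW uW PW TW := uni_NF p q rK hW hIW mW uW hmW hmWd (uni_pol_deg _ _)
  have hdψ : dW.map ψ = dr r := by
    rw [← hd, Polynomial.map_map, ← RingHom.comp_assoc, hψh]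
  have hmψ : mW.map ψ = m := by
    rw [Polynomial.map_add, uni_pol_map, Polynomial.map_pow, Polynomial.map_X]
    simp only [hψa, Sum.elim_inl]
    rw [uni_pol_eq _ _ hmX]
    ring
  have huψ : uW.map ψ = u := by
    rw [uni_pol_map]
    simp only [hψa, Sum.elim_inr]
    exact uni_pol_eq _ _ hN.ud
  have hPψ : (fun c => (PW c).map ψ) = P := by
    funext c
    rw [← hP c, ← hψh, ← Polynomial.map_map]
  have hTψ : (fun c => (TW c).map ψ) = T := by
    funext c
    rw [← hT c, ← hψh, ← Polynomial.map_map]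
  have hcomm := hNFB W p q hqp dW mW uW PW TW hNW
  let XW := HW * nfx p q dW mW PW * HW⁻¹
  let YW := HW * nfy p q dW mW uW PW TW * HW⁻¹
  have hinv : HW⁻¹ * HW = 1 := Matrix.nonsing_inv_mul HW hHW
  have hXY : XW * YW = YW * XW := by
    have e1 : ∀ A B : Matrix (Fin p ⊕ Fin q) (Fin p ⊕ Fin q) W,
        (HW * A * HW⁻¹) * (HW * B * HW⁻¹) = HW * (A * B) * HW⁻¹ := by
      intro A B
      have : (HW * A * HW⁻¹) * (HW * B * HW⁻¹) = HW * A * (HW⁻¹ * HW) * B * HW⁻¹ := by
        simp only [Matrix.mul_assoc]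
      rw [this, hinv, Matrix.mul_one, Matrix.mul_assoc HW A B]
    rw [e1, e1, hcomm]
  have hXψ : XW.map ψ = x := by
    apply uni_conj H _ _ hH
    rw [hx]
    have h1 : XW * HW = HW * nfx p q dW mW PW := by
      rw [Matrix.mul_assoc, hinv, Matrix.mul_one]
    have h2 := congrArg (fun z => z.map ψ) h1
    simp only [Matrix.map_mul] at h2
    rw [hψH, uni_nfx, hdψ, hmψ, hPψ] at h2
    exact h2
  have hYψ : YW.map ψ = y := by
    apply uni_conj H _ _ hH
    rw [hy]
    have h1 : YW * HW = HW * nfy p q dW mW uW PW TW := by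
      rw [Matrix.mul_assoc, hinv, Matrix.mul_one]
    have h2 := congrArg (fun z => z.map ψ) h1
    simp only [Matrix.map_mul] at h2
    rw [hψH, uni_nfy ψ p q dW mW uW PW TW hNW.dm, hdψ, hmψ, huψ, hPψ, hTψ] at h2
    exact h2
  let gW : k →+* W := hW.comp (MvPolynomial.C.comp MvPolynomial.C)
  have hgψ : ψ.comp gW = g := by
    rw [← RingHom.comp_assoc, hψh, ← RingHom.comp_assoc, hψC]
    ext z
    exact MvPolynomial.eval₂Hom_C _ _ _
  have hzero : uni_ev gW XW YW f = 0 := by
    obtain ⟨n, hn⟩ := hf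
    have h1 := uni_ev_kill gW XW YW hXY _ hn
    rw [map_pow] at h1
    by_contra hne
    exact pow_ne_zero n hne h1
  have h3 : (ψ.comp (uni_ev gW XW YW)) f = 0 := by
    rw [RingHom.comp_apply, hzero, map_zero]
  rw [uni_ev_comp, hgψ, hXψ, hYψ] at h3
  exact h3

lemma uni_cast {S : Type} [CommRing S] {a b : ℕ} (h : a = b) (r : Fin a → S) :
    ∃ r' : Fin b → S, dr r' = dr r := by
  subst h
  exact ⟨r, rfl⟩

theorem thm_Uni (hNFA : St_NFA) (hNFB : St_NFB) (hSpl : St_Spl) (hPrm : St_Prm) : St_Uni := by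
  intro k _ p q _ _ hqp f hf
  let ι := Fin p ⊕ Fin q
  let I := comI ι k
  let A := Rg ι k ⧸ I
  let π : Rg ι k →+* A := Ideal.Quotient.mk I
  let δ : Rg ι k := (hm (mX ι k)).det
  let S := Localization.Away (π δ)
  let l : A →+* S := algebraMap A S
  let φ : Rg ι k →+* S := l.comp π
  suffices hφ : φ f = 0 by
    have h1 : algebraMap A S (π f) = 0 := hφ
    rw [IsLocalization.map_eq_zero_iff (Submonoid.powers (π δ)) S] at h1
    obtain ⟨⟨_, ⟨N, rfl⟩⟩, hN⟩ := h1
    refine ⟨N, ?_⟩
    have h2 : π (δ ^ N * f) = 0 := by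
      rw [map_mul, map_pow]
      exact hN
    exact Ideal.Quotient.eq_zero_iff_mem.mp h2
  rcases subsingleton_or_nontrivial S with hS | hS
  · exact Subsingleton.elim _ _
  let x : Matrix ι ι S := (mX ι k).map φ
  let y : Matrix ι ι S := (mY ι k).map φ
  have hφev : uni_ev (φ.comp MvPolynomial.C) x y = φ := by
    apply MvPolynomial.ringHom_ext
    · intro z
      exact MvPolynomial.eval₂Hom_C _ _ _
    · rintro ⟨t, i, j⟩
      rw [uni_ev, MvPolynomial.eval₂Hom_X']
      fin_cases t
      · rfl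
      · rfl
  have hxy : x * y = y * x := by
    ext i j
    have h1 : φ ((mX ι k * mY ι k - mY ι k * mX ι k) i j) = 0 := by
      change l (π _) = 0
      have h2 : π ((mX ι k * mY ι k - mY ι k * mX ι k) i j) = 0 :=
        Ideal.Quotient.eq_zero_iff_mem.mpr (Ideal.subset_span ⟨i, j, rfl⟩)
      rw [h2, map_zero]
    rw [Matrix.sub_apply, map_sub, sub_eq_zero, Matrix.mul_apply, Matrix.mul_apply, map_sum,
      map_sum] at h1
    simp only [map_mul] at h1
    rw [Matrix.mul_apply, Matrix.mul_apply]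
    exact h1
  have hunit : IsUnit (hm x).det := by
    have h1 : hm x = φ.mapMatrix (hm (mX ι k)) := (uni_hm φ (mX ι k)).symm
    rw [h1, ← RingHom.map_det]
    exact IsLocalization.Away.algebraMap_isUnit (π δ)
  obtain ⟨d, m, u, P, T, hN, H, hH, hx, hy⟩ := hNFA S p q hqp x y hxy hunit
  obtain ⟨S', _, _, r, hinj, hr⟩ := hSpl S d hN.dm
  obtain ⟨r', hr'⟩ := uni_cast hN.dd r
  have hS' : Nontrivial S' := hinj.nontrivial
  let j : S →+* S' := algebraMap S S'
  have hdj : d.map j = dr r' := by rw [hr', hr]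
  have hNj : NF p q (dr r') (m.map j) (u.map j) (fun c => (P c).map j) (fun c => (T c).map j) := by
    rw [← hdj]
    refine ⟨hN.dm.map j, ?_, hN.mm.map j, ?_, ?_, fun c => ?_, fun c => ?_, fun c c' => ?_⟩
    · rw [hN.dm.natDegree_map, hN.dd]
    · rw [hN.mm.natDegree_map, hN.md]
    · exact lt_of_le_of_lt Polynomial.degree_map_le hN.ud
    · exact lt_of_le_of_lt Polynomial.degree_map_le (hN.Pd c)
    · exact lt_of_le_of_lt Polynomial.degree_map_le (hN.Td c)
    · have h1 := Polynomial.map_dvd j (hN.dv c c')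
      rw [Polynomial.map_sub, Polynomial.map_mul, Polynomial.map_mul] at h1
      exact h1
  have hxj : x.map j * H.map j = H.map j * nfx p q (dr r') (m.map j) (fun c => (P c).map j) := by
    have h2 := congrArg (fun z => z.map j) hx
    simp only [Matrix.map_mul] at h2
    rw [uni_nfx, hdj] at h2
    exact h2
  have hyj : y.map j * H.map j = H.map j * nfy p q (dr r') (m.map j) (u.map j)
      (fun c => (P c).map j) (fun c => (T c).map j) := by
    have h2 := congrArg (fun z => z.map j) hy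
    simp only [Matrix.map_mul] at h2
    rw [uni_nfy j p q d m u P T hN.dm, hdj] at h2
    exact h2
  have hHj : IsUnit (H.map j).det := by
    have h1 : (H.map j).det = j H.det := (RingHom.map_det j H).symm
    rw [h1]
    exact hH.map j
  have hfin := uni_main hNFB hPrm k p q hqp f hf S' (j.comp (φ.comp MvPolynomial.C)) r' (m.map j)
    (u.map j) (fun c => (P c).map j) (fun c => (T c).map j) hNj (H.map j) (x.map j) (y.map j)
    hHj hxj hyj
  rw [← uni_ev_comp, hφev] at hfin
  apply hinj
  rw [map_zero]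
  exact hfin

end Pool.Agent.CTR
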