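import Pool.Agent.CTR.St

/-!
# CTR, module WA (helper55): spanning monomials for the ring of `W`
-/

set_option autoImplicit false

noncomputable section

namespace Pool.Agent.CTR

open MvPolynomial

/-- The weights. -/
def wa_w (q : ℕ) (v : Vr q) : ℕ :=
  (if v.1.1 = 0 then 2 * (q * (v.1.2 : ℕ)) else 0) + (q - 1 - (v.2 : ℕ))

theorem wa_w0 (q : ℕ) (c : Fin 3) (i : Fin q) :
    wa_w q ((0, c), i) = 2 * (q * (c : ℕ)) + (q - 1 - (i : ℕ)) := rfl

theorem wa_w1 (q : ℕ) (c : Fin 3) (i : Fin q) : wa_w q ((1, c), i) = q - 1 - (i : ℕ) := by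
  unfold wa_w
  simp

/-- `∑_(i + j = s) P_(a, i) T_(b, j)`. -/
def wa_G (K : Type) [CommRing K] (q : ℕ) (a b : Fin 3) (s : ℕ) : MvPolynomial (Vr q) K :=
  ∑ i : Fin q, ∑ j : Fin q, if (i : ℕ) + j = s then X ((0, a), i) * X ((1, b), j) else 0

theorem wa_hom (K : Type) [CommRing K] (q : ℕ) (a b : Fin 3) (i j : Fin q) :
    IsWeightedHomogeneous (wa_w q) (X ((0, a), i) * X ((1, b), j) : MvPolynomial (Vr q) K)
      (2 * (q * (a : ℕ)) + (q - 1 - (i : ℕ)) + (q - 1 - (j : ℕ))) := by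
  have h1 := (isWeightedHomogeneous_X K (wa_w q) ((0, a), i)).mul
    (isWeightedHomogeneous_X K (wa_w q) ((1, b), j))
  rw [wa_w0, wa_w1] at h1
  exact h1

/-- The polynomials of weight less than `n`. -/
def wa_U (K : Type) [CommRing K] (q n : ℕ) : Submodule K (MvPolynomial (Vr q) K) where
  carrier := {f | ∀ a, n ≤ Finsupp.weight (wa_w q) a → coeff a f = 0}
  zero_mem' := fun a _ => coeff_zero a
  add_mem' := fun {f g} hf hg a ha => by rw [coeff_add, hf a ha, hg a ha, add_zero]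
  smul_mem' := fun c f hf a ha => by rw [coeff_smul, hf a ha, smul_zero]

theorem wa_U_mul (K : Type) [CommRing K] (q n : ℕ) {f : MvPolynomial (Vr q) K}
    (hf : f ∈ wa_U K q n) (c : K) : f * C c ∈ wa_U K q n := by
  rw [mul_comm, ← smul_eq_C_mul]
  exact (wa_U K q n).smul_mem c hf

theorem wa_G_mem (K : Type) [CommRing K] (q : ℕ) (a b : Fin 3) (s n : ℕ)
    (h : ∀ i j : Fin q, (i : ℕ) + j = s →
      2 * (q * (a : ℕ)) + (q - 1 - (i : ℕ)) + (q - 1 - (j : ℕ)) < n) :
    wa_G K q a b s ∈ wa_U K q n := by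
  unfold wa_G
  refine sum_mem fun i _ => sum_mem fun j _ => ?_
  split_ifs with hs
  · intro e he
    refine (wa_hom K q a b i j).coeff_eq_zero e (fun h0 => ?_)
    have := h i j hs
    omega
  · exact zero_mem _

theorem wa_coeff (K : Type) [CommRing K] (q : ℕ) (a b : Fin 3) (s : ℕ) :
    (gp K q 0 a * gp K q 1 b).coeff s = wa_G K q a b s := by
  unfold gp wa_G
  rw [Finset.sum_mul_sum, Polynomial.finset_sum_coeff]
  refine Finset.sum_congr rfl fun i _ => ?_
  rw [Polynomial.finset_sum_coeff]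
  refine Finset.sum_congr rfl fun j _ => ?_
  have h1 : Polynomial.C (X ((0, a), i) : MvPolynomial (Vr q) K) * Polynomial.X ^ (i : ℕ) *
      (Polynomial.C (X ((1, b), j) : MvPolynomial (Vr q) K) * Polynomial.X ^ (j : ℕ)) =
      Polynomial.C (X ((0, a), i) * X ((1, b), j) : MvPolynomial (Vr q) K) *
        Polynomial.X ^ ((i : ℕ) + j) := by
    rw [Polynomial.C_mul, pow_add]
    ring
  rw [h1, Polynomial.coeff_C_mul_X_pow]
  simp only [eq_comm]

theorem wa_dr_monic {K : Type} [CommRing K] {q : ℕ} (r : Fin q → K) : (dr r).Monic :=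
  Polynomial.monic_prod_of_monic _ _ fun s _ => Polynomial.monic_X_sub_C (r s)

theorem wa_dr_degree {K : Type} [CommRing K] [Nontrivial K] {q : ℕ} (r : Fin q → K) :
    (dr r).degree = q := by
  have h1 : (dr r).natDegree = q := by
    unfold dr
    rw [Polynomial.natDegree_prod_of_monic _ _ fun s _ => Polynomial.monic_X_sub_C (r s)]
    simp
  rw [Polynomial.degree_eq_natDegree (wa_dr_monic r).ne_zero, h1]

theorem wa_mod {K : Type} [CommRing K] {q : ℕ} (r : Fin q → K)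
    (Q : Polynomial (MvPolynomial (Vr q) K)) (n : ℕ) (hn : Q.natDegree < n) (m : ℕ) :
    (Q %ₘ (dr r).map (C : K →+* MvPolynomial (Vr q) K)).coeff m =
      ∑ s ∈ Finset.range n, Q.coeff s * C (((Polynomial.X ^ s : Polynomial K) %ₘ dr r).coeff m) := by
  have h1 : Q %ₘ (dr r).map (C : K →+* MvPolynomial (Vr q) K) =
      ∑ s ∈ Finset.range n, Q.coeff s •
        (((Polynomial.X ^ s : Polynomial K) %ₘ dr r).map (C : K →+* MvPolynomial (Vr q) K)) := by
    conv_lhs => rw [Q.as_sum_range' n hn]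
    change Polynomial.modByMonicHom ((dr r).map (C : K →+* MvPolynomial (Vr q) K))
      (∑ i ∈ Finset.range n, Polynomial.monomial i (Q.coeff i)) = _
    rw [map_sum]
    refine Finset.sum_congr rfl fun s _ => ?_
    rw [← Polynomial.smul_X_eq_monomial, map_smul, Polynomial.map_modByMonic _ (wa_dr_monic r),
      Polynomial.map_pow, Polynomial.map_X]
    rfl
  rw [h1, Polynomial.finset_sum_coeff]
  refine Finset.sum_congr rfl fun s _ => ?_
  rw [Polynomial.coeff_smul, Polynomial.coeff_map, smul_eq_mul]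

theorem wa_rho {K : Type} [CommRing K] [Nontrivial K] {q : ℕ} (r : Fin q → K) {s : ℕ}
    (hs : s < q) (m : ℕ) :
    ((Polynomial.X ^ s : Polynomial K) %ₘ dr r).coeff m = if m = s then 1 else 0 := by
  have h1 : (Polynomial.X ^ s : Polynomial K) %ₘ dr r = Polynomial.X ^ s := by
    rw [Polynomial.modByMonic_eq_self_iff (wa_dr_monic r), wa_dr_degree r,
      Polynomial.degree_X_pow]
    exact_mod_cast hs
  rw [h1, Polynomial.coeff_X_pow]

/-- The relations are the leading forms up to smaller weights. -/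
theorem wa_rel {K : Type} [CommRing K] [Nontrivial K] {q : ℕ} (r : Fin q → K) (c c' : Fin 3)
    (m : Fin q) (hc : c < c') :
    rel r c c' m - gm K c c' m ∈ wa_U K q (2 * (q * (c' : ℕ)) + 2 * (q - 1) - (m : ℕ)) := by
  have hgm : gm K c c' m = wa_G K q c' c m := rfl
  have hm : (m : ℕ) < q := m.2
  have hcc : (c : ℕ) + 1 ≤ (c' : ℕ) := hc
  have hq : q * (c : ℕ) + q ≤ q * (c' : ℕ) := by
    have := Nat.mul_le_mul_left q hcc
    rw [Nat.mul_add, Nat.mul_one] at this
    exact this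
  set Q := gp K q 0 c' * gp K q 1 c - gp K q 0 c * gp K q 1 c' with hQ
  have hQc : ∀ s, Q.coeff s = wa_G K q c' c s - wa_G K q c c' s := by
    intro s
    rw [hQ, Polynomial.coeff_sub, wa_coeff, wa_coeff]
  have h1 : rel r c c' m = ∑ s ∈ Finset.range (Q.natDegree + 1 + q),
      Q.coeff s * C (((Polynomial.X ^ s : Polynomial K) %ₘ dr r).coeff m) :=
    wa_mod r Q _ (by omega) m
  have hmem : (m : ℕ) ∈ Finset.range (Q.natDegree + 1 + q) := Finset.mem_range.2 (by omega)
  rw [h1, hgm, ← Finset.add_sum_erase _ _ hmem, wa_rho r hm, if_pos rfl, map_one, mul_one, hQc,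
    add_sub_right_comm, sub_right_comm, sub_self, zero_sub]
  refine add_mem (neg_mem (wa_G_mem K q c c' m _ fun i j _ => ?_)) (sum_mem fun s hs => ?_)
  · have hi := i.2
    have hj := j.2
    omega
  · rw [Finset.mem_erase] at hs
    rcases lt_or_ge s q with h2 | h2
    · rw [wa_rho r h2, if_neg (Ne.symm hs.1), map_zero, mul_zero]
      exact zero_mem _
    · refine wa_U_mul K q _ ?_ _
      rw [hQc]
      refine sub_mem (wa_G_mem K q c' c s _ fun i j hij => ?_)
        (wa_G_mem K q c c' s _ fun i j hij => ?_)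
      · have hi := i.2
        have hj := j.2
        omega
      · have hi := i.2
        have hj := j.2
        omega

theorem wa_gm_hom {K : Type} [CommRing K] {q : ℕ} (c c' : Fin 3) (m : Fin q) :
    IsWeightedHomogeneous (wa_w q) (gm K c c' m)
      (2 * (q * (c' : ℕ)) + 2 * (q - 1) - (m : ℕ)) := by
  unfold gm
  refine IsWeightedHomogeneous.sum _ _ _ fun i _ => IsWeightedHomogeneous.sum _ _ _ fun j _ => ?_
  split_ifs with h
  · have h1 := wa_hom K q c' c i j
    have hi := i.2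
    have hj := j.2
    have h2 : 2 * (q * (c' : ℕ)) + 2 * (q - 1) - (m : ℕ) =
        2 * (q * (c' : ℕ)) + (q - 1 - (i : ℕ)) + (q - 1 - (j : ℕ)) := by omega
    rw [h2]
    exact h1
  · exact isWeightedHomogeneous_zero K (wa_w q) _

theorem thm_WA (hJ1 : St_J1) (hLif : St_Lif) : St_WA := by
  intro K _ q r
  rcases subsingleton_or_nontrivial K with hK | hK
  · refine ⟨id, fun μ _ i => rfl, fun f => ⟨0, zero_mem _, ?_⟩⟩
    have h1 : Subsingleton (MvPolynomial (Vr q) K) := inferInstance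
    rw [Subsingleton.elim (f - 0) 0]
    exact zero_mem _
  obtain ⟨F, hbd, hF⟩ := hJ1 K q 0 0 (Nat.zero_le q)
  have hA : StdO (q := q) 0 0 = {μ | Std μ} := by
    ext μ
    constructor
    · exact fun h => h.1
    · exact fun h => ⟨h, fun s hs => absurd hs (Nat.not_lt_zero _), fun s hs => absurd s.2
        (by omega)⟩
  have hI : IJO K q 0 0 = IJ K q := by
    unfold IJO
    refine sup_eq_left.2 (Ideal.span_le.2 ?_)
    rintro f ⟨s, h | h⟩
    · exact absurd h.1 (Nat.not_lt_zero _)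
    · exact absurd h.1 (Nat.not_lt_zero _)
  rw [hA] at hbd hF
  rw [hI] at hF
  refine ⟨F, hbd, ?_⟩
  have hB : {h : MvPolynomial (Vr q) K | ∃ μ ∈ F '' {μ | Std μ}, h = monomial μ (1 : K)} =
      {h | ∃ μ ∈ {μ | Std μ}, h = monomial (F μ) (1 : K)} := by
    ext h
    constructor
    · rintro ⟨_, ⟨μ, hμ, rfl⟩, rfl⟩
      exact ⟨μ, hμ, rfl⟩
    · rintro ⟨μ, hμ, rfl⟩
      exact ⟨F μ, ⟨μ, hμ, rfl⟩, rfl⟩
  have hg : Ideal.span (Set.range fun x : {x : Fin 3 × Fin 3 × Fin q // x.1 < x.2.1} =>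
      gm K x.1.1 x.1.2.1 x.1.2.2) = IJ K q := by
    unfold IJ
    congr 1
    ext f
    constructor
    · rintro ⟨⟨⟨c, c', m⟩, h⟩, rfl⟩
      exact ⟨c, c', m, h, rfl⟩
    · rintro ⟨c, c', m, h, rfl⟩
      exact ⟨⟨⟨c, c', m⟩, h⟩, rfl⟩
  have hr : Ideal.span (Set.range fun x : {x : Fin 3 × Fin 3 × Fin q // x.1 < x.2.1} =>
      rel r x.1.1 x.1.2.1 x.1.2.2) = IW r := by
    unfold IW
    congr 1
    ext f
    constructor
    · rintro ⟨⟨⟨c, c', m⟩, h⟩, rfl⟩
      exact ⟨c, c', m, h, rfl⟩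
    · rintro ⟨c, c', m, h, rfl⟩
      exact ⟨⟨⟨c, c', m⟩, h⟩, rfl⟩
  have key := hLif K (Vr q) (wa_w q) {x : Fin 3 × Fin 3 × Fin q // x.1 < x.2.1}
    (fun x => gm K x.1.1 x.1.2.1 x.1.2.2) (fun x => rel r x.1.1 x.1.2.1 x.1.2.2)
    (fun x => 2 * (q * (x.1.2.1 : ℕ)) + 2 * (q - 1) - (x.1.2.2 : ℕ)) (F '' {μ | Std μ})
    (fun x => wa_gm_hom x.1.1 x.1.2.1 x.1.2.2) (fun x a ha => by
      by_contra hc
      exact (mem_support_iff.1 ha) (wa_rel r x.1.1 x.1.2.1 x.1.2.2 x.2 a (not_lt.1 hc)))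
    (by rw [hB, hg]; exact hF)
  rw [hB, hr] at key
  exact key

end Pool.Agent.CTR
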