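import Pool.Agent.CTR.NFA
import Pool.Agent.CTR.NFB
import Pool.Agent.CTR.Spl
import Pool.Agent.CTR.Rec
import Pool.Agent.CTR.J0
import Pool.Agent.CTR.J2
import Pool.Agent.CTR.J1
import Pool.Agent.CTR.Lif
import Pool.Agent.CTR.WA
import Pool.Agent.CTR.TH
import Pool.Agent.CTR.Prm
import Pool.Agent.CTR.Uni
import Pool.Agent.CTR.Lin
import Pool.Agent.CTR.GL

/-!
# CTR: assembly
-/

set_option autoImplicit false

namespace Pool.Agent.CTR

theorem all_J1 : St_J1 := thm_J1 thm_Rec (thm_J2 thm_Rec thm_J0)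

theorem all_Prm : St_Prm := thm_Prm (thm_WA all_J1 thm_Lif) thm_TH

theorem all_GL : St_GL := thm_GL thm_Lin (thm_Uni thm_NFA thm_NFB thm_Spl all_Prm)

end Pool.Agent.CTR
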