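import Mathlib

/-!
# CTR: definitions

The commuting scheme of `gl_n` at the pairs `(x, y)` for which all eigenspaces of some combination
`a x + b y` have dimension at most two (MP_c67a3f_ag).
-/

set_option autoImplicit false

noncomputable section

namespace Pool.Agent.CTR

open Matrix

/-! ### the commuting scheme -/

/-- Polynomials in the entries of two matrices: `(0, i, j)` is the entry `x_ij`, `(1, i, j)` is `y_ij`. -/
abbrev Rg (ι k : Type) [CommRing k] := MvPolynomial (Fin 2 × ι × ι) k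

/-- The matrix of the `x_ij`. -/
def mX (ι k : Type) [CommRing k] : Matrix ι ι (Rg ι k) := fun i j => MvPolynomial.X (0, i, j)

/-- The matrix of the `y_ij`. -/
def mY (ι k : Type) [CommRing k] : Matrix ι ι (Rg ι k) := fun i j => MvPolynomial.X (1, i, j)

/-- The ideal generated by the entries of `x y - y x`. -/
def comI (ι k : Type) [Fintype ι] [CommRing k] : Ideal (Rg ι k) :=
  Ideal.span {f | ∃ i j, f = (mX ι k * mY ι k - mY ι k * mX ι k) i j}

/-- The value of a polynomial at two matrices. -/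
def ev {ι k S : Type} [CommRing k] [CommRing S] [Algebra k S] (A B : Matrix ι ι S) :
    Rg ι k →ₐ[k] S :=
  MvPolynomial.aeval fun v => if v.1 = 0 then A v.2.1 v.2.2 else B v.2.1 v.2.2

/-! ### matrices of size `p + q` with two marked vectors -/

/-- The vector `e_1`. -/
def e1 (S : Type) [CommRing S] (p q : ℕ) [NeZero p] : Fin p ⊕ Fin q → S := Pi.single (Sum.inl 0) 1

/-- The vector `e_2`. -/
def e2 (S : Type) [CommRing S] (p q : ℕ) [NeZero q] : Fin p ⊕ Fin q → S := Pi.single (Sum.inr 0) 1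

/-- The vector `r(x) v`. -/
def pv {ι S : Type} [Fintype ι] [DecidableEq ι] [CommRing S] (x : Matrix ι ι S)
    (r : Polynomial S) (v : ι → S) : ι → S :=
  (Polynomial.aeval x r) *ᵥ v

/-- The matrix with the columns `x^j v` (`j < p`), `x^j w` (`j < q`). -/
def hv {S : Type} [CommRing S] {p q : ℕ} (x : Matrix (Fin p ⊕ Fin q) (Fin p ⊕ Fin q) S)
    (v w : Fin p ⊕ Fin q → S) : Matrix (Fin p ⊕ Fin q) (Fin p ⊕ Fin q) S :=
  fun i j => Sum.elim (fun j : Fin p => ((x ^ (j : ℕ)) *ᵥ v) i)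
    (fun j : Fin q => ((x ^ (j : ℕ)) *ᵥ w) i) j

/-- The matrix with the columns `x^j e_1` (`j < p`), `x^j e_2` (`j < q`). -/
def hm {S : Type} [CommRing S] {p q : ℕ} [NeZero p] [NeZero q]
    (x : Matrix (Fin p ⊕ Fin q) (Fin p ⊕ Fin q) S) :
    Matrix (Fin p ⊕ Fin q) (Fin p ⊕ Fin q) S :=
  hv x (e1 S p q) (e2 S p q)

/-- The matrix `x` with `x e_(1,j) = e_(1,j+1)`, `x e_(2,j) = e_(2,j+1)` except that, for monic `a`, `d` of degrees
`p`, `q`, one has `a(x) e_1 + c(x) e_2 = 0` and `b(x) e_1 + d(x) e_2 = 0` (only the coefficients of `a`, `b` below `p` and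
of `c`, `d` below `q` are used). -/
def cx {S : Type} [CommRing S] (p q : ℕ) (a b c d : Polynomial S) :
    Matrix (Fin p ⊕ Fin q) (Fin p ⊕ Fin q) S :=
  Matrix.fromBlocks
    (fun i j => if (j : ℕ) + 1 = p then -a.coeff i else if (i : ℕ) = j + 1 then 1 else 0)
    (fun i j => if (j : ℕ) + 1 = q then -b.coeff i else 0)
    (fun i j => if (j : ℕ) + 1 = p then -c.coeff i else 0)
    (fun i j => if (j : ℕ) + 1 = q then -d.coeff i else if (i : ℕ) = j + 1 then 1 else 0)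

/-- The matrix which sends `x^j e_1` to `x^j (r_1(x) e_1 + s_1(x) e_2)` and `x^j e_2` to `x^j (r_2(x) e_1 + s_2(x) e_2)`,
in coordinates in which `x^j e_1`, `x^j e_2` are the basis vectors. -/
def cy {S : Type} [CommRing S] {p q : ℕ} [NeZero p] [NeZero q]
    (x : Matrix (Fin p ⊕ Fin q) (Fin p ⊕ Fin q) S) (r₁ s₁ r₂ s₂ : Polynomial S) :
    Matrix (Fin p ⊕ Fin q) (Fin p ⊕ Fin q) S :=
  hv x (pv x r₁ (e1 S p q) + pv x s₁ (e2 S p q)) (pv x r₂ (e1 S p q) + pv x s₂ (e2 S p q))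

/-- Data of the normal form: `d` and `m` monic of degrees `q` and `p - q`, `P_0, P_1, P_2, T_0, T_1, T_2` of
degree `< q`, `u` of degree `< p`, and the three minors of `(P; T)` are divisible by `d`. -/
structure NF {S : Type} [CommRing S] (p q : ℕ) (d m u : Polynomial S)
    (P T : Fin 3 → Polynomial S) : Prop where
  dm : d.Monic
  dd : d.natDegree = q
  mm : m.Monic
  md : m.natDegree = p - q
  ud : u.degree < p
  Pd : ∀ c, (P c).degree < q
  Td : ∀ c, (T c).degree < q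
  dv : ∀ c c', d ∣ P c' * T c - P c * T c'

/-- The matrix `x` of the normal form. -/
def nfx {S : Type} [CommRing S] (p q : ℕ) (d m : Polynomial S) (P : Fin 3 → Polynomial S) :
    Matrix (Fin p ⊕ Fin q) (Fin p ⊕ Fin q) S :=
  cx p q (d * m + P 0) (P 1) (P 2) d

/-- The matrix `y` of the normal form. -/
def nfy {S : Type} [CommRing S] (p q : ℕ) [NeZero p] [NeZero q] (d m u : Polynomial S)
    (P T : Fin 3 → Polynomial S) : Matrix (Fin p ⊕ Fin q) (Fin p ⊕ Fin q) S :=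
  cy (nfx p q d m P) u (T 2) (m * T 1 + (P 0 * T 1 - P 1 * T 0) /ₘ d)
    (u + (-T 0 - (P 1 * T 2 - P 2 * T 1) /ₘ d))

/-! ### the scheme of the pairs `(P, T)` with `P ∧ T = 0` modulo `d = ∏ (t - r_s)` -/

/-- The coefficients: `((0, c), i)` is the coefficient of `t^i` in `P_c`, `((1, c), i)` that in `T_c`. -/
abbrev Vr (q : ℕ) := (Fin 2 × Fin 3) × Fin q

/-- The polynomials `P_c` (`i = 0`) and `T_c` (`i = 1`) with indeterminate coefficients. -/
def gp (K : Type) [CommRing K] (q : ℕ) (i : Fin 2) (c : Fin 3) :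
    Polynomial (MvPolynomial (Vr q) K) :=
  ∑ j : Fin q, Polynomial.C (MvPolynomial.X ((i, c), j)) * Polynomial.X ^ (j : ℕ)

/-- `d = ∏ (t - r_s)`. -/
def dr {K : Type} [CommRing K] {q : ℕ} (r : Fin q → K) : Polynomial K :=
  ∏ s, (Polynomial.X - Polynomial.C (r s))

/-- The coefficient of `t^m` in `P_(c') T_c - P_c T_(c')` modulo `d`. -/
def rel {K : Type} [CommRing K] {q : ℕ} (r : Fin q → K) (c c' : Fin 3) (m : Fin q) :
    MvPolynomial (Vr q) K :=
  ((gp K q 0 c' * gp K q 1 c - gp K q 0 c * gp K q 1 c') %ₘ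
    (dr r).map (MvPolynomial.C : K →+* MvPolynomial (Vr q) K)).coeff m

/-- The ideal of the relations `P ∧ T = 0` modulo `d`. -/
def IW {K : Type} [CommRing K] {q : ℕ} (r : Fin q → K) : Ideal (MvPolynomial (Vr q) K) :=
  Ideal.span {f | ∃ c c' m, c < c' ∧ f = rel r c c' m}

/-- The coefficient of `t^m` in `P_(c') T_c`. -/
def gm (K : Type) [CommRing K] {q : ℕ} (c c' : Fin 3) (m : Fin q) : MvPolynomial (Vr q) K :=
  ∑ i : Fin q, ∑ j : Fin q, if (i : ℕ) + j = m then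
    MvPolynomial.X ((0, c'), i) * MvPolynomial.X ((1, c), j) else 0

/-- The ideal of the relations `P_(c') T_c = 0` modulo `t^q`, `c < c'`. -/
def IJ (K : Type) [CommRing K] (q : ℕ) : Ideal (MvPolynomial (Vr q) K) :=
  Ideal.span {f | ∃ (c c' : Fin 3) (m : Fin q), c < c' ∧ f = gm K c c' m}

/-- Exponents which are standard in every slot `s`: no `P_(c')` together with a `T_c`, `c < c'`. -/
def Std {q : ℕ} (μ : Vr q →₀ ℕ) : Prop :=
  ∀ (s : Fin q) (c c' : Fin 3), c < c' → μ ((1, c), s) = 0 ∨ μ ((0, c'), s) = 0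

/-- The bidegree: the degree in the `P` (`i = 0`) or in the `T` (`i = 1`). -/
def bd {q : ℕ} (i : Fin 2) (μ : Vr q →₀ ℕ) : ℕ := ∑ c : Fin 3, ∑ s : Fin q, μ ((i, c), s)

/-- The monomials with exponents `F μ`, `μ` in `A`, span the polynomials modulo `I`, and `F` preserves the
bidegree. -/
def Sp {K : Type} [CommRing K] {q : ℕ} (I : Ideal (MvPolynomial (Vr q) K))
    (A : Set (Vr q →₀ ℕ)) (F : (Vr q →₀ ℕ) → (Vr q →₀ ℕ)) : Prop :=
  (∀ μ ∈ A, ∀ i, bd i (F μ) = bd i μ) ∧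
  ∀ f : MvPolynomial (Vr q) K,
    ∃ g ∈ Submodule.span K {h | ∃ μ ∈ A, h = MvPolynomial.monomial (F μ) (1 : K)}, f - g ∈ I

/-- The standard exponents without `T_0` in the slots `s < o` and without `P_1`, `P_2` in the slots
`s ≥ q - β`. -/
def StdO {q : ℕ} (o β : ℕ) : Set (Vr q →₀ ℕ) :=
  {μ | Std μ ∧ (∀ s : Fin q, (s : ℕ) < o → μ ((1, 0), s) = 0) ∧
    ∀ s : Fin q, q ≤ (s : ℕ) + β → μ ((0, 1), s) = 0 ∧ μ ((0, 2), s) = 0}

/-- The ideal with the coefficients of `T_0` below `o` and of `P_1`, `P_2` below `β` put to zero. -/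
def IJO (K : Type) [CommRing K] (q o β : ℕ) : Ideal (MvPolynomial (Vr q) K) :=
  IJ K q ⊔ Ideal.span {f | ∃ s : Fin q, ((s : ℕ) < o ∧ f = MvPolynomial.X ((1, 0), s)) ∨
    ((s : ℕ) < β ∧ (f = MvPolynomial.X ((0, 1), s) ∨ f = MvPolynomial.X ((0, 2), s)))}

/-- As `StdO o (q - o)`, and without `T_1` in the slots `s < o₂` and without `P_2` in the slots `s ≥ o - β₂`. -/
def StdT {q : ℕ} (o o₂ β₂ : ℕ) : Set (Vr q →₀ ℕ) :=
  {μ | μ ∈ StdO (q := q) o (q - o) ∧ (∀ s : Fin q, (s : ℕ) < o₂ → μ ((1, 1), s) = 0) ∧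
    ∀ s : Fin q, o ≤ (s : ℕ) + β₂ → μ ((0, 2), s) = 0}

/-- As `IJO o (q - o)`, with the coefficients of `T_1` below `o₂` and of `P_2` below `q - o + β₂` put to zero. -/
def IJT (K : Type) [CommRing K] (q o o₂ β₂ : ℕ) : Ideal (MvPolynomial (Vr q) K) :=
  IJO K q o (q - o) ⊔ Ideal.span {f | ∃ s : Fin q,
    ((s : ℕ) < o₂ ∧ f = MvPolynomial.X ((1, 1), s)) ∨
    ((s : ℕ) < q - o + β₂ ∧ f = MvPolynomial.X ((0, 2), s))}

/-- The exponents with the slots `o` and `s` exchanged. -/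
def sw {q : ℕ} (o s : Fin q) (μ : Vr q →₀ ℕ) : Vr q →₀ ℕ :=
  Finsupp.equivMapDomain (Equiv.prodCongr (Equiv.refl _) (Equiv.swap o s)) μ

end Pool.Agent.CTR
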