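import Pool.Agent.CTR.Sl
import Pool.Agent.CTR.Loc

/-!
# CTR: eigenspaces and ranks
-/

set_option autoImplicit false

noncomputable section

namespace Pool.Agent.CTR

open Matrix

theorem fin_rank (n : ℕ) (M : Matrix (Fin n) (Fin n) ℂ) (μ : ℂ)
    (h : Module.finrank ℂ (Module.End.eigenspace (Matrix.toLin' M) μ) ≤ 2) :
    n ≤ (M - Matrix.scalar (Fin n) μ).rank + 2 := by
  have h1 : Module.End.eigenspace (Matrix.toLin' M) μ =
      LinearMap.ker (M - Matrix.scalar (Fin n) μ).mulVecLin := by
    ext v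
    rw [Module.End.mem_eigenspace_iff, LinearMap.mem_ker, Matrix.mulVecLin_apply,
      Matrix.toLin'_apply, Matrix.sub_mulVec, sub_eq_zero, Matrix.scalar_apply]
    have h2 : (Matrix.diagonal fun _ : Fin n => μ) *ᵥ v = μ • v := by
      ext i
      simp [Matrix.mulVec_diagonal]
    rw [h2]
  have h3 := LinearMap.finrank_range_add_finrank_ker (M - Matrix.scalar (Fin n) μ).mulVecLin
  rw [← h1] at h3
  simp only [Module.finrank_fin_fun] at h3
  rw [Matrix.rank]
  omega

theorem fin_three {V : Type} [AddCommGroup V] [Module ℂ V] [FiniteDimensional ℂ V]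
    (E : Submodule ℂ V) (h : 2 < Module.finrank ℂ E) : ∃ v : Fin 3 → E, LinearIndependent ℂ v := by
  have h1 : (3 : ℕ) ≤ Module.finrank ℂ E := h
  refine ⟨fun i => Module.finBasis ℂ E (Fin.castLE h1 i), ?_⟩
  exact (Module.finBasis ℂ E).linearIndependent.comp _ (Fin.castLE_injective h1)

end Pool.Agent.CTR
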