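import Pool.Agent.CTR.St

/-!
Module NFA of CTR: every commuting pair over a ring for which `x^j e_1`, `x^j e_2` are a basis has a
normal form. The proof is the one of the comment of `St_NFA`.
-/

set_option autoImplicit false
set_option linter.unusedSimpArgs false

noncomputable section

namespace Pool.Agent.CTR

open Matrix Polynomial

section General

variable {ι S : Type} [Fintype ι] [DecidableEq ι] [CommRing S]

theorem nfa_pv_add (x : Matrix ι ι S) (r s : Polynomial S) (v : ι → S) :
    pv x (r + s) v = pv x r v + pv x s v := by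
  simp [pv, Matrix.add_mulVec]

theorem nfa_pv_sub (x : Matrix ι ι S) (r s : Polynomial S) (v : ι → S) :
    pv x (r - s) v = pv x r v - pv x s v := by
  simp [pv, Matrix.sub_mulVec]

theorem nfa_pv_neg (x : Matrix ι ι S) (r : Polynomial S) (v : ι → S) :
    pv x (-r) v = -pv x r v := by
  simp [pv, Matrix.neg_mulVec]

theorem nfa_pv_mul (x : Matrix ι ι S) (r s : Polynomial S) (v : ι → S) :
    pv x (r * s) v = pv x r (pv x s v) := by
  simp [pv, Matrix.mulVec_mulVec]

theorem nfa_pv_vadd (x : Matrix ι ι S) (r : Polynomial S) (v w : ι → S) :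
    pv x r (v + w) = pv x r v + pv x r w := by
  simp [pv, Matrix.mulVec_add]

theorem nfa_pv_vzero (x : Matrix ι ι S) (r : Polynomial S) : pv x r 0 = 0 := by
  simp [pv]

theorem nfa_pv_Xpow (x : Matrix ι ι S) (j : ℕ) (v : ι → S) : pv x (X ^ j) v = (x ^ j) *ᵥ v := by
  simp [pv]

/-- An intertwining relation extends to polynomials. -/
theorem nfa_intertwine (x N H : Matrix ι ι S) (h : x * H = H * N) (r : Polynomial S) :
    aeval x r * H = H * aeval N r := by
  have hp : ∀ n : ℕ, x ^ n * H = H * N ^ n := by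
    intro n
    induction n with
    | zero => simp
    | succ n ih => rw [pow_succ', mul_assoc, ih, ← mul_assoc, h, mul_assoc, ← pow_succ']
  induction r using Polynomial.induction_on' with
  | add r s hr hs => rw [map_add, map_add, add_mul, mul_add, hr, hs]
  | monomial n a =>
    rw [← C_mul_X_pow_eq_monomial, map_mul, map_mul, aeval_C, aeval_C, map_pow, map_pow, aeval_X,
      aeval_X, mul_assoc, hp, Algebra.commutes, Algebra.commutes, ← mul_assoc, mul_assoc]

theorem nfa_pv_mulVec (x N H : Matrix ι ι S) (h : x * H = H * N) (r : Polynomial S) (v : ι → S) :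
    pv x r (H *ᵥ v) = H *ᵥ (pv N r v) := by
  unfold pv
  rw [Matrix.mulVec_mulVec, Matrix.mulVec_mulVec, nfa_intertwine x N H h]

/-- A sum of powers applied to a vector. -/
theorem nfa_pv_sum (x : Matrix ι ι S) (p : ℕ) (r : Polynomial S) (hr : r.degree < p) (v : ι → S) :
    pv x r v = ∑ j : Fin p, r.coeff j • ((x ^ (j : ℕ)) *ᵥ v) := by
  rcases Nat.eq_zero_or_pos p with rfl | hp
  · have : r = 0 := by
      rw [← degree_eq_bot]
      simpa using hr
    simp [this, pv]
  · have hn : r.natDegree < p := by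
      by_cases h0 : r = 0
      · rw [h0]; simpa using hp
      · exact (natDegree_lt_iff_degree_lt h0).2 hr
    unfold pv
    rw [aeval_eq_sum_range' hn, Matrix.sum_mulVec,
      Finset.sum_range (fun j => (r.coeff j • x ^ j) *ᵥ v)]
    exact Finset.sum_congr rfl fun j _ => by rw [Matrix.smul_mulVec]

end General

section Basis

variable {S : Type} [CommRing S] {p q : ℕ}

theorem nfa_hv_mulVec (x : Matrix (Fin p ⊕ Fin q) (Fin p ⊕ Fin q) S) (v w : Fin p ⊕ Fin q → S)
    (f : Fin p ⊕ Fin q → S) :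
    hv x v w *ᵥ f = ∑ j : Fin p, f (Sum.inl j) • ((x ^ (j : ℕ)) *ᵥ v) +
      ∑ j : Fin q, f (Sum.inr j) • ((x ^ (j : ℕ)) *ᵥ w) := by
  ext i
  have h1 : (hv x v w *ᵥ f) i = ∑ j, hv x v w i j * f j := rfl
  rw [h1, Fintype.sum_sum_type]
  simp only [Pi.add_apply, Finset.sum_apply, Pi.smul_apply, smul_eq_mul]
  congr 1
  · exact Finset.sum_congr rfl fun j _ => by
      rw [mul_comm]; rfl
  · exact Finset.sum_congr rfl fun j _ => by
      rw [mul_comm]; rfl

theorem nfa_hv_pv (x : Matrix (Fin p ⊕ Fin q) (Fin p ⊕ Fin q) S) (v w : Fin p ⊕ Fin q → S)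
    (r s : Polynomial S) (hr : r.degree < p) (hs : s.degree < q) :
    hv x v w *ᵥ (Sum.elim (fun j : Fin p => r.coeff j) (fun j : Fin q => s.coeff j)) =
      pv x r v + pv x s w := by
  rw [nfa_hv_mulVec, nfa_pv_sum x p r hr, nfa_pv_sum x q s hs]
  simp

theorem nfa_exists (x : Matrix (Fin p ⊕ Fin q) (Fin p ⊕ Fin q) S) (v w : Fin p ⊕ Fin q → S)
    (h : IsUnit (hv x v w).det) (z : Fin p ⊕ Fin q → S) :
    ∃ r s : Polynomial S, r.degree < p ∧ s.degree < q ∧ z = pv x r v + pv x s w := by
  obtain ⟨f, hf⟩ := (Matrix.mulVec_surjective_iff_isUnit.2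
    ((Matrix.isUnit_iff_isUnit_det _).2 h)) z
  let r := (degreeLTEquiv S p).symm (fun j => f (Sum.inl j))
  let s := (degreeLTEquiv S q).symm (fun j => f (Sum.inr j))
  have hr : r.1.degree < p := mem_degreeLT.1 r.2
  have hs : s.1.degree < q := mem_degreeLT.1 s.2
  refine ⟨r.1, s.1, hr, hs, ?_⟩
  rw [← nfa_hv_pv x v w r.1 s.1 hr hs, ← hf]
  congr 1
  ext i
  rcases i with i | i
  · have := congrFun ((degreeLTEquiv S p).apply_symm_apply (fun j => f (Sum.inl j))) i
    exact this.symm
  · have := congrFun ((degreeLTEquiv S q).apply_symm_apply (fun j => f (Sum.inr j))) i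
    exact this.symm

theorem nfa_unique (x : Matrix (Fin p ⊕ Fin q) (Fin p ⊕ Fin q) S) (v w : Fin p ⊕ Fin q → S)
    (h : IsUnit (hv x v w).det) (r s : Polynomial S) (hr : r.degree < p) (hs : s.degree < q)
    (h0 : pv x r v + pv x s w = 0) : r = 0 ∧ s = 0 := by
  rw [← nfa_hv_pv x v w r s hr hs] at h0
  have h1 : Sum.elim (fun j : Fin p => r.coeff j) (fun j : Fin q => s.coeff j) = 0 := by
    have h2 := congrArg (fun z => (hv x v w)⁻¹ *ᵥ z) h0
    simpa [Matrix.mulVec_mulVec, Matrix.nonsing_inv_mul _ h] using h2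
  rw [degree_lt_iff_coeff_zero] at hr hs
  constructor
  · ext j
    rw [coeff_zero]
    rcases lt_or_ge j p with hj | hj
    · exact congrFun h1 (Sum.inl ⟨j, hj⟩)
    · exact hr j hj
  · ext j
    rw [coeff_zero]
    rcases lt_or_ge j q with hj | hj
    · exact congrFun h1 (Sum.inr ⟨j, hj⟩)
    · exact hs j hj

end Basis

section Reduce

variable {S : Type} [CommRing S] {p q : ℕ}

theorem nfa_step (n k : ℕ) (r a b : Polynomial S) (ha : a.Monic) (han : a.natDegree = n)
    (hb : b.degree < n) (hr : r.degree < (n + (k + 1) : ℕ)) (δ : S) :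
    (r - C (r.coeff (n + k)) * X ^ k * a - C δ * X ^ k * b).degree < ((n + k : ℕ) : WithBot ℕ) := by
  rw [degree_lt_iff_coeff_zero] at hr hb ⊢
  intro m hm
  rw [coeff_sub, coeff_sub, mul_assoc, mul_assoc, coeff_C_mul, coeff_C_mul, coeff_X_pow_mul',
    coeff_X_pow_mul', if_pos (by omega), if_pos (by omega), hb (m - k) (by omega), mul_zero,
    sub_zero]
  rcases hm.eq_or_lt with h | h
  · subst h
    have h1 : a.coeff (n + k - k) = 1 := by
      rw [Nat.add_sub_cancel, ← han]; exact ha
    rw [h1, mul_one, sub_self]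
  · rw [hr m (by omega), coeff_eq_zero_of_natDegree_lt (by omega : a.natDegree < m - k), mul_zero,
      sub_zero]

theorem nfa_reduce (hqp : q ≤ p) (a b c d : Polynomial S) (ha : a.Monic) (han : a.natDegree = p)
    (hd : d.Monic) (hdn : d.natDegree = q) (hb : b.degree < q) (hc : c.degree < q) (k : ℕ) :
    ∀ r s : Polynomial S, r.degree < (p + k : ℕ) → s.degree < (q + k : ℕ) →
      ∃ F G : Polynomial S, F.degree < k ∧ G.degree < k ∧ (r - F * a - G * b).degree < p ∧
        (s - F * c - G * d).degree < q := by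
  induction k with
  | zero =>
    intro r s hr hs
    refine ⟨0, 0, ?_, ?_, ?_, ?_⟩
    · rw [degree_zero]; exact WithBot.bot_lt_coe _
    · rw [degree_zero]; exact WithBot.bot_lt_coe _
    · simpa using hr
    · simpa using hs
  | succ k ih =>
    intro r s hr hs
    have hbp : b.degree < p := lt_of_lt_of_le hb (by exact_mod_cast hqp)
    have h1 := nfa_step p k r a b ha han hbp hr (s.coeff (q + k))
    have h2 := nfa_step q k s d c hd hdn hc hs (r.coeff (p + k))
    obtain ⟨F, G, hF, hG, hr', hs'⟩ := ih _ _ h1 h2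
    refine ⟨F + C (r.coeff (p + k)) * X ^ k, G + C (s.coeff (q + k)) * X ^ k, ?_, ?_, ?_, ?_⟩
    · refine lt_of_le_of_lt (degree_add_le _ _) (max_lt (hF.trans (by exact_mod_cast k.lt_succ_self))
        (lt_of_le_of_lt (degree_C_mul_X_pow_le _ _) (by exact_mod_cast k.lt_succ_self)))
    · refine lt_of_le_of_lt (degree_add_le _ _) (max_lt (hG.trans (by exact_mod_cast k.lt_succ_self))
        (lt_of_le_of_lt (degree_C_mul_X_pow_le _ _) (by exact_mod_cast k.lt_succ_self)))
    · have : r - (F + C (r.coeff (p + k)) * X ^ k) * a - (G + C (s.coeff (q + k)) * X ^ k) * b =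
        r - C (r.coeff (p + k)) * X ^ k * a - C (s.coeff (q + k)) * X ^ k * b - F * a - G * b := by
        ring
      rw [this]; exact hr'
    · have : s - (F + C (r.coeff (p + k)) * X ^ k) * c - (G + C (s.coeff (q + k)) * X ^ k) * d =
        s - C (s.coeff (q + k)) * X ^ k * d - C (r.coeff (p + k)) * X ^ k * c - F * c - G * d := by
        ring
      rw [this]; exact hs'

/-- (Z) of the proof. -/
theorem nfa_Z (hqp : q ≤ p) (x : Matrix (Fin p ⊕ Fin q) (Fin p ⊕ Fin q) S)
    (v w : Fin p ⊕ Fin q → S) (hH : IsUnit (hv x v w).det)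
    (a b c d : Polynomial S) (ha : a.Monic) (han : a.natDegree = p)
    (hd : d.Monic) (hdn : d.natDegree = q) (hb : b.degree < q) (hc : c.degree < q)
    (hac : pv x a v + pv x c w = 0) (hbd : pv x b v + pv x d w = 0) (k : ℕ)
    (r s : Polynomial S) (hr : r.degree < (p + k : ℕ)) (hs : s.degree < (q + k : ℕ))
    (hrs : pv x r v + pv x s w = 0) :
    ∃ F G : Polynomial S, F.degree < k ∧ G.degree < k ∧ r = F * a + G * b ∧ s = F * c + G * d := by
  obtain ⟨F, G, hF, hG, hr', hs'⟩ := nfa_reduce hqp a b c d ha han hd hdn hb hc k r s hr hs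
  have h0 : pv x (r - F * a - G * b) v + pv x (s - F * c - G * d) w = 0 := by
    have e1 : pv x (F * a) v + pv x (F * c) w = 0 := by
      rw [nfa_pv_mul, nfa_pv_mul, ← nfa_pv_vadd, hac, nfa_pv_vzero]
    have e2 : pv x (G * b) v + pv x (G * d) w = 0 := by
      rw [nfa_pv_mul, nfa_pv_mul, ← nfa_pv_vadd, hbd, nfa_pv_vzero]
    rw [nfa_pv_sub, nfa_pv_sub, nfa_pv_sub, nfa_pv_sub]
    calc pv x r v - pv x (F * a) v - pv x (G * b) v + (pv x s w - pv x (F * c) w - pv x (G * d) w)
        = (pv x r v + pv x s w) - (pv x (F * a) v + pv x (F * c) w) -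
          (pv x (G * b) v + pv x (G * d) w) := by abel
      _ = 0 := by rw [hrs, e1, e2]; simp
  obtain ⟨h1, h2⟩ := nfa_unique x v w hH _ _ hr' hs' h0
  refine ⟨F, G, hF, hG, ?_, ?_⟩
  · linear_combination h1
  · linear_combination h2

end Reduce

section Columns

variable {S : Type} [CommRing S] {p q : ℕ}

theorem nfa_col_inl (x : Matrix (Fin p ⊕ Fin q) (Fin p ⊕ Fin q) S) (v w : Fin p ⊕ Fin q → S)
    (j : Fin p) : hv x v w *ᵥ Pi.single (Sum.inl j) 1 = (x ^ (j : ℕ)) *ᵥ v := by
  rw [Matrix.mulVec_single_one]; rfl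

theorem nfa_col_inr (x : Matrix (Fin p ⊕ Fin q) (Fin p ⊕ Fin q) S) (v w : Fin p ⊕ Fin q → S)
    (j : Fin q) : hv x v w *ᵥ Pi.single (Sum.inr j) 1 = (x ^ (j : ℕ)) *ᵥ w := by
  rw [Matrix.mulVec_single_one]; rfl

theorem nfa_low (n : ℕ) (a : Polynomial S) (ha : a.Monic) (han : a.natDegree = n) :
    (X ^ n - a).degree < (n : WithBot ℕ) := by
  rw [degree_lt_iff_coeff_zero]
  intro m hm
  rw [coeff_sub, coeff_X_pow]
  rcases hm.eq_or_lt with h | h
  · subst h
    rw [if_pos rfl]
    have h1 : a.coeff n = 1 := by rw [← han]; exact ha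
    rw [h1, sub_self]
  · rw [if_neg (by omega), coeff_eq_zero_of_natDegree_lt (by omega), sub_zero]

/-- The matrix in the basis `x^j v`, `x^j w`. -/
theorem nfa_cx (x : Matrix (Fin p ⊕ Fin q) (Fin p ⊕ Fin q) S)
    (v w : Fin p ⊕ Fin q → S) (hqp : q ≤ p)
    (a b c d : Polynomial S) (ha : a.Monic) (han : a.natDegree = p)
    (hd : d.Monic) (hdn : d.natDegree = q) (hb : b.degree < q) (hc : c.degree < q)
    (hac : pv x a v + pv x c w = 0) (hbd : pv x b v + pv x d w = 0) :
    x * hv x v w = hv x v w * cx p q a b c d := by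
  have hbp : b.degree < p := lt_of_lt_of_le hb (by exact_mod_cast hqp)
  refine Matrix.ext_of_mulVec_single fun j => ?_
  rw [← Matrix.mulVec_mulVec, ← Matrix.mulVec_mulVec]
  rcases j with j | j
  · rw [nfa_col_inl, Matrix.mulVec_mulVec, ← pow_succ']
    by_cases hj : (j : ℕ) + 1 = p
    · have h1 : cx p q a b c d *ᵥ Pi.single (Sum.inl j) 1 =
          Sum.elim (fun i : Fin p => (X ^ p - a).coeff i) (fun i : Fin q => (-c).coeff i) := by
        rw [Matrix.mulVec_single_one]
        ext i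
        rcases i with i | i
        · have : cx p q a b c d (Sum.inl i) (Sum.inl j) = -a.coeff i :=
            (if_pos hj : (if (j : ℕ) + 1 = p then -a.coeff i else
              if (i : ℕ) = j + 1 then 1 else 0) = -a.coeff i)
          simp only [Matrix.col_apply, Sum.elim_inl]
          rw [this, coeff_sub, coeff_X_pow, if_neg (by have := i.2; omega), zero_sub]
        · have : cx p q a b c d (Sum.inr i) (Sum.inl j) = -c.coeff i :=
            (if_pos hj : (if (j : ℕ) + 1 = p then -c.coeff i else 0) = -c.coeff i)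
          simp only [Matrix.col_apply, Sum.elim_inr]
          rw [this, coeff_neg]
      rw [h1, nfa_hv_pv x v w _ _ (nfa_low p a ha han) (by rwa [degree_neg]), nfa_pv_sub,
        nfa_pv_neg, nfa_pv_Xpow, hj]
      calc (x ^ p) *ᵥ v = (x ^ p) *ᵥ v - (pv x a v + pv x c w) := by rw [hac, sub_zero]
        _ = _ := by abel
    · have hj2 : (j : ℕ) + 1 < p := by have := j.2; omega
      have h1 : cx p q a b c d *ᵥ Pi.single (Sum.inl j) 1 =
          Pi.single (Sum.inl ⟨(j : ℕ) + 1, hj2⟩) 1 := by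
        rw [Matrix.mulVec_single_one]
        ext i
        rcases i with i | i
        · have : cx p q a b c d (Sum.inl i) (Sum.inl j) = if (i : ℕ) = j + 1 then 1 else 0 :=
            (if_neg hj : (if (j : ℕ) + 1 = p then -a.coeff i else
              if (i : ℕ) = j + 1 then 1 else 0) = if (i : ℕ) = j + 1 then 1 else 0)
          simp only [Matrix.col_apply]
          rw [this, Pi.single_apply]
          by_cases hi : (i : ℕ) = j + 1
          · rw [if_pos hi, if_pos (by rw [Sum.inl.injEq]; exact Fin.ext hi)]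
          · rw [if_neg hi, if_neg (by
              rw [Sum.inl.injEq]; intro h; exact hi (congrArg Fin.val h))]
        · have : cx p q a b c d (Sum.inr i) (Sum.inl j) = 0 :=
            (if_neg hj : (if (j : ℕ) + 1 = p then -c.coeff i else 0) = 0)
          simp only [Matrix.col_apply]
          rw [this, Pi.single_apply, if_neg (by simp)]
      rw [h1, nfa_col_inl]
  · rw [nfa_col_inr, Matrix.mulVec_mulVec, ← pow_succ']
    by_cases hj : (j : ℕ) + 1 = q
    · have h1 : cx p q a b c d *ᵥ Pi.single (Sum.inr j) 1 =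
          Sum.elim (fun i : Fin p => (-b).coeff i) (fun i : Fin q => (X ^ q - d).coeff i) := by
        rw [Matrix.mulVec_single_one]
        ext i
        rcases i with i | i
        · have : cx p q a b c d (Sum.inl i) (Sum.inr j) = -b.coeff i :=
            (if_pos hj : (if (j : ℕ) + 1 = q then -b.coeff i else 0) = -b.coeff i)
          simp only [Matrix.col_apply, Sum.elim_inl]
          rw [this, coeff_neg]
        · have : cx p q a b c d (Sum.inr i) (Sum.inr j) = -d.coeff i :=
            (if_pos hj : (if (j : ℕ) + 1 = q then -d.coeff i else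
              if (i : ℕ) = j + 1 then 1 else 0) = -d.coeff i)
          simp only [Matrix.col_apply, Sum.elim_inr]
          rw [this, coeff_sub, coeff_X_pow, if_neg (by have := i.2; omega), zero_sub]
      rw [h1, nfa_hv_pv x v w _ _ (by rwa [degree_neg]) (nfa_low q d hd hdn), nfa_pv_sub,
        nfa_pv_neg, nfa_pv_Xpow, hj]
      calc (x ^ q) *ᵥ w = (x ^ q) *ᵥ w - (pv x b v + pv x d w) := by rw [hbd, sub_zero]
        _ = _ := by abel
    · have hj2 : (j : ℕ) + 1 < q := by have := j.2; omega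
      have h1 : cx p q a b c d *ᵥ Pi.single (Sum.inr j) 1 =
          Pi.single (Sum.inr ⟨(j : ℕ) + 1, hj2⟩) 1 := by
        rw [Matrix.mulVec_single_one]
        ext i
        rcases i with i | i
        · have : cx p q a b c d (Sum.inl i) (Sum.inr j) = 0 :=
            (if_neg hj : (if (j : ℕ) + 1 = q then -b.coeff i else 0) = 0)
          simp only [Matrix.col_apply]
          rw [this, Pi.single_apply, if_neg (by simp)]
        · have : cx p q a b c d (Sum.inr i) (Sum.inr j) = if (i : ℕ) = j + 1 then 1 else 0 :=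
            (if_neg hj : (if (j : ℕ) + 1 = q then -d.coeff i else
              if (i : ℕ) = j + 1 then 1 else 0) = if (i : ℕ) = j + 1 then 1 else 0)
          simp only [Matrix.col_apply]
          rw [this, Pi.single_apply]
          by_cases hi : (i : ℕ) = j + 1
          · rw [if_pos hi, if_pos (by rw [Sum.inr.injEq]; exact Fin.ext hi)]
          · rw [if_neg hi, if_neg (by
              rw [Sum.inr.injEq]; intro h; exact hi (congrArg Fin.val h))]
      rw [h1, nfa_col_inr]

/-- A matrix commuting with `x` in the basis `x^j v`, `x^j w`. -/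
theorem nfa_hy (x y N H : Matrix (Fin p ⊕ Fin q) (Fin p ⊕ Fin q) S) (hxy : x * y = y * x)
    (v w v' w' : Fin p ⊕ Fin q → S) (hH : H = hv x v w) (hN : x * H = H * N)
    (hv' : H *ᵥ v' = y *ᵥ v) (hw' : H *ᵥ w' = y *ᵥ w) : y * H = H * hv N v' w' := by
  have hx : ∀ (j : ℕ) (z : Fin p ⊕ Fin q → S), H *ᵥ ((N ^ j) *ᵥ z) = (x ^ j) *ᵥ (H *ᵥ z) := by
    intro j z
    rw [← nfa_pv_Xpow, ← nfa_pv_Xpow, nfa_pv_mulVec x N H hN]
  have hy : ∀ (j : ℕ) (z : Fin p ⊕ Fin q → S), y *ᵥ ((x ^ j) *ᵥ z) = (x ^ j) *ᵥ (y *ᵥ z) := by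
    intro j z
    rw [← nfa_pv_Xpow, ← nfa_pv_Xpow, nfa_pv_mulVec x x y hxy]
  refine Matrix.ext_of_mulVec_single fun j => ?_
  rw [← Matrix.mulVec_mulVec, ← Matrix.mulVec_mulVec]
  rcases j with j | j
  · rw [nfa_col_inl, hx, hv']
    conv_lhs => rw [hH]
    rw [nfa_col_inl, hy]
  · rw [nfa_col_inr, hx, hw']
    conv_lhs => rw [hH]
    rw [nfa_col_inr, hy]

end Columns

theorem thm_NFA : St_NFA := by
  intro S _ _ p q _ _ hqp x y hxy hdet
  have hp0 : 0 < p := Nat.pos_of_ne_zero (NeZero.ne p)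
  have hq0 : 0 < q := Nat.pos_of_ne_zero (NeZero.ne q)
  have hqp' : ((q : ℕ) : WithBot ℕ) ≤ (p : WithBot ℕ) := by exact_mod_cast hqp
  set E1 := e1 S p q with hE1
  set E2 := e2 S p q with hE2
  -- (1)
  obtain ⟨b0', d0', hb0', hd0', hr1⟩ := nfa_exists x E1 E2 hdet ((x ^ q) *ᵥ E2)
  obtain ⟨b0, hb0⟩ : ∃ b0, b0 = -b0' := ⟨_, rfl⟩
  obtain ⟨d, hd⟩ : ∃ d, d = X ^ q + -d0' := ⟨_, rfl⟩
  have hd0n : (-d0').degree < q := by rwa [degree_neg]
  have hdm : d.Monic := by rw [hd]; exact monic_X_pow_add hd0n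
  have hdn : d.natDegree = q := by
    rw [hd]
    refine natDegree_eq_of_degree_eq_some ?_
    rw [degree_add_eq_left_of_degree_lt (by rwa [degree_X_pow]), degree_X_pow]
  have hdd : d.degree = q := by rw [degree_eq_natDegree hdm.ne_zero, hdn]
  have hb0d : b0.degree < p := by rw [hb0, degree_neg]; exact hb0'
  have hrel0 : pv x b0 E1 + pv x d E2 = 0 := by
    rw [hb0, hd, nfa_pv_neg, nfa_pv_add, nfa_pv_Xpow, nfa_pv_neg, hr1]
    abel
  obtain ⟨lam, hlam⟩ : ∃ lam, lam = b0 /ₘ d := ⟨_, rfl⟩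
  obtain ⟨b, hb⟩ : ∃ b, b = b0 %ₘ d := ⟨_, rfl⟩
  have hbd : b.degree < q := by
    rw [hb, ← hdd]; exact degree_modByMonic_lt _ hdm
  have hb0eq : b + d * lam = b0 := by rw [hb, hlam]; exact modByMonic_add_div _ _
  obtain ⟨v, hvv⟩ : ∃ v, v = E2 + pv x lam E1 := ⟨_, rfl⟩
  have hrelb : pv x b E1 + pv x d v = 0 := by
    rw [hvv, nfa_pv_vadd, ← nfa_pv_mul]
    calc pv x b E1 + (pv x d E2 + pv x (d * lam) E1)
        = pv x (b + d * lam) E1 + pv x d E2 := by rw [nfa_pv_add]; abel
      _ = 0 := by rw [hb0eq, hrel0]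
  have hH : IsUnit (hv x E1 v).det := by
    rw [← Matrix.isUnit_iff_isUnit_det, ← Matrix.mulVec_surjective_iff_isUnit]
    intro z
    obtain ⟨r, s, hr, hs, hz⟩ := nfa_exists x E1 E2 hdet z
    have hsl : (s * lam).degree < p := by
      by_cases hl : b0.degree < d.degree
      · have : lam = 0 := by rw [hlam]; exact (divByMonic_eq_zero_iff hdm).2 hl
        rw [this, mul_zero, degree_zero]
        exact WithBot.bot_lt_coe _
      · have h1 := degree_add_divByMonic hdm (not_lt.1 hl)
        rw [← hlam, hdd] at h1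
        refine lt_of_le_of_lt (degree_mul_le _ _) ?_
        refine lt_of_le_of_lt ?_ hb0d
        rw [← h1]
        exact add_le_add hs.le le_rfl
    refine ⟨_, (nfa_hv_pv x E1 v (r - s * lam) s
      (lt_of_le_of_lt (degree_sub_le _ _) (max_lt hr hsl)) hs).trans ?_⟩
    rw [hz, hvv, nfa_pv_sub, nfa_pv_vadd, nfa_pv_mul]
    abel
  -- (2)
  obtain ⟨a0', c', ha0', hc', hr2⟩ := nfa_exists x E1 v hH ((x ^ p) *ᵥ E1)
  obtain ⟨a, ha⟩ : ∃ a, a = X ^ p + -a0' := ⟨_, rfl⟩
  obtain ⟨c, hc⟩ : ∃ c, c = -c' := ⟨_, rfl⟩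
  have ha0n : (-a0').degree < p := by rwa [degree_neg]
  have ham : a.Monic := by rw [ha]; exact monic_X_pow_add ha0n
  have han : a.natDegree = p := by
    rw [ha]
    refine natDegree_eq_of_degree_eq_some ?_
    rw [degree_add_eq_left_of_degree_lt (by rwa [degree_X_pow]), degree_X_pow]
  have had : a.degree = p := by rw [degree_eq_natDegree ham.ne_zero, han]
  have hcd : c.degree < q := by rw [hc, degree_neg]; exact hc'
  have hrela : pv x a E1 + pv x c v = 0 := by
    rw [hc, ha, nfa_pv_neg, nfa_pv_add, nfa_pv_Xpow, nfa_pv_neg, hr2]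
    abel
  obtain ⟨m, hmq⟩ : ∃ m, m = a /ₘ d := ⟨_, rfl⟩
  obtain ⟨P0, hP0⟩ : ∃ P0, P0 = a %ₘ d := ⟨_, rfl⟩
  have hP0d : P0.degree < q := by
    rw [hP0, ← hdd]; exact degree_modByMonic_lt _ hdm
  have haeq : d * m + P0 = a := by
    rw [hmq, hP0, add_comm]; exact modByMonic_add_div _ _
  have hmm : m.Monic := by
    have := leadingCoeff_divByMonic_of_monic hdm (by rw [hdd, had]; exact hqp' : d.degree ≤ a.degree)
    rw [← hmq, ham.leadingCoeff] at this
    exact this
  have hmn : m.natDegree = p - q := by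
    rw [hmq, natDegree_divByMonic _ hdm, han, hdn]
  -- (3)
  obtain ⟨u, γ, hu, hγ, hr3⟩ := nfa_exists x E1 v hH (y *ᵥ E1)
  obtain ⟨y', hy'⟩ : ∃ y', y' = y - aeval x u := ⟨_, rfl⟩
  have hy'1 : y' *ᵥ E1 = pv x γ v := by
    rw [hy', Matrix.sub_mulVec, hr3]
    unfold pv
    abel
  have hxy' : x * y' = y' * x := by
    have h1 := nfa_intertwine x x x rfl u
    rw [hy', mul_sub, sub_mul, hxy, h1]
  obtain ⟨β, ε, hβ, hε, hr4⟩ := nfa_exists x E1 v hH (y' *ᵥ v)
  have happ : ∀ r s : Polynomial S, pv x r E1 + pv x s v = 0 →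
      pv x (s * β) E1 + pv x (r * γ + s * ε) v = 0 := by
    intro r s hrs
    have h1 := congrArg (fun z => y' *ᵥ z) hrs
    simp only [Matrix.mulVec_add, Matrix.mulVec_zero] at h1
    rw [← nfa_pv_mulVec x x y' hxy', ← nfa_pv_mulVec x x y' hxy', hy'1, hr4, nfa_pv_vadd,
      ← nfa_pv_mul, ← nfa_pv_mul, ← nfa_pv_mul] at h1
    rw [nfa_pv_add]
    calc pv x (s * β) E1 + (pv x (r * γ) v + pv x (s * ε) v)
        = pv x (r * γ) v + (pv x (s * β) E1 + pv x (s * ε) v) := by abel
      _ = 0 := h1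
  -- (5)
  have hlt : ∀ (f g : Polynomial S) (i j : ℕ), f.degree ≤ i → g.degree < j →
      (f * g).degree < ((i + j : ℕ) : WithBot ℕ) := by
    intro f g i j hf hg
    rw [degree_lt_iff_coeff_zero]
    intro l hl
    by_cases hg0 : g = 0
    · rw [hg0, mul_zero, coeff_zero]
    · have h1 : g.natDegree < j := (natDegree_lt_iff_degree_lt hg0).2 hg
      have h2 : f.natDegree ≤ i := natDegree_le_of_degree_le hf
      refine coeff_eq_zero_of_natDegree_lt (lt_of_le_of_lt natDegree_mul_le ?_)
      omega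
  obtain ⟨F, G, hF, hG, h5a, h5b⟩ := nfa_Z hqp x E1 v hH a b c d ham han hdm hdn hbd hcd hrela
    hrelb q (d * β) (b * γ + d * ε)
    (by have := hlt d β q p hdd.le hβ; rwa [add_comm q p] at this)
    (lt_of_le_of_lt (degree_add_le _ _) (max_lt (hlt b γ q q hbd.le hγ) (hlt d ε q q hdd.le hε)))
    (happ b d hrelb)
  -- (6)
  obtain ⟨F1, G1, -, -, h6a, h6b⟩ := nfa_Z hqp x E1 v hH a b c d ham han hdm hdn hbd hcd hrela
    hrelb (p + q) (c * β) (a * γ + c * ε)
    (lt_of_lt_of_le (hlt c β q p hcd.le hβ) (by exact_mod_cast (by omega)))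
    (lt_of_le_of_lt (degree_add_le _ _) (max_lt
      (lt_of_lt_of_le (hlt a γ p q had.le hγ) (by exact_mod_cast (by omega)))
      (lt_of_lt_of_le (hlt c ε q q hcd.le hε) (by exact_mod_cast (by omega)))))
    (happ a c hrela)
  -- (7)
  have h7 : F1 + G - ε = 0 := by
    have h1 : (a * d - b * c) * (F1 + G - ε) = 0 := by
      linear_combination (-d) * h6a + b * h6b + c * h5a - a * h5b
    have h2 : (a * d - b * c).Monic := by
      refine (ham.mul hdm).sub_of_left ?_
      have h3 : (a * d).degree = ((p + q : ℕ) : WithBot ℕ) := by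
        rw [degree_eq_natDegree (ham.mul hdm).ne_zero, ham.natDegree_mul hdm, han, hdn]
      rw [h3]
      exact lt_of_lt_of_le (hlt b c q q hbd.le hcd) (by exact_mod_cast (by omega))
    exact h2.mul_right_eq_zero_iff.1 h1
  -- (8)
  have h12 : b * γ - c * F = d * (G - ε) := by linear_combination h5b
  have h01 : P0 * F - b * (-G) = d * (β - m * F) := by
    linear_combination (-1 : Polynomial S) * h5a + F * haeq
  have h02 : P0 * γ - c * (-G) = d * (G1 - m * γ) := by
    linear_combination h6b + γ * haeq + c * h7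
  refine ⟨d, m, u, ![P0, b, c], ![-G, F, γ], ?_, ?_⟩
  · refine ⟨hdm, hdn, hmm, hmn, hu, ?_, ?_, ?_⟩
    · intro i
      fin_cases i
      · exact hP0d
      · exact hbd
      · exact hcd
    · intro i
      fin_cases i
      · simpa using hG
      · exact hF
      · exact hγ
    · intro i j
      fin_cases i <;> fin_cases j
      · exact ⟨0, by simp⟩
      · refine ⟨-(β - m * F), ?_⟩
        simp only [Matrix.cons_val, Fin.mk_one, Fin.zero_eta, Fin.isValue, Fin.reduceFinMk]
        linear_combination (-1 : Polynomial S) * h01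
      · refine ⟨-(G1 - m * γ), ?_⟩
        simp only [Matrix.cons_val, Fin.mk_one, Fin.zero_eta, Fin.isValue, Fin.reduceFinMk]
        linear_combination (-1 : Polynomial S) * h02
      · refine ⟨(β - m * F), ?_⟩
        simp only [Matrix.cons_val, Fin.mk_one, Fin.zero_eta, Fin.isValue, Fin.reduceFinMk]
        linear_combination h01
      · exact ⟨0, by simp⟩
      · refine ⟨-(G - ε), ?_⟩
        simp only [Matrix.cons_val, Fin.mk_one, Fin.zero_eta, Fin.isValue, Fin.reduceFinMk]
        linear_combination (-1 : Polynomial S) * h12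
      · refine ⟨(G1 - m * γ), ?_⟩
        simp only [Matrix.cons_val, Fin.mk_one, Fin.zero_eta, Fin.isValue, Fin.reduceFinMk]
        linear_combination h02
      · refine ⟨(G - ε), ?_⟩
        simp only [Matrix.cons_val, Fin.mk_one, Fin.zero_eta, Fin.isValue, Fin.reduceFinMk]
        linear_combination h12
      · exact ⟨0, by simp⟩
  · -- (9)
    have hN : x * hv x E1 v = hv x E1 v * cx p q a b c d :=
      nfa_cx x E1 v hqp a b c d ham han hdm hdn hbd hcd hrela hrelb
    have hnfx : nfx p q d m ![P0, b, c] = cx p q a b c d := by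
      have : nfx p q d m ![P0, b, c] = cx p q (d * m + P0) b c d := rfl
      rw [this, haeq]
    have hHe1 : hv x E1 v *ᵥ E1 = E1 := by
      have h1 := nfa_col_inl x E1 v (0 : Fin p)
      have h2 : (((0 : Fin p) : Fin p) : ℕ) = 0 := by simp
      rw [h2, pow_zero, Matrix.one_mulVec] at h1
      exact h1
    have hHe2 : hv x E1 v *ᵥ E2 = v := by
      have h1 := nfa_col_inr x E1 v (0 : Fin q)
      have h2 : (((0 : Fin q) : Fin q) : ℕ) = 0 := by simp
      rw [h2, pow_zero, Matrix.one_mulVec] at h1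
      exact h1
    refine ⟨hv x E1 v, hH, ?_, ?_⟩
    · rw [hnfx]; exact hN
    · have hκ1 : (P0 * F - b * (-G)) /ₘ d = β - m * F := by
        rw [h01]; exact mul_divByMonic_cancel_left _ hdm
      have hκ2 : (b * γ - c * F) /ₘ d = G - ε := by
        rw [h12]; exact mul_divByMonic_cancel_left _ hdm
      have hnfy : nfy p q d m u ![P0, b, c] ![-G, F, γ] =
          hv (cx p q a b c d) (pv (cx p q a b c d) u E1 + pv (cx p q a b c d) γ E2)
            (pv (cx p q a b c d) β E1 + pv (cx p q a b c d) (u + ε) E2) := by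
        have h1 : nfy p q d m u ![P0, b, c] ![-G, F, γ] =
            cy (nfx p q d m ![P0, b, c]) u γ (m * F + (P0 * F - b * (-G)) /ₘ d)
              (u + (-(-G) - (b * γ - c * F) /ₘ d)) := rfl
        rw [h1, hnfx, hκ1, hκ2]
        have h2 : m * F + (β - m * F) = β := by ring
        have h3 : u + (-(-G) - (G - ε)) = u + ε := by ring
        rw [h2, h3]
        rfl
      rw [hnfy]
      refine nfa_hy x y (cx p q a b c d) (hv x E1 v) hxy E1 v _ _ rfl hN ?_ ?_
      · rw [Matrix.mulVec_add, ← nfa_pv_mulVec x _ _ hN, ← nfa_pv_mulVec x _ _ hN, hHe1, hHe2, hr3]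
      · rw [Matrix.mulVec_add, ← nfa_pv_mulVec x _ _ hN, ← nfa_pv_mulVec x _ _ hN, hHe1, hHe2]
        have h1 : y *ᵥ v = y' *ᵥ v + pv x u v := by
          rw [hy', Matrix.sub_mulVec]
          unfold pv
          abel
        rw [h1, hr4, nfa_pv_add]
        abel

end Pool.Agent.CTR
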